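import Pool.Agent.Helper33.Half.Near

/-!
# No large correlation along a whole cluster of differences (helper33)
-/

set_option autoImplicit false

namespace Pool.Agent.Helper33.Half

open Finset

open Classical in
lemma bad_le {g : ℤ → ℝ} (hg : Sg g) (k : ℕ) {σ : ℝ} (hσ : σ = 1 ∨ σ = -1) (x : ℕ) (d : ℤ) :
    (((Icc (1 : ℤ) x).filter (Bad g k σ d)).card : ℝ) ≤
      (x - 2 * (σ * CC g k x d) + |TT g x (k * d)| + 2 * |(d : ℝ)|) / 4 := by
  have hs := shift_int (f := PR g k d) (fun n => by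
    rcases PR_val hg k d n with h | h <;> rw [h] <;> norm_num) x d
  have h1 : (((Icc (1 : ℤ) x).filter (Bad g k σ d)).card : ℝ) =
      (x - σ * CC g k x d - σ * ∑ n ∈ Icc (1 : ℤ) x, PR g k d (n + d) + TT g x (k * d)) / 4 := by
    have h2 : (x : ℝ) = ∑ n ∈ Icc (1 : ℤ) x, (1 : ℝ) := by
      rw [sum_const, Int.card_Icc]
      simp
    rw [h2]
    unfold CC TT
    rw [← sum_boole, mul_sum, mul_sum, ← sum_sub_distrib, ← sum_sub_distrib, ← sum_add_distrib,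
      sum_div]
    refine sum_congr rfl fun n _ => ?_
    have h3 : g n * g (n + (k : ℤ) * d) = PR g k d n * PR g k d (n + d) := (PR_mul hg k d n).symm
    rw [h3]
    unfold Bad
    rcases PR_val hg k d n with h | h <;> rcases PR_val hg k d (n + d) with h' | h' <;>
      rcases hσ with hs | hs <;> rw [h, h', hs] <;> norm_num
  rw [h1]
  have h4 : -(σ * ∑ n ∈ Icc (1 : ℤ) x, PR g k d (n + d)) ≤ -(σ * CC g k x d) + 2 * |(d : ℝ)| := by
    have h5 := abs_le.1 hs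
    unfold CC
    rcases hσ with h | h <;> rw [h] <;> linarith [h5.1, h5.2]
  have h6 := le_abs_self (TT g x (k * d))
  linarith

/-- **No cluster of large correlations.** -/
theorem contra {k : ℕ} (hk : 2 ≤ k) : ∃ (M W : ℕ) (κ : ℝ), 1 ≤ M ∧ 0 < κ ∧ κ < 1 / 2 ∧
    ∀ g : ℤ → ℝ, Sg g → ∀ σ : ℝ, (σ = 1 ∨ σ = -1) → ∀ r Q H p x : ℕ, 1 ≤ r → 1 ≤ Q → 1 ≤ p →
    W ≤ H → W * (r * (p + Q * H)) ≤ x →
    (∀ h : ℕ, 1 ≤ h → h ≤ W * (r * (p + Q * H)) → |TT g x h| ≤ κ * x) →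
    (1 / 2 - κ) * x ≤ σ * CC g k x (r * p) →
    ∑ c ∈ Icc (-(M : ℤ)) M, ∑ τ ∈ Icc (1 : ℤ) H,
      |CC g k x (r * (p + Q * (M * H + c * τ))) - CC g k x (r * p)| ≤ κ * ((2 * M + 1) * H * x) →
    False := by
  classical
  obtain ⟨J, M, W, θ, hJ, hM, hθ, hθ1, hcount⟩ := count hk
  have hJr : (1 : ℝ) ≤ J := by exact_mod_cast hJ
  have hMr : (1 : ℝ) ≤ M := by exact_mod_cast hM
  obtain ⟨κ, hκ⟩ : ∃ κ : ℝ, κ = θ / (4 * (2 * M + 1) * J) := ⟨_, rfl⟩
  have hκ0 : 0 < κ := by rw [hκ]; positivity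
  have hκθ : κ * (4 * (2 * M + 1) * J) = θ := by
    rw [hκ]
    field_simp
  have hMJ : (12 : ℝ) * J ≤ 4 * (2 * M + 1) * J := by nlinarith
  have hκJ : κ * J ≤ 1 / 12 := by nlinarith
  have hκ12 : κ ≤ 1 / 12 := by nlinarith
  have hκM : κ * (4 * (2 * M + 1)) ≤ θ := by
    rw [← hκθ]
    nlinarith
  obtain ⟨W₂, hW₂⟩ : ∃ W₂ : ℕ, W₂ = (W + 1) * (M + 1) + k * (J + 2 * M + 2) + ⌈2 * M / κ⌉₊ :=
    ⟨_, rfl⟩
  have hW₂κ : 2 * M / κ ≤ W₂ := by
    have h1 := Nat.le_ceil ((2 * M : ℝ) / κ)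
    have h2 : ((⌈(2 * M : ℝ) / κ⌉₊ : ℕ) : ℝ) ≤ W₂ := by
      exact_mod_cast (by omega : ⌈(2 * M : ℝ) / κ⌉₊ ≤ W₂)
    linarith
  refine ⟨M, W₂, κ, hM, hκ0, by linarith, ?_⟩
  intro g hg σ hσ r Q H p x hr hQ hp hWH hx hTT hlow hnear
  have hWW₂ : W * (M + 1) ≤ W₂ := by
    have : W * (M + 1) ≤ (W + 1) * (M + 1) := Nat.mul_le_mul_right _ (by omega)
    omega
  have hWH' : W ≤ H := by
    have : W ≤ W * (M + 1) := Nat.le_mul_of_pos_right _ (by omega)
    omega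
  have hkW : k * (J + 2 * M + 2) ≤ W₂ := by omega
  have hk1 : 1 ≤ k := by omega
  have hH1 : 1 ≤ H := by
    have : 1 ≤ (W + 1) * (M + 1) := Nat.mul_pos (by omega) (by omega)
    omega
  obtain ⟨Z, hZ⟩ : ∃ Z, Z = r * (p + Q * H) := ⟨_, rfl⟩
  rw [← hZ] at hx hTT
  have hrp : r * p ≤ Z := by rw [hZ]; exact Nat.mul_le_mul_left _ (by omega)
  have hrQH : r * (Q * H) ≤ Z := by rw [hZ]; exact Nat.mul_le_mul_left _ (by omega)
  have hZ1 : 1 ≤ Z := le_trans (Nat.mul_pos hr hp) hrp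
  have hx0 : (0 : ℝ) ≤ x := Nat.cast_nonneg _
  -- the parameters of the counting lemma
  have c1 : W * (r * Q * H + r * (p + Q * M * H)) ≤ x := by
    have h1 : r * Q * H + r * (p + Q * M * H) ≤ (M + 1) * Z := by
      have h2 : r * Q * H + r * (p + Q * M * H) = r * p + (M + 1) * (r * (Q * H)) := by ring
      have h3 : (M + 1) * Z = M * Z + Z := by ring
      have h4 : (M + 1) * Z = (M + 1) * (r * p) + (M + 1) * (r * (Q * H)) := by rw [hZ]; ring
      have h5 : r * p ≤ (M + 1) * (r * p) := Nat.le_mul_of_pos_left _ (by omega)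
      omega
    calc W * (r * Q * H + r * (p + Q * M * H)) ≤ W * ((M + 1) * Z) := Nat.mul_le_mul_left _ h1
      _ = W * (M + 1) * Z := by ring
      _ ≤ W₂ * Z := Nat.mul_le_mul_right _ hWW₂
      _ ≤ x := hx
  have c2 : |TT g x (k * ((r * (p + Q * M * H) : ℕ) : ℤ))| ≤ x / 10 := by
    have h1 := hTT (k * (r * (p + Q * M * H))) (Nat.mul_pos hk1 (Nat.mul_pos hr (by omega))) (by
      have h2 : r * (p + Q * M * H) ≤ (M + 1) * Z := by
        have h3 : r * (p + Q * M * H) = r * p + M * (r * (Q * H)) := by ring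
        have h4 : (M + 1) * Z = Z + M * Z := by ring
        have h5 : M * (r * (Q * H)) ≤ M * Z := Nat.mul_le_mul_left _ hrQH
        omega
      calc k * (r * (p + Q * M * H)) ≤ k * ((M + 1) * Z) := Nat.mul_le_mul_left _ h2
        _ = k * (M + 1) * Z := by ring
        _ ≤ W₂ * Z := Nat.mul_le_mul_right _ (le_trans (Nat.mul_le_mul_left _ (by omega)) hkW))
    push_cast at h1 ⊢
    refine h1.trans ?_
    nlinarith
  have c3 : ∑ τ ∈ Icc (1 : ℤ) H, ∑ i ∈ Icc 1 J, |TT g x (i * (k * (((r * Q : ℕ) : ℤ) * τ)))| ≤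
      x * H := by
    have h1 : ∀ τ ∈ Icc (1 : ℤ) H, ∑ i ∈ Icc 1 J, |TT g x (i * (k * (((r * Q : ℕ) : ℤ) * τ)))| ≤ x := by
      intro τ hτ
      rw [mem_Icc] at hτ
      obtain ⟨t, rfl⟩ : ∃ t : ℕ, τ = t := ⟨τ.toNat, by omega⟩
      have ht1 : 1 ≤ t := by omega
      have htH : t ≤ H := by omega
      have h2 : ∀ i ∈ Icc 1 J, |TT g x (i * (k * (((r * Q : ℕ) : ℤ) * (t : ℤ))))| ≤ κ * x := by
        intro i hi
        rw [mem_Icc] at hi
        have h3 := hTT (i * (k * (r * Q * t)))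
          (Nat.mul_pos hi.1 (Nat.mul_pos hk1 (Nat.mul_pos (Nat.mul_pos hr hQ) ht1))) (by
          calc i * (k * (r * Q * t)) ≤ J * (k * (r * Q * H)) := by gcongr; exact hi.2
            _ = k * J * (r * (Q * H)) := by ring
            _ ≤ k * J * Z := Nat.mul_le_mul_left _ hrQH
            _ ≤ W₂ * Z := Nat.mul_le_mul_right _ (le_trans (Nat.mul_le_mul_left _ (by omega)) hkW))
        push_cast at h3 ⊢
        exact h3
      refine (sum_le_sum h2).trans ?_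
      rw [sum_const, Nat.card_Icc, nsmul_eq_mul, Nat.add_sub_cancel]
      nlinarith
    refine (sum_le_sum h1).trans ?_
    rw [sum_const, Int.card_Icc, nsmul_eq_mul]
    have : ((H : ℤ) + 1 - 1).toNat = H := by simp
    rw [this, mul_comm]
  have hmain := hcount g hg σ hσ (r * Q) H (r * (p + Q * M * H)) x (Nat.mul_pos hr hQ) hWH' c1 c2 c3
  -- upper bound
  have hup : ∀ c ∈ Icc (-(M : ℤ)) M, ∀ τ ∈ Icc (1 : ℤ) H, (((Icc (1 : ℤ) x).filter
      (Bad g k σ (((r * (p + Q * M * H) : ℕ) : ℤ) + c * (((r * Q : ℕ) : ℤ) * τ)))).card : ℝ) ≤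
      5 / 4 * κ * x +
      1 / 2 * |CC g k x (r * (p + Q * (M * H + c * τ))) - CC g k x (r * p)| := by
    intro c hc τ hτ
    rw [mem_Icc] at hc hτ
    have hcτ1 : -((M : ℤ) * H) ≤ c * τ := by nlinarith
    have hcτ2 : c * τ ≤ (M : ℤ) * H := by nlinarith
    obtain ⟨m, hm⟩ : ∃ m : ℕ, (M : ℤ) * H + c * τ = m := ⟨((M : ℤ) * H + c * τ).toNat, by omega⟩
    have hm2 : m ≤ 2 * (M * H) := by
      have : (m : ℤ) ≤ 2 * (M * H) := by omega
      exact_mod_cast this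
    have hd : ((r * (p + Q * M * H) : ℕ) : ℤ) + c * (((r * Q : ℕ) : ℤ) * τ) =
        ((r * (p + Q * m) : ℕ) : ℤ) := by
      push_cast
      rw [← hm]
      ring
    have hd' : (r : ℤ) * (p + Q * (M * H + c * τ)) = ((r * (p + Q * m) : ℕ) : ℤ) := by
      rw [hm]
      push_cast
      ring
    rw [hd, hd']
    have h1 := bad_le hg k hσ x ((r * (p + Q * m) : ℕ) : ℤ)
    have hdZ : r * (p + Q * m) ≤ 2 * M * Z := by
      have h2 : r * (p + Q * m) = r * p + r * (Q * m) := by ring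
      have h3 : r * (Q * m) ≤ 2 * M * (r * (Q * H)) := by
        calc r * (Q * m) ≤ r * (Q * (2 * (M * H))) := by gcongr
          _ = 2 * M * (r * (Q * H)) := by ring
      have h4 : 2 * M * Z = 2 * M * (r * p) + 2 * M * (r * (Q * H)) := by rw [hZ]; ring
      have h5 : r * p ≤ 2 * M * (r * p) := Nat.le_mul_of_pos_left _ (by omega)
      omega
    have h6 : |TT g x (k * ((r * (p + Q * m) : ℕ) : ℤ))| ≤ κ * x := by
      have h7 := hTT (k * (r * (p + Q * m))) (Nat.mul_pos hk1 (Nat.mul_pos hr (by omega))) (by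
        calc k * (r * (p + Q * m)) ≤ k * (2 * M * Z) := Nat.mul_le_mul_left _ hdZ
          _ = k * (2 * M) * Z := by ring
          _ ≤ W₂ * Z := Nat.mul_le_mul_right _ (le_trans (Nat.mul_le_mul_left _ (by omega)) hkW))
      push_cast at h7 ⊢
      exact h7
    have h8 : |(((r * (p + Q * m) : ℕ) : ℤ) : ℝ)| ≤ κ * x := by
      rw [Int.cast_natCast, Nat.abs_cast]
      have h9 : ((r * (p + Q * m) : ℕ) : ℝ) ≤ 2 * M * Z := by exact_mod_cast hdZ
      refine h9.trans ?_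
      rw [div_le_iff₀ hκ0] at hW₂κ
      have h10 : (W₂ : ℝ) * Z ≤ x := by exact_mod_cast hx
      have h11 : 2 * (M : ℝ) * Z ≤ W₂ * κ * Z := mul_le_mul_of_nonneg_right hW₂κ (Nat.cast_nonneg _)
      nlinarith
    have h12 : -(σ * CC g k x ((r * (p + Q * m) : ℕ) : ℤ)) ≤ -(σ * CC g k x (r * p)) +
        |CC g k x ((r * (p + Q * m) : ℕ) : ℤ) - CC g k x (r * p)| := by
      have h13 := abs_le.1 (le_refl |CC g k x ((r * (p + Q * m) : ℕ) : ℤ) - CC g k x (r * p)|)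
      rcases hσ with h | h <;> rw [h] <;> linarith [h13.1, h13.2]
    linarith
  have hS : ∑ c ∈ Icc (-(M : ℤ)) M, ∑ τ ∈ Icc (1 : ℤ) H, (((Icc (1 : ℤ) x).filter
      (Bad g k σ (((r * (p + Q * M * H) : ℕ) : ℤ) + c * (((r * Q : ℕ) : ℤ) * τ)))).card : ℝ) ≤
      ∑ c ∈ Icc (-(M : ℤ)) M, ∑ τ ∈ Icc (1 : ℤ) H, (5 / 4 * κ * x +
      1 / 2 * |CC g k x (r * (p + Q * (M * H + c * τ))) - CC g k x (r * p)|) :=
    sum_le_sum fun c hc => sum_le_sum fun τ hτ => hup c hc τ hτ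
  simp_rw [sum_add_distrib, ← mul_sum] at hS
  rw [sum_const, sum_const, Int.card_Icc, Int.card_Icc] at hS
  have n1 : ((H : ℤ) + 1 - 1).toNat = H := by simp
  have n2 : ((M : ℤ) + 1 - -(M : ℤ)).toNat = 2 * M + 1 := by omega
  rw [n1, n2, nsmul_eq_mul, nsmul_eq_mul] at hS
  push_cast at hS
  have hxpos : (0 : ℝ) < x := by
    have h1 : 1 ≤ W₂ := by
      have : 1 ≤ (W + 1) * (M + 1) := Nat.mul_pos (by omega) (by omega)
      omega
    have : 1 ≤ W₂ * Z := Nat.mul_pos h1 hZ1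
    exact_mod_cast (by omega : 0 < x)
  have hHpos : (0 : ℝ) < H := by exact_mod_cast hH1
  have hxH : 0 < (x : ℝ) * H := mul_pos hxpos hHpos
  have hfin : θ * (x * H) ≤ 7 / 4 * κ * (2 * M + 1) * (x * H) := by
    push_cast at hmain
    linarith
  have h20 : θ ≤ 7 / 4 * κ * (2 * M + 1) := le_of_mul_le_mul_right hfin hxH
  have h21 : 0 < κ * (2 * M + 1) := by positivity
  linarith

end Pool.Agent.Helper33.Half
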