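import Pool.Agent.Helper33.Half.Contra

/-!
# No large correlation along a cluster of differences, averaged hypotheses (helper33)
-/

set_option autoImplicit false

namespace Pool.Agent.Helper33.Half

open Finset

/-- **No cluster of large correlations**, with averages of the two-point correlations. -/
theorem contra2 {k : ℕ} (hk : 2 ≤ k) : ∃ (J M W : ℕ) (κ : ℝ), 1 ≤ J ∧ 1 ≤ M ∧ 0 < κ ∧ κ < 1 / 2 ∧
    ∀ g : ℤ → ℝ, Sg g → ∀ σ : ℝ, (σ = 1 ∨ σ = -1) → ∀ Q H d x : ℕ, 1 ≤ Q → 1 ≤ d →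
    W ≤ H → W * (d + Q * H) ≤ x →
    |TT g x (k * (d + Q * (M * H)))| ≤ x / 10 →
    ∑ τ ∈ Icc (1 : ℤ) H, ∑ i ∈ Icc 1 J, |TT g x (i * (k * (Q * τ)))| ≤ x * H →
    (1 / 2 - κ) * x ≤ σ * CC g k x d →
    ∑ c ∈ Icc (-(M : ℤ)) M, ∑ τ ∈ Icc (1 : ℤ) H,
      |CC g k x (d + Q * (M * H + c * τ)) - CC g k x d| ≤ κ * ((2 * M + 1) * H * x) →
    ∑ c ∈ Icc (-(M : ℤ)) M, ∑ τ ∈ Icc (1 : ℤ) H,
      |TT g x (k * (d + Q * (M * H + c * τ)))| ≤ κ * ((2 * M + 1) * H * x) →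
    False := by
  classical
  obtain ⟨J, M, W, θ, hJ, hM, hθ, hθ1, hcount⟩ := count hk
  have hMr : (1 : ℝ) ≤ M := by exact_mod_cast hM
  obtain ⟨κ, hκ⟩ : ∃ κ : ℝ, κ = θ / (4 * (2 * M + 1)) := ⟨_, rfl⟩
  have hκ0 : 0 < κ := by rw [hκ]; positivity
  have hκM : κ * (4 * (2 * M + 1)) = θ := by
    rw [hκ]
    field_simp
  have hκ12 : κ ≤ 1 / 12 := by nlinarith
  obtain ⟨W₂, hW₂⟩ : ∃ W₂ : ℕ, W₂ = (W + 1) * (M + 1) + ⌈2 * M / κ⌉₊ := ⟨_, rfl⟩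
  have hW₂κ : 2 * M / κ ≤ W₂ := by
    have h1 := Nat.le_ceil ((2 * M : ℝ) / κ)
    have h2 : ((⌈(2 * M : ℝ) / κ⌉₊ : ℕ) : ℝ) ≤ W₂ := by
      exact_mod_cast (by omega : ⌈(2 * M : ℝ) / κ⌉₊ ≤ W₂)
    linarith
  refine ⟨J, M, W₂, κ, hJ, hM, hκ0, by linarith, ?_⟩
  intro g hg σ hσ Q H d x hQ hd hWH hx hT1 hT2 hlow hnear hT3
  have hWW₂ : W * (M + 1) ≤ W₂ := by
    have : W * (M + 1) ≤ (W + 1) * (M + 1) := Nat.mul_le_mul_right _ (by omega)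
    omega
  have hWH' : W ≤ H := by
    have : W ≤ W * (M + 1) := Nat.le_mul_of_pos_right _ (by omega)
    omega
  have hH1 : 1 ≤ H := by
    have : 1 ≤ (W + 1) * (M + 1) := Nat.mul_pos (by omega) (by omega)
    omega
  obtain ⟨Z, hZ⟩ : ∃ Z, Z = d + Q * H := ⟨_, rfl⟩
  rw [← hZ] at hx
  have hdZ : d ≤ Z := by omega
  have hQHZ : Q * H ≤ Z := by omega
  have hZ1 : 1 ≤ Z := by omega
  have hx0 : (0 : ℝ) ≤ x := Nat.cast_nonneg _
  have c1 : W * (Q * H + (d + Q * (M * H))) ≤ x := by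
    have h1 : Q * H + (d + Q * (M * H)) ≤ (M + 1) * Z := by
      have h3 : Q * (M * H) = M * (Q * H) := by ring
      have h4 : M * (Q * H) ≤ M * Z := Nat.mul_le_mul_left _ hQHZ
      have h5 : (M + 1) * Z = M * Z + Z := by ring
      omega
    calc W * (Q * H + (d + Q * (M * H))) ≤ W * ((M + 1) * Z) := Nat.mul_le_mul_left _ h1
      _ = W * (M + 1) * Z := by ring
      _ ≤ W₂ * Z := Nat.mul_le_mul_right _ hWW₂
      _ ≤ x := hx
  have c2 : |TT g x (k * ((d + Q * (M * H) : ℕ) : ℤ))| ≤ x / 10 := by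
    push_cast
    exact hT1
  have hmain := hcount g hg σ hσ Q H (d + Q * (M * H)) x hQ hWH' c1 c2 hT2
  have hup : ∀ c ∈ Icc (-(M : ℤ)) M, ∀ τ ∈ Icc (1 : ℤ) H, (((Icc (1 : ℤ) x).filter
      (Bad g k σ (((d + Q * (M * H) : ℕ) : ℤ) + c * ((Q : ℤ) * τ)))).card : ℝ) ≤
      κ * x +
      1 / 2 * |CC g k x (d + Q * (M * H + c * τ)) - CC g k x d| +
      1 / 4 * |TT g x (k * (d + Q * (M * H + c * τ)))| := by
    intro c hc τ hτ
    rw [mem_Icc] at hc hτ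
    have hcτ1 : -((M : ℤ) * H) ≤ c * τ := by nlinarith
    have hcτ2 : c * τ ≤ (M : ℤ) * H := by nlinarith
    obtain ⟨m, hm⟩ : ∃ m : ℕ, (M : ℤ) * H + c * τ = m := ⟨((M : ℤ) * H + c * τ).toNat, by omega⟩
    have hm2 : m ≤ 2 * (M * H) := by
      have : (m : ℤ) ≤ 2 * (M * H) := by omega
      exact_mod_cast this
    have hd1 : ((d + Q * (M * H) : ℕ) : ℤ) + c * ((Q : ℤ) * τ) = ((d + Q * m : ℕ) : ℤ) := by
      push_cast
      rw [← hm]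
      ring
    have hd' : (d : ℤ) + Q * (M * H + c * τ) = ((d + Q * m : ℕ) : ℤ) := by
      rw [hm]
      push_cast
      ring
    rw [hd1, hd']
    have h1 := bad_le hg k hσ x ((d + Q * m : ℕ) : ℤ)
    have hdZ' : d + Q * m ≤ 2 * M * Z := by
      have h3 : Q * m ≤ 2 * M * (Q * H) := by
        calc Q * m ≤ Q * (2 * (M * H)) := by gcongr
          _ = 2 * M * (Q * H) := by ring
      have h4 : 2 * M * Z = 2 * M * d + 2 * M * (Q * H) := by rw [hZ]; ring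
      have h5 : d ≤ 2 * M * d := Nat.le_mul_of_pos_left _ (by omega)
      omega
    have h8 : |(((d + Q * m : ℕ) : ℤ) : ℝ)| ≤ κ * x := by
      rw [Int.cast_natCast, Nat.abs_cast]
      have h9 : ((d + Q * m : ℕ) : ℝ) ≤ 2 * M * Z := by exact_mod_cast hdZ'
      refine h9.trans ?_
      rw [div_le_iff₀ hκ0] at hW₂κ
      have h10 : (W₂ : ℝ) * Z ≤ x := by exact_mod_cast hx
      have h11 : 2 * (M : ℝ) * Z ≤ W₂ * κ * Z := mul_le_mul_of_nonneg_right hW₂κ (Nat.cast_nonneg _)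
      nlinarith
    have h12 : -(σ * CC g k x ((d + Q * m : ℕ) : ℤ)) ≤ -(σ * CC g k x d) +
        |CC g k x ((d + Q * m : ℕ) : ℤ) - CC g k x d| := by
      have h13 := abs_le.1 (le_refl |CC g k x ((d + Q * m : ℕ) : ℤ) - CC g k x d|)
      rcases hσ with h | h <;> rw [h] <;> linarith [h13.1, h13.2]
    linarith
  have hS : ∑ c ∈ Icc (-(M : ℤ)) M, ∑ τ ∈ Icc (1 : ℤ) H, (((Icc (1 : ℤ) x).filter
      (Bad g k σ (((d + Q * (M * H) : ℕ) : ℤ) + c * ((Q : ℤ) * τ)))).card : ℝ) ≤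
      ∑ c ∈ Icc (-(M : ℤ)) M, ∑ τ ∈ Icc (1 : ℤ) H, (κ * x +
      1 / 2 * |CC g k x (d + Q * (M * H + c * τ)) - CC g k x d| +
      1 / 4 * |TT g x (k * (d + Q * (M * H + c * τ)))|) :=
    sum_le_sum fun c hc => sum_le_sum fun τ hτ => hup c hc τ hτ
  simp_rw [sum_add_distrib, ← mul_sum] at hS
  rw [sum_const, sum_const, Int.card_Icc, Int.card_Icc] at hS
  have n1 : ((H : ℤ) + 1 - 1).toNat = H := by simp
  have n2 : ((M : ℤ) + 1 - -(M : ℤ)).toNat = 2 * M + 1 := by omega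
  rw [n1, n2, nsmul_eq_mul, nsmul_eq_mul] at hS
  push_cast at hS hmain
  have hxpos : (0 : ℝ) < x := by
    have h1 : 1 ≤ W₂ := by
      have : 1 ≤ (W + 1) * (M + 1) := Nat.mul_pos (by omega) (by omega)
      omega
    have : 1 ≤ W₂ * Z := Nat.mul_pos h1 hZ1
    exact_mod_cast (by omega : 0 < x)
  have hHpos : (0 : ℝ) < H := by exact_mod_cast hH1
  have hxH : 0 < (x : ℝ) * H := mul_pos hxpos hHpos
  have hfin : θ * (x * H) ≤ 7 / 4 * κ * (2 * M + 1) * (x * H) := by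
    linarith
  have h20 : θ ≤ 7 / 4 * κ * (2 * M + 1) := le_of_mul_le_mul_right hfin hxH
  have h21 : 0 < κ * (2 * M + 1) := by positivity
  linarith

end Pool.Agent.Helper33.Half
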