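import Mathlib

/-!
# Cubes of progressions (helper33)

`g` takes the values `1`, `-1` and `PR g k d n = g(n) g(n+d) ⋯ g(n+(k-1)d)`. The `2^(k-1)` progressions
of length `k` which start at `u + (∑ ω) t` and have the difference `d - |ω| t`, `ω ⊆ {1, …, k-1}`,
have the same interior values in pairs. So if the two end values `g(u + (∑ ω) t)` and
`g(u + k d - (k |ω| - ∑ ω) t)` agree for every `ω` and the product of the starting values is `-1`, then
for one `ω` the products `PR g k (d - |ω| t)` at the start and one step later are both `-σ`.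
-/

set_option autoImplicit false

namespace Pool.Agent.Helper33.Half

open Finset

/-- `g(n) g(n+d) ⋯ g(n+(k-1)d)` -/
def PR (g : ℤ → ℝ) (k : ℕ) (d n : ℤ) : ℝ := ∏ i ∈ range k, g (n + i * d)

/-- values `1`, `-1` -/
def Sg (g : ℤ → ℝ) : Prop := ∀ m, g m = 1 ∨ g m = -1

/-- two neighbouring products are both `-σ` -/
def Bad (g : ℤ → ℝ) (k : ℕ) (σ : ℝ) (d n : ℤ) : Prop :=
  PR g k d n = -σ ∧ PR g k d (n + d) = -σ

lemma Sg.sq {g : ℤ → ℝ} (hg : Sg g) (m : ℤ) : g m * g m = 1 := by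
  rcases hg m with h | h <;> rw [h] <;> norm_num

lemma PR_val {g : ℤ → ℝ} (hg : Sg g) (k : ℕ) (d n : ℤ) : PR g k d n = 1 ∨ PR g k d n = -1 := by
  unfold PR
  induction k with
  | zero => simp
  | succ k ih =>
    rw [prod_range_succ]
    rcases ih with h | h <;> rcases hg (n + k * d) with h' | h' <;> rw [h, h'] <;> norm_num

lemma PR_mul {g : ℤ → ℝ} (hg : Sg g) (k : ℕ) (d n : ℤ) :
    PR g k d n * PR g k d (n + d) = g n * g (n + k * d) := by
  have h1 : PR g k d n * g (n + k * d) = PR g k d (n + d) * g n := by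
    have e1 : ∏ i ∈ range (k + 1), g (n + i * d) = PR g k d n * g (n + k * d) := by
      rw [prod_range_succ]
      rfl
    have e2 : ∏ i ∈ range (k + 1), g (n + i * d) = PR g k d (n + d) * g n := by
      rw [prod_range_succ', Nat.cast_zero, zero_mul, add_zero]
      congr 1
      unfold PR
      refine prod_congr rfl fun i _ => ?_
      congr 1
      push_cast
      ring
    rw [← e1, e2]
  have h2 : PR g k d (n + d) * PR g k d (n + d) = 1 := by
    rcases PR_val hg k d (n + d) with h | h <;> rw [h] <;> norm_num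
  have h3 := hg.sq (n + k * d)
  calc PR g k d n * PR g k d (n + d)
      = (PR g k d n * g (n + k * d)) * PR g k d (n + d) * g (n + k * d) := by
        linear_combination (- (PR g k d n * PR g k d (n + d))) * h3
    _ = (PR g k d (n + d) * g n) * PR g k d (n + d) * g (n + k * d) := by rw [h1]
    _ = g n * g (n + k * d) := by linear_combination (g n * g (n + k * d)) * h2

/-- a product over all subsets of a function that does not notice the element `i` -/
lemma prod_toggle {S : Finset ℕ} {i : ℕ} (hi : i ∈ S) (F : Finset ℕ → ℝ)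
    (hF : ∀ ω, i ∉ ω → F (insert i ω) = F ω) (hv : ∀ ω, F ω = 1 ∨ F ω = -1) :
    ∏ ω ∈ S.powerset, F ω = 1 := by
  classical
  have h1 : S = insert i (S.erase i) := (insert_erase hi).symm
  rw [h1, prod_powerset_insert (notMem_erase i S)]
  have h2 : ∏ t ∈ (S.erase i).powerset, F (insert i t) = ∏ t ∈ (S.erase i).powerset, F t := by
    refine prod_congr rfl fun t ht => hF t fun hit => ?_
    exact notMem_erase i S (mem_powerset.1 ht hit)
  rw [h2]
  have h3 : ∏ t ∈ (S.erase i).powerset, F t = 1 ∨ ∏ t ∈ (S.erase i).powerset, F t = -1 := by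
    refine prod_induction F (fun z => z = 1 ∨ z = -1) ?_ (Or.inl rfl) fun t _ => hv t
    rintro a b (rfl | rfl) (rfl | rfl) <;> norm_num
  rcases h3 with h | h <;> rw [h] <;> norm_num

/-- the sum of the numbers `1, …, k-1` -/
def AA (k : ℕ) : ℕ := ∑ j ∈ Ico 1 k, j

lemma sum_lt_AA {k : ℕ} {ω : Finset ℕ} (h : ω ⊆ Ico 1 k) (hne : ω ≠ Ico 1 k) :
    ∑ j ∈ ω, j < AA k := by
  obtain ⟨i, hi, hiω⟩ : ∃ i ∈ Ico 1 k, i ∉ ω := by
    by_contra hcon
    push Not at hcon
    exact hne (Subset.antisymm h hcon)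
  refine sum_lt_sum_of_subset h hi hiω ?_ fun _ _ _ => Nat.zero_le _
  exact (mem_Ico.1 hi).1

/-- the distance from the right end: `k |ω| - ∑ ω = ∑_{j ∈ ω} (k - j)` -/
lemma sub_lt_AA {k : ℕ} {ω : Finset ℕ} (h : ω ⊆ Ico 1 k) (hne : ω ≠ Ico 1 k) :
    ∑ j ∈ ω, (k - j) < AA k := by
  obtain ⟨i, hi, hiω⟩ : ∃ i ∈ Ico 1 k, i ∉ ω := by
    by_contra hcon
    push Not at hcon
    exact hne (Subset.antisymm h hcon)
  have h1 : ∑ j ∈ Ico 1 k, (k - j) = AA k := by
    unfold AA
    refine sum_bij' (fun j _ => k - j) (fun j _ => k - j) ?_ ?_ ?_ ?_ ?_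
    · intro j hj; rw [mem_Ico] at hj ⊢; omega
    · intro j hj; rw [mem_Ico] at hj ⊢; omega
    · intro j hj; rw [mem_Ico] at hj; omega
    · intro j hj; rw [mem_Ico] at hj; omega
    · intro j _; rfl
  rw [← h1]
  refine sum_lt_sum_of_subset h hi hiω ?_ fun _ _ _ => Nat.zero_le _
  rw [mem_Ico] at hi
  omega

lemma sub_full (k : ℕ) : ∑ j ∈ Ico 1 k, (k - j) = AA k := by
  unfold AA
  refine sum_bij' (fun j _ => k - j) (fun j _ => k - j) ?_ ?_ ?_ ?_ ?_
  · intro j hj; rw [mem_Ico] at hj ⊢; omega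
  · intro j hj; rw [mem_Ico] at hj ⊢; omega
  · intro j hj; rw [mem_Ico] at hj; omega
  · intro j hj; rw [mem_Ico] at hj; omega
  · intro j _; rfl

lemma sub_cast {k : ℕ} {ω : Finset ℕ} (h : ω ⊆ Ico 1 k) :
    ((∑ j ∈ ω, (k - j) : ℕ) : ℤ) = k * (ω.card : ℤ) - ((∑ j ∈ ω, j : ℕ) : ℤ) := by
  have h1 : ((∑ j ∈ ω, (k - j) : ℕ) : ℤ) = ∑ j ∈ ω, ((k : ℤ) - j) := by
    push_cast
    refine sum_congr rfl fun j hj => ?_
    have := mem_Ico.1 (h hj)
    push_cast [Nat.cast_sub (show j ≤ k by omega)]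
    ring
  rw [h1, sum_sub_distrib, sum_const, nsmul_eq_mul]
  push_cast
  ring

/-- **The cube of progressions.** -/
theorem cube {g : ℤ → ℝ} (hg : Sg g) {k : ℕ} (hk : 2 ≤ k) {σ ε : ℝ} (hσ : σ = 1 ∨ σ = -1)
    (hε : ε = 1 ∨ ε = -1) (u d t : ℤ)
    (h1 : ∀ a : ℕ, a < AA k → g (u + a * t) = ε) (h1' : g (u + (AA k : ℕ) * t) = -ε)
    (h2 : ∀ b : ℕ, b < AA k → g (u + k * d - b * t) = ε) (h2' : g (u + k * d - (AA k : ℕ) * t) = -ε) :
    ∃ ω ⊆ Ico 1 k, Bad g k σ (d - (ω.card : ℤ) * t) (u + ((∑ j ∈ ω, j : ℕ) : ℤ) * t) := by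
  classical
  by_contra hcon
  push Not at hcon
  -- the value of every product
  have hP : ∀ ω ∈ (Ico 1 k).powerset,
      PR g k (d - (ω.card : ℤ) * t) (u + ((∑ j ∈ ω, j : ℕ) : ℤ) * t) = σ := by
    intro ω hω
    have hω' := mem_powerset.1 hω
    set D := d - (ω.card : ℤ) * t with hD
    set U := u + ((∑ j ∈ ω, j : ℕ) : ℤ) * t with hU
    have hend : U + k * D = u + k * d - ((∑ j ∈ ω, (k - j) : ℕ) : ℤ) * t := by
      rw [hU, hD, sub_cast hω']
      ring
    have heq : g U * g (U + k * D) = 1 := by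
      rw [hend]
      by_cases hfull : ω = Ico 1 k
      · have e1 : ((∑ j ∈ ω, j : ℕ) : ℤ) = (AA k : ℕ) := by rw [hfull]; rfl
        have e2 : ((∑ j ∈ ω, (k - j) : ℕ) : ℤ) = (AA k : ℕ) := by rw [hfull, sub_full]
        rw [hU, e1, e2, h1', h2']
        rcases hε with h | h <;> rw [h] <;> norm_num
      · rw [hU, h1 _ (sum_lt_AA hω' hfull), h2 _ (sub_lt_AA hω' hfull)]
        rcases hε with h | h <;> rw [h] <;> norm_num
    have hm := PR_mul hg k D U
    rw [heq] at hm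
    by_contra hne
    have hv1 : PR g k D U = -σ := by
      rcases PR_val hg k D U with h | h <;> rcases hσ with h' | h' <;> rw [h] at hne ⊢ <;>
        rw [h'] at hne ⊢
      · exact absurd rfl hne
      · norm_num
      · exact absurd rfl hne
    have hv2 : PR g k D (U + D) = -σ := by
      rw [hv1] at hm
      rcases hσ with h' | h' <;> rw [h'] at hm ⊢ <;> linarith
    exact hcon ω hω' ⟨hv1, hv2⟩
  have hL : ∏ ω ∈ (Ico 1 k).powerset,
      PR g k (d - (ω.card : ℤ) * t) (u + ((∑ j ∈ ω, j : ℕ) : ℤ) * t) = 1 := by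
    rw [prod_congr rfl hP, prod_const, card_powerset, Nat.card_Ico]
    obtain ⟨m, hm⟩ : ∃ m, k - 1 = m + 1 := ⟨k - 2, by omega⟩
    rw [hm, pow_succ, pow_mul']
    have : σ ^ 2 = 1 := by rcases hσ with h | h <;> rw [h] <;> norm_num
    rw [this, one_pow]
  -- exchange the products
  have hR : ∏ ω ∈ (Ico 1 k).powerset,
      PR g k (d - (ω.card : ℤ) * t) (u + ((∑ j ∈ ω, j : ℕ) : ℤ) * t)
      = ∏ ω ∈ (Ico 1 k).powerset, g (u + ((∑ j ∈ ω, j : ℕ) : ℤ) * t) := by
    unfold PR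
    rw [prod_comm]
    have hk0 : range k = insert 0 (Ico 1 k) := by
      ext i
      rw [mem_range, mem_insert, mem_Ico]
      omega
    rw [hk0, prod_insert (by rw [mem_Ico]; omega)]
    have h3 : ∏ i ∈ Ico 1 k, ∏ ω ∈ (Ico 1 k).powerset,
        g (u + ((∑ j ∈ ω, j : ℕ) : ℤ) * t + (i : ℤ) * (d - (ω.card : ℤ) * t)) = 1 := by
      refine prod_eq_one fun i hi => prod_toggle hi _ ?_ fun ω => hg _
      intro ω hiω
      congr 1
      rw [sum_insert hiω, card_insert_of_notMem hiω]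
      push_cast
      ring
    rw [h3, mul_one]
    refine prod_congr rfl fun ω _ => ?_
    congr 1
    push_cast
    ring
  -- the product of the starting values
  have hS : ∏ ω ∈ (Ico 1 k).powerset, g (u + ((∑ j ∈ ω, j : ℕ) : ℤ) * t) = -1 := by
    have hmem : Ico 1 k ∈ (Ico 1 k).powerset := mem_powerset_self _
    rw [← mul_prod_erase _ _ hmem]
    have h3 : ∏ ω ∈ (Ico 1 k).powerset.erase (Ico 1 k), g (u + ((∑ j ∈ ω, j : ℕ) : ℤ) * t) = ε := by
      have h4 : ∀ ω ∈ (Ico 1 k).powerset.erase (Ico 1 k),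
          g (u + ((∑ j ∈ ω, j : ℕ) : ℤ) * t) = ε := by
        intro ω hω
        rw [mem_erase, mem_powerset] at hω
        exact h1 _ (sum_lt_AA hω.2 hω.1)
      rw [prod_congr rfl h4, prod_const, card_erase_of_mem hmem, card_powerset, Nat.card_Ico]
      obtain ⟨m, hm⟩ : ∃ m, k - 1 = m + 1 := ⟨k - 2, by omega⟩
      obtain ⟨l, hl⟩ : ∃ l, 2 ^ (k - 1) - 1 = 2 * l + 1 := by
        refine ⟨2 ^ m - 1, ?_⟩
        rw [hm, pow_succ]
        have : 1 ≤ 2 ^ m := Nat.one_le_two_pow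
        omega
      rw [hl, pow_succ, pow_mul]
      have : ε ^ 2 = 1 := by rcases hε with h | h <;> rw [h] <;> norm_num
      rw [this, one_pow, one_mul]
    rw [h3]
    change g (u + (AA k : ℕ) * t) * ε = -1
    rw [h1']
    rcases hε with h | h <;> rw [h] <;> norm_num
  rw [hR, hS] at hL
  norm_num at hL

end Pool.Agent.Helper33.Half
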