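import Mathlib
import Pool.Graph.R_seed8.Y877.Varn

/-!
# Many progressions with a fixed step multiplier in dense sets of integers (helper33)
-/

set_option autoImplicit false

namespace Pool.Agent.Helper33.Half

open Finset Pool.Agent.Y877

/-- Szemerédi–Varnavides for subsets of `(0, H]` -/
lemma sz1 (A : ℕ) {ε : ℝ} (hε : 0 < ε) (hε1 : ε ≤ 1) : ∃ (C : ℕ) (κ : ℝ), 1 ≤ C ∧ 0 < κ ∧ κ ≤ 1 ∧
    ∀ H : ℕ, C ≤ H → ∀ E : Finset ℤ, E ⊆ Ioc 0 (H : ℤ) → ε * H ≤ E.card →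
    κ * (H : ℝ) ^ 2 ≤ ((((Ioc 0 (H : ℤ)) ×ˢ (Icc 1 (H : ℤ))).filter
      (fun p : ℤ × ℤ => ∀ j : ℕ, j ≤ A → p.1 + j * p.2 ∈ E)).card : ℝ) := by
  classical
  obtain ⟨C, κ, hC, hκ, hκ1, h⟩ := varn (Λ := Fin (A + 1)) (ι := Unit) 1
    (fun a _ _ => ((a : ℕ) : ℤ)) 0 (by intro g l; simp) ε hε hε1
  refine ⟨max C (⌈2 / κ⌉₊), κ / 2, le_max_of_le_left hC, by positivity, by linarith, ?_⟩
  intro H hH E hE hEc
  have hCH : C ≤ H := (le_max_left _ _).trans hH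
  have hκH : 2 / κ ≤ H := by
    have h1 := Nat.le_ceil (2 / κ)
    have h2 : ((⌈2 / κ⌉₊ : ℕ) : ℝ) ≤ H := by exact_mod_cast (le_max_right _ _).trans hH
    linarith
  obtain ⟨E', hE'⟩ : ∃ E' : Finset (Fin 1 → ℤ), E' = E.image (fun z => fun _ => z) := ⟨_, rfl⟩
  have hmem : ∀ f : Fin 1 → ℤ, f ∈ E' ↔ f 0 ∈ E := by
    intro f
    rw [hE', mem_image]
    constructor
    · rintro ⟨z, hz, rfl⟩
      exact hz
    · intro hf
      refine ⟨f 0, hf, ?_⟩
      funext l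
      rw [Subsingleton.elim l 0]
  have hcard : E'.card = E.card := by
    rw [hE']
    exact card_image_of_injective _ fun a b hab => congrFun hab 0
  have h1 := h H hCH (fun _ => 0) E' (by
    intro f hf
    rw [Fintype.mem_piFinset]
    intro l
    rw [Subsingleton.elim l 0]
    have := hE ((hmem f).1 hf)
    simpa using this) (by rw [pow_one, hcard]; exact hEc)
  have e1 : Fintype.card Unit = 1 := rfl
  rw [e1] at h1
  obtain ⟨S, hS, hSc⟩ : ∃ S : Finset ((Fin 1 → ℤ) × (Unit → ℕ)), (∀ p ∈ S, p.1 ∈ E' ∧ p.2 () < H ∧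
      ∀ a : Fin (A + 1), p.1 + dsp (fun a _ _ => ((a : ℕ) : ℤ)) a p.2 ∈ E') ∧
      κ * (H : ℝ) ^ (1 + 1) ≤ S.card := by
    refine ⟨_, ?_, h1⟩
    intro p hp
    simp only [mem_filter, mem_product, Fintype.mem_piFinset, mem_range] at hp
    exact ⟨hp.1.1, hp.1.2 (), hp.2⟩
  obtain ⟨P, hP⟩ : ∃ P, P = ((Ioc 0 (H : ℤ)) ×ˢ (Icc 1 (H : ℤ))).filter
      (fun p : ℤ × ℤ => ∀ j : ℕ, j ≤ A → p.1 + j * p.2 ∈ E) := ⟨_, rfl⟩
  rw [← hP]
  have h3 : (P ∪ (Ioc 0 (H : ℤ)) ×ˢ {0}).card ≤ P.card + H := by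
    refine (card_union_le _ _).trans ?_
    rw [card_product, Int.card_Ioc, card_singleton]
    simp
  have h4 : κ * (H : ℝ) ^ (1 + 1) ≤ P.card + H := by
    refine hSc.trans ?_
    have h3' : ((P ∪ (Ioc 0 (H : ℤ)) ×ˢ {0}).card : ℝ) ≤ P.card + H := by exact_mod_cast h3
    refine le_trans ?_ h3'
    rw [Nat.cast_le]
    refine card_le_card_of_injOn (fun p => (p.1 0, ((p.2 ()) : ℤ))) ?_ ?_
    · rintro ⟨f, y⟩ hp
      have hp1 := hS _ (mem_coe.1 hp)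
      obtain ⟨hf, hy', hall⟩ := hp1
      simp only at hf hy' hall
      have hf' := hE ((hmem f).1 hf)
      rw [mem_coe, mem_union]
      by_cases h0 : y () = 0
      · right
        rw [mem_product]
        refine ⟨hf', ?_⟩
        simp [h0]
      · left
        rw [hP, mem_filter, mem_product]
        refine ⟨⟨hf', ?_⟩, ?_⟩
        · rw [mem_Icc]
          show (1 : ℤ) ≤ (y () : ℕ) ∧ ((y () : ℕ) : ℤ) ≤ H
          omega
        · intro j hj
          have h3 := (hmem _).1 (hall ⟨j, by omega⟩)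
          rw [Pi.add_apply] at h3
          simpa [dsp] using h3
    · rintro ⟨f, y⟩ _ ⟨f', y'⟩ _ heq
      simp only [Prod.mk.injEq, Nat.cast_inj] at heq
      have e1 : f = f' := by
        funext l
        rw [Subsingleton.elim l 0]
        exact heq.1
      have e2 : y = y' := by
        funext l
        exact heq.2
      rw [e1, e2]
  have h5 : (H : ℝ) ≤ κ / 2 * (H : ℝ) ^ 2 := by
    rw [div_le_iff₀ hκ] at hκH
    have hH0 : (0 : ℝ) ≤ H := Nat.cast_nonneg _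
    nlinarith
  have h6 : κ * (H : ℝ) ^ (1 + 1) = κ * (H : ℝ) ^ 2 := by norm_num
  linarith

/-- many progressions `m, m + sτ, …, m + A s τ` in dense subsets of `[1, x]` -/
lemma sz2 (A : ℕ) {ε : ℝ} (hε : 0 < ε) (hε1 : ε ≤ 1) : ∃ (C : ℕ) (κ : ℝ), 1 ≤ C ∧ 0 < κ ∧ κ ≤ 1 ∧
    ∀ H s x : ℕ, C ≤ H → 1 ≤ s → s * H ≤ x → ∀ E : Finset ℤ, E ⊆ Icc 1 (x : ℤ) → ε * x ≤ E.card →
    κ * x * H ≤ ((((Icc 1 (x : ℤ)) ×ˢ (Icc 1 (H : ℤ))).filter
      (fun p : ℤ × ℤ => ∀ j : ℕ, j ≤ A → p.1 + j * (s * p.2) ∈ E)).card : ℝ) := by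
  classical
  obtain ⟨C, κ, hC, hκ, hκ1, h⟩ := sz1 A (ε := ε / 4) (by positivity) (by linarith)
  refine ⟨C, κ * (ε / 2), hC, by positivity, by nlinarith, ?_⟩
  intro H s x hCH hs hsx E hE hEc
  have hH1 : 1 ≤ H := hC.trans hCH
  have hHr : (1 : ℝ) ≤ H := by exact_mod_cast hH1
  obtain ⟨Y, hY⟩ : ∃ Y, Y = Icc (1 - (s : ℤ) * H) (x : ℤ) := ⟨_, rfl⟩
  have hYc : (Y.card : ℝ) ≤ 2 * x := by
    rw [hY, Int.card_Icc]
    have : ((x : ℤ) + 1 - (1 - (s : ℤ) * H)).toNat = x + s * H := by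
      have e : (x : ℤ) + 1 - (1 - (s : ℤ) * H) = ((x + s * H : ℕ) : ℤ) := by push_cast; ring
      rw [e, Int.toNat_natCast]
    rw [this]
    push_cast
    have : ((s * H : ℕ) : ℝ) ≤ x := by exact_mod_cast hsx
    push_cast at this
    linarith
  -- the fibres
  obtain ⟨F, hF⟩ : ∃ F : ℤ → Finset ℤ, ∀ m₀, F m₀ = (Ioc 0 (H : ℤ)).filter (fun i => m₀ + s * i ∈ E) :=
    ⟨fun m₀ => (Ioc 0 (H : ℤ)).filter (fun i => m₀ + s * i ∈ E), fun _ => rfl⟩
  have hFsub : ∀ m₀, F m₀ ⊆ Ioc 0 (H : ℤ) := by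
    intro m₀
    rw [hF]
    exact filter_subset _ _
  have hFle : ∀ m₀, ((F m₀).card : ℝ) ≤ H := by
    intro m₀
    have h1 := card_le_card (hFsub m₀)
    rw [Int.card_Ioc] at h1
    have h2 : (F m₀).card ≤ H := by simpa using h1
    exact_mod_cast h2
  have hFsum : ε * x * H ≤ ∑ m₀ ∈ Y, ((F m₀).card : ℝ) := by
    have h1 : ∀ m₀, ((F m₀).card : ℝ) = ∑ i ∈ Ioc 0 (H : ℤ), (if m₀ + s * i ∈ E then (1 : ℝ) else 0) := by
      intro m₀
      rw [hF, sum_boole]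
    simp_rw [h1]
    rw [sum_comm]
    have h2 : ∀ i ∈ Ioc 0 (H : ℤ), ε * x ≤ ∑ m₀ ∈ Y, (if m₀ + s * i ∈ E then (1 : ℝ) else 0) := by
      intro i hi
      refine hEc.trans ?_
      rw [sum_boole]
      rw [Nat.cast_le]
      refine card_le_card_of_injOn (fun e => e - s * i) ?_ ?_
      · intro e he
        rw [mem_coe] at he
        have he' := mem_Icc.1 (hE he)
        rw [mem_Ioc] at hi
        rw [mem_coe, mem_filter, hY, mem_Icc]
        refine ⟨⟨?_, ?_⟩, by simpa using he⟩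
        · show 1 - (s : ℤ) * H ≤ e - s * i
          have : (s : ℤ) * i ≤ s * H := mul_le_mul_of_nonneg_left hi.2 (Nat.cast_nonneg _)
          linarith
        · show e - (s : ℤ) * i ≤ x
          have : (0 : ℤ) ≤ (s : ℤ) * i := mul_nonneg (Nat.cast_nonneg _) hi.1.le
          linarith
      · intro a _ b _ hab
        have : a - s * i = b - s * i := hab
        linarith
    calc ε * x * H = ∑ i ∈ Ioc 0 (H : ℤ), ε * x := by
          rw [sum_const, Int.card_Ioc, nsmul_eq_mul]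
          simp
          ring
      _ ≤ _ := sum_le_sum h2
  -- the good starting points
  obtain ⟨G, hG⟩ : ∃ G, G = Y.filter (fun m₀ => ε / 4 * H ≤ (F m₀).card) := ⟨_, rfl⟩
  have hGc : ε / 2 * x ≤ G.card := by
    have h1 : ∑ m₀ ∈ Y, ((F m₀).card : ℝ) ≤
        ∑ m₀ ∈ Y, ((if ε / 4 * H ≤ (F m₀).card then (H : ℝ) else 0) + ε / 4 * H) := by
      refine sum_le_sum fun m₀ _ => ?_
      split_ifs with h0
      · have := hFle m₀
        have h2 : 0 ≤ ε / 4 * H := by positivity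
        linarith
      · push Not at h0
        linarith
    rw [sum_add_distrib, ← sum_filter, sum_const, sum_const, nsmul_eq_mul, nsmul_eq_mul, ← hG] at h1
    have h2 : (Y.card : ℝ) * (ε / 4 * H) ≤ 2 * x * (ε / 4 * H) :=
      mul_le_mul_of_nonneg_right hYc (by positivity)
    have h3 : ε / 2 * x * H ≤ G.card * H := by nlinarith
    exact le_of_mul_le_mul_right h3 (by linarith)
  -- count
  obtain ⟨P, hP⟩ : ∃ P, P = ((Icc 1 (x : ℤ)) ×ˢ (Icc 1 (H : ℤ))).filter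
      (fun p : ℤ × ℤ => ∀ j : ℕ, j ≤ A → p.1 + j * (s * p.2) ∈ E) := ⟨_, rfl⟩
  rw [← hP]
  obtain ⟨W, hW⟩ : ∃ W : ℤ → Finset (ℤ × ℤ), ∀ m₀, W m₀ = ((Ioc 0 (H : ℤ)) ×ˢ (Icc 1 (H : ℤ))).filter
      (fun p : ℤ × ℤ => ∀ j : ℕ, j ≤ A → p.1 + j * p.2 ∈ F m₀) :=
    ⟨fun m₀ => ((Ioc 0 (H : ℤ)) ×ˢ (Icc 1 (H : ℤ))).filter
      (fun p : ℤ × ℤ => ∀ j : ℕ, j ≤ A → p.1 + j * p.2 ∈ F m₀), fun _ => rfl⟩
  have hlow : ε / 2 * x * (κ * H ^ 2) ≤ ∑ m₀ ∈ G, ((W m₀).card : ℝ) := by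
    have h1 : ∀ m₀ ∈ G, κ * (H : ℝ) ^ 2 ≤ (W m₀).card := by
      intro m₀ hm
      rw [hG, mem_filter] at hm
      rw [hW]
      exact h H hCH (F m₀) (hFsub m₀) hm.2
    have h2 := card_nsmul_le_sum G (fun m₀ => ((W m₀).card : ℝ)) _ h1
    rw [nsmul_eq_mul] at h2
    refine le_trans ?_ h2
    exact mul_le_mul_of_nonneg_right hGc (by positivity)
  have hup : ∑ m₀ ∈ G, ((W m₀).card : ℝ) ≤ H * P.card := by
    have h1 : (∑ m₀ ∈ G, (W m₀).card : ℕ) = (G.sigma W).card := (card_sigma _ _).symm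
    have h2 : (G.sigma W).card ≤ ((Ioc 0 (H : ℤ)) ×ˢ P).card := by
      refine card_le_card_of_injOn (fun w => (w.2.1, (w.1 + s * w.2.1, w.2.2))) ?_ ?_
      · rintro ⟨m₀, z, y⟩ hw
        rw [mem_coe, mem_sigma] at hw
        obtain ⟨-, hw⟩ := hw
        simp only at hw
        rw [hW, mem_filter, mem_product] at hw
        obtain ⟨⟨hz, hy⟩, hall⟩ := hw
        simp only at hz hy hall
        rw [mem_coe, mem_product]
        refine ⟨hz, ?_⟩
        show (m₀ + s * z, y) ∈ P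
        have hall' : ∀ j : ℕ, j ≤ A → m₀ + s * z + j * (s * y) ∈ E := by
          intro j hj
          have h3 := hall j hj
          rw [hF, mem_filter] at h3
          have h4 := h3.2
          have h5 : m₀ + s * z + j * (s * y) = m₀ + s * (z + j * y) := by ring
          rw [h5]
          exact h4
        rw [hP, mem_filter, mem_product]
        refine ⟨⟨?_, hy⟩, hall'⟩
        have h3 := hE (hall' 0 (Nat.zero_le _))
        simpa using h3
      · rintro ⟨m₀, z, y⟩ _ ⟨m₀', z', y'⟩ _ heq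
        simp only [Prod.mk.injEq] at heq
        obtain ⟨rfl, h3, rfl⟩ := heq
        have h4 : m₀ = m₀' := by linarith
        rw [h4]
    rw [card_product, Int.card_Ioc] at h2
    have h3 : (∑ m₀ ∈ G, (W m₀).card : ℕ) ≤ H * P.card := by
      rw [h1]
      simpa using h2
    exact_mod_cast h3
  have h7 : H * (κ * (ε / 2) * x * H) ≤ H * (P.card : ℝ) := by
    calc H * (κ * (ε / 2) * x * H) = ε / 2 * x * (κ * H ^ 2) := by ring
      _ ≤ _ := hlow.trans hup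
  exact le_of_mul_le_mul_left h7 (by linarith)

end Pool.Agent.Helper33.Half
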