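import Mathlib
import Pool.Agent.Helper33.Half.Sz
import Pool.Agent.Helper33.Half.Cube

/-!
# A positive proportion of bad pairs (helper33)

If the two-point correlations of a sequence `g` with values `1`, `-1` at the shifts `k e₁` and
`i k q τ` are small, then among the differences `e₁ + c q τ`, `|c| ≤ M`, a positive proportion of the
products of length `k` and their neighbours are both `-σ`.
-/

set_option autoImplicit false

namespace Pool.Agent.Helper33.Half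

open Finset

/-- two-point correlation -/
noncomputable def TT (g : ℤ → ℝ) (x : ℕ) (h : ℤ) : ℝ := ∑ n ∈ Icc (1 : ℤ) x, g n * g (n + h)

lemma Sg.abs {g : ℤ → ℝ} (hg : Sg g) (m : ℤ) : |g m| = 1 := by
  rcases hg m with h | h <;> rw [h] <;> norm_num

lemma Sg.abs_mul {g : ℤ → ℝ} (hg : Sg g) (m n : ℤ) : |g m * g n| = 1 := by
  rw [_root_.abs_mul, hg.abs, hg.abs, one_mul]

lemma sum_Icc_succ (F : ℤ → ℝ) (x : ℕ) :
    ∑ n ∈ Icc (1 : ℤ) ((x + 1 : ℕ) : ℤ), F n = ∑ n ∈ Icc (1 : ℤ) x, F n + F (x + 1) := by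
  have h : Icc (1 : ℤ) ((x + 1 : ℕ) : ℤ) = insert ((x : ℤ) + 1) (Icc (1 : ℤ) x) := by
    ext n
    rw [mem_insert, mem_Icc, mem_Icc]
    push_cast
    omega
  rw [h, sum_insert (by rw [mem_Icc]; omega), add_comm]

lemma sum_tel (f : ℤ → ℝ) (x : ℕ) :
    ∑ n ∈ Icc (1 : ℤ) x, f (n + 1) - ∑ n ∈ Icc (1 : ℤ) x, f n = f (x + 1) - f 1 := by
  induction x with
  | zero => simp
  | succ x ih =>
    rw [sum_Icc_succ, sum_Icc_succ]
    push_cast
    linarith

lemma shift_one {f : ℤ → ℝ} (hf : ∀ n, |f n| ≤ 1) (x : ℕ) :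
    |∑ n ∈ Icc (1 : ℤ) x, f (n + 1) - ∑ n ∈ Icc (1 : ℤ) x, f n| ≤ 2 := by
  rw [sum_tel]
  have h1 := abs_le.1 (hf (x + 1))
  have h2 := abs_le.1 (hf 1)
  rw [abs_le]
  constructor <;> linarith [h1.1, h1.2, h2.1, h2.2]

lemma shift_nat {f : ℤ → ℝ} (hf : ∀ n, |f n| ≤ 1) (x b : ℕ) :
    |∑ n ∈ Icc (1 : ℤ) x, f (n + b) - ∑ n ∈ Icc (1 : ℤ) x, f n| ≤ 2 * b := by
  induction b with
  | zero => simp
  | succ b ih =>
    have h1 := shift_one (f := fun n => f (n + b)) (fun n => hf _) x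
    have h2 : ∑ n ∈ Icc (1 : ℤ) x, f (n + 1 + b) = ∑ n ∈ Icc (1 : ℤ) x, f (n + (b + 1 : ℕ)) := by
      refine sum_congr rfl fun n _ => ?_
      congr 1
      push_cast
      ring
    rw [h2] at h1
    push_cast at h1 ih ⊢
    have h3 := abs_le.1 h1
    have h4 := abs_le.1 ih
    rw [abs_le]
    constructor <;> linarith [h3.1, h3.2, h4.1, h4.2]

lemma shift_int {f : ℤ → ℝ} (hf : ∀ n, |f n| ≤ 1) (x : ℕ) (b : ℤ) :
    |∑ n ∈ Icc (1 : ℤ) x, f (n + b) - ∑ n ∈ Icc (1 : ℤ) x, f n| ≤ 2 * |(b : ℝ)| := by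
  rcases Int.eq_nat_or_neg b with ⟨c, h | h⟩
  · rw [h]
    have := shift_nat hf x c
    simpa using this
  · have h1 := shift_nat (f := fun n => f (n - c)) (fun n => hf _) x c
    simp only [add_sub_cancel_right] at h1
    rw [h]
    have h2 : |(((-(c : ℤ)) : ℤ) : ℝ)| = c := by
      push_cast
      rw [abs_neg, Nat.abs_cast]
    rw [h2, abs_sub_comm]
    simpa [sub_eq_add_neg] using h1

/-- one pair of indices -/
lemma two_shift {g : ℤ → ℝ} (hg : Sg g) (x : ℕ) (b h : ℤ) :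
    |∑ m ∈ Icc (1 : ℤ) x, g (m + b) * g (m + b + h)| ≤ |TT g x h| + 2 * |(b : ℝ)| := by
  have h1 := shift_int (f := fun n => g n * g (n + h)) (fun n => (hg.abs_mul _ _).le) x b
  have h2 := abs_sub_abs_le_abs_sub (∑ m ∈ Icc (1 : ℤ) x, g (m + b) * g (m + b + h)) (TT g x h)
  unfold TT at h2 ⊢
  linarith

/-- long constant runs are rare -/
lemma longrun {g : ℤ → ℝ} (hg : Sg g) (x J : ℕ) (b t : ℤ) {ε : ℝ} (hε : ε = 1 ∨ ε = -1) :
    ((J : ℝ) + 1) ^ 2 * ((Icc (1 : ℤ) x).filter (fun m => ∀ j : ℕ, j ≤ J → g (m + b + j * t) = ε)).card ≤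
      (J + 1) * x + 2 * (J + 1) * ∑ i ∈ Icc 1 J, |TT g x (i * t)| +
        (J + 1) ^ 2 * (2 * (|(b : ℝ)| + J * |(t : ℝ)|)) := by
  classical
  obtain ⟨U, hU⟩ : ∃ U : ℕ → ℝ, ∀ i, U i = |TT g x (i * t)| := ⟨_, fun _ => rfl⟩
  have hU0 : ∀ i, 0 ≤ U i := fun i => by rw [hU]; exact abs_nonneg _
  obtain ⟨B, hB⟩ : ∃ B : ℝ, B = 2 * (|(b : ℝ)| + J * |(t : ℝ)|) := ⟨_, rfl⟩
  have hJt : (0 : ℝ) ≤ J * |(t : ℝ)| := by positivity
  have hjb : ∀ j : ℕ, j ≤ J → 2 * |((b + j * t : ℤ) : ℝ)| ≤ B := by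
    intro j hj
    rw [hB]
    push_cast
    have h1 := abs_add_le (b : ℝ) (j * t)
    rw [abs_mul, Nat.abs_cast] at h1
    have h2 : (j : ℝ) * |(t : ℝ)| ≤ J * |(t : ℝ)| :=
      mul_le_mul_of_nonneg_right (by exact_mod_cast hj) (abs_nonneg _)
    linarith
  have hsq : ((J : ℝ) + 1) ^ 2 *
      ((Icc (1 : ℤ) x).filter (fun m => ∀ j : ℕ, j ≤ J → g (m + b + j * t) = ε)).card ≤
      ∑ m ∈ Icc (1 : ℤ) x, (∑ j ∈ range (J + 1), g (m + b + j * t)) ^ 2 := by
    rw [← sum_boole, mul_sum]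
    refine sum_le_sum fun m _ => ?_
    split_ifs with h
    · have h1 : ∑ j ∈ range (J + 1), g (m + b + j * t) = (J + 1) * ε := by
        rw [sum_congr rfl fun j hj => h j (by rw [mem_range] at hj; omega), sum_const, card_range,
          nsmul_eq_mul]
        push_cast
        ring
      rw [h1, mul_pow]
      have : ε ^ 2 = 1 := by rcases hε with h | h <;> rw [h] <;> norm_num
      rw [this]
    · rw [mul_zero]
      positivity
  refine hsq.trans ?_
  have hexp : ∑ m ∈ Icc (1 : ℤ) x, (∑ j ∈ range (J + 1), g (m + b + j * t)) ^ 2 =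
      ∑ j ∈ range (J + 1), ∑ j' ∈ range (J + 1),
        ∑ m ∈ Icc (1 : ℤ) x, g (m + b + j * t) * g (m + b + j' * t) := by
    simp_rw [sq, sum_mul_sum]
    rw [sum_comm]
    refine sum_congr rfl fun j _ => ?_
    rw [sum_comm]
  rw [hexp]
  have hpt : ∀ j ∈ range (J + 1), ∀ j' ∈ range (J + 1),
      ∑ m ∈ Icc (1 : ℤ) x, g (m + b + j * t) * g (m + b + j' * t) ≤
      (if j' = j then (x : ℝ) else 0) + (∑ i ∈ Icc 1 J, (if j' = j + i then U i else 0)) +
        (∑ i ∈ Icc 1 J, (if j = j' + i then U i else 0)) + B := by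
    intro j hj j' hj'
    rw [mem_range] at hj hj'
    have hB0 : 0 ≤ B := by rw [hB]; positivity
    have s1 : (0 : ℝ) ≤ ∑ i ∈ Icc 1 J, (if j' = j + i then U i else 0) :=
      sum_nonneg fun i _ => by split_ifs; exacts [hU0 i, le_refl _]
    have s2 : (0 : ℝ) ≤ ∑ i ∈ Icc 1 J, (if j = j' + i then U i else 0) :=
      sum_nonneg fun i _ => by split_ifs; exacts [hU0 i, le_refl _]
    have s0 : (0 : ℝ) ≤ (if j' = j then (x : ℝ) else 0) := by
      split_ifs
      · exact Nat.cast_nonneg _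
      · exact le_refl _
    rcases lt_trichotomy j j' with h | h | h
    · obtain ⟨i, hi⟩ : ∃ i, j' = j + i := ⟨j' - j, by omega⟩
      have h1 := two_shift hg x (b + j * t) (i * t)
      have h2 : ∑ m ∈ Icc (1 : ℤ) x, g (m + b + j * t) * g (m + b + j' * t) =
          ∑ m ∈ Icc (1 : ℤ) x, g (m + (b + j * t)) * g (m + (b + j * t) + i * t) := by
        refine sum_congr rfl fun m _ => ?_
        rw [hi]
        congr 2 <;> push_cast <;> ring
      have h3 : U i ≤ ∑ i ∈ Icc 1 J, (if j' = j + i then U i else 0) := by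
        have := single_le_sum (f := fun i => if j' = j + i then U i else 0)
          (fun i _ => by split_ifs; exacts [hU0 i, le_refl _])
          (show i ∈ Icc 1 J by rw [mem_Icc]; omega)
        rwa [if_pos hi] at this
      have h4 := hjb j (by omega)
      rw [h2]
      have h5 := le_abs_self (∑ m ∈ Icc (1 : ℤ) x, g (m + (b + j * t)) * g (m + (b + j * t) + i * t))
      rw [← hU] at h1
      linarith
    · rw [if_pos h.symm]
      have h2 : ∑ m ∈ Icc (1 : ℤ) x, g (m + b + j * t) * g (m + b + j' * t) = x := by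
        rw [h]
        rw [sum_congr rfl fun m _ => hg.sq _, sum_const, Int.card_Icc, nsmul_eq_mul, mul_one]
        simp
      rw [h2]
      linarith
    · obtain ⟨i, hi⟩ : ∃ i, j = j' + i := ⟨j - j', by omega⟩
      have h1 := two_shift hg x (b + j' * t) (i * t)
      have h2 : ∑ m ∈ Icc (1 : ℤ) x, g (m + b + j * t) * g (m + b + j' * t) =
          ∑ m ∈ Icc (1 : ℤ) x, g (m + (b + j' * t)) * g (m + (b + j' * t) + i * t) := by
        refine sum_congr rfl fun m _ => ?_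
        rw [hi, mul_comm]
        congr 2 <;> push_cast <;> ring
      have h3 : U i ≤ ∑ i ∈ Icc 1 J, (if j = j' + i then U i else 0) := by
        have := single_le_sum (f := fun i => if j = j' + i then U i else 0)
          (fun i _ => by split_ifs; exacts [hU0 i, le_refl _])
          (show i ∈ Icc 1 J by rw [mem_Icc]; omega)
        rwa [if_pos hi] at this
      have h4 := hjb j' (by omega)
      rw [h2]
      have h5 := le_abs_self (∑ m ∈ Icc (1 : ℤ) x, g (m + (b + j' * t)) * g (m + (b + j' * t) + i * t))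
      rw [← hU] at h1
      linarith
  have hrow : ∀ j ∈ range (J + 1), ∑ j' ∈ range (J + 1),
      ∑ m ∈ Icc (1 : ℤ) x, g (m + b + j * t) * g (m + b + j' * t) ≤
      x + 2 * ∑ i ∈ Icc 1 J, U i + (J + 1) * B := by
    intro j hj
    refine (sum_le_sum fun j' hj' => hpt j hj j' hj').trans ?_
    rw [sum_add_distrib, sum_add_distrib, sum_add_distrib, sum_const, card_range, nsmul_eq_mul]
    have r0 : ∑ j' ∈ range (J + 1), (if j' = j then (x : ℝ) else 0) = x := by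
      rw [sum_ite_eq' (range (J + 1)) j, if_pos hj]
    have r1 : ∑ j' ∈ range (J + 1), ∑ i ∈ Icc 1 J, (if j' = j + i then U i else 0) ≤
        ∑ i ∈ Icc 1 J, U i := by
      rw [sum_comm]
      refine sum_le_sum fun i _ => ?_
      rw [sum_ite_eq' (range (J + 1)) (j + i) (fun _ => U i)]
      split_ifs
      · exact le_refl _
      · exact hU0 i
    have r2 : ∑ j' ∈ range (J + 1), ∑ i ∈ Icc 1 J, (if j = j' + i then U i else 0) ≤
        ∑ i ∈ Icc 1 J, U i := by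
      rw [sum_comm]
      refine sum_le_sum fun i _ => ?_
      rw [← sum_filter, sum_const, nsmul_eq_mul]
      have : ((range (J + 1)).filter (fun j' => j = j' + i)).card ≤ 1 := by
        rw [card_le_one]
        intro a ha b hb
        rw [mem_filter] at ha hb
        omega
      have h1 : (((range (J + 1)).filter (fun j' => j = j' + i)).card : ℝ) ≤ 1 := by
        exact_mod_cast this
      nlinarith [hU0 i]
    push_cast
    linarith
  refine (sum_le_sum hrow).trans ?_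
  rw [sum_const, card_range, nsmul_eq_mul, ← hB]
  simp_rw [hU]
  push_cast
  nlinarith

/-- the configuration around a point -/
lemma point {g : ℤ → ℝ} (hg : Sg g) {k : ℕ} (hk : 2 ≤ k) (J : ℕ) {σ ε : ℝ} (hσ : σ = 1 ∨ σ = -1)
    (hε : ε = 1 ∨ ε = -1) (m e₁ s : ℤ)
    (hrunL : ∀ j : ℕ, j ≤ AA k → g (m + j * (k * s)) = ε)
    (hrunR : ∀ j : ℕ, j ≤ AA k → g (m + j * (k * s) + k * e₁) = ε)
    (hL : ¬ ∀ j : ℕ, j ≤ J → g (m + 0 + j * (k * s)) = ε)
    (hR : ¬ ∀ j : ℕ, j ≤ J → g (m + (k * e₁ - J * (k * s)) + j * (k * s)) = ε) :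
    ∃ c ∈ Icc (-((2 * AA k + 2 * J + k ^ 2 : ℕ) : ℤ)) ((2 * AA k + 2 * J + k ^ 2 : ℕ) : ℤ),
      ∃ e ∈ range (J + 1), Bad g k σ (e₁ + c * s) (m + (e : ℕ) * (k * s)) := by
  classical
  push Not at hL hR
  have hex1 : ∃ j : ℕ, g (m + j * (k * s)) ≠ ε := by
    obtain ⟨j, -, hj⟩ := hL
    refine ⟨j, ?_⟩
    rwa [add_zero] at hj
  have hex0 : ∃ j : ℕ, g (m + k * e₁ - j * (k * s)) ≠ ε := by
    obtain ⟨j, hjJ, hj⟩ := hR
    refine ⟨J - j, ?_⟩
    have h1 : m + k * e₁ - ((J - j : ℕ) : ℤ) * (k * s) =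
        m + (k * e₁ - J * (k * s)) + j * (k * s) := by
      push_cast [Nat.cast_sub hjJ]
      ring
    rwa [h1]
  obtain ⟨j₁, hj₁, hmin₁⟩ : ∃ j₁ : ℕ, g (m + j₁ * (k * s)) ≠ ε ∧
      ∀ j < j₁, g (m + (j : ℕ) * (k * s)) = ε :=
    ⟨Nat.find hex1, Nat.find_spec hex1, fun j hj => not_not.1 (Nat.find_min hex1 hj)⟩
  obtain ⟨j₀, hj₀, hmin₀⟩ : ∃ j₀ : ℕ, g (m + k * e₁ - j₀ * (k * s)) ≠ ε ∧
      ∀ j < j₀, g (m + k * e₁ - (j : ℕ) * (k * s)) = ε :=
    ⟨Nat.find hex0, Nat.find_spec hex0, fun j hj => not_not.1 (Nat.find_min hex0 hj)⟩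
  have hj₁J : j₁ ≤ J := by
    by_contra hcon
    obtain ⟨j, hjJ, hj⟩ := hL
    rw [add_zero] at hj
    exact hj (hmin₁ j (by omega))
  have hj₀J : j₀ ≤ J := by
    by_contra hcon
    obtain ⟨j, hjJ, hj⟩ := hR
    apply hj
    have h1 := hmin₀ (J - j) (by omega)
    have h2 : m + k * e₁ - ((J - j : ℕ) : ℤ) * (k * s) =
        m + (k * e₁ - J * (k * s)) + j * (k * s) := by
      push_cast [Nat.cast_sub hjJ]
      ring
    rwa [h2] at h1
  have hAj₁ : AA k < j₁ := by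
    by_contra hcon
    exact hj₁ (hrunL j₁ (by omega))
  have hne : ∀ m, g m ≠ ε → g m = -ε := by
    intro m hm
    rcases hg m with h | h <;> rcases hε with h' | h' <;> rw [h, h'] at hm <;> rw [h, h'] <;>
      first | exact absurd rfl hm | norm_num
  have q1 : ∀ a : ℕ, a < AA k → g (m + (j₁ - AA k) * (k * s) + a * (k * s)) = ε := by
    intro a ha
    have h1 := hmin₁ (j₁ - AA k + a) (by omega)
    have h2 : m + ((j₁ - AA k + a : ℕ) : ℤ) * (k * s) = m + (j₁ - AA k) * (k * s) + a * (k * s) := by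
      push_cast [Nat.cast_sub hAj₁.le]
      ring
    rwa [h2] at h1
  have q2 : g (m + (j₁ - AA k) * (k * s) + (AA k : ℕ) * (k * s)) = -ε := by
    have h1 := hne _ hj₁
    have h2 : m + (j₁ - AA k) * (k * s) + (AA k : ℕ) * (k * s) = m + j₁ * (k * s) := by ring
    rw [h2]
    exact h1
  have q3 : ∀ b : ℕ, b < AA k → g (m + (j₁ - AA k) * (k * s) + k * (e₁ + (2 * AA k - j₀ - j₁) * s) - b * (k * s)) = ε := by
    intro b hb
    have h3 : m + (j₁ - AA k) * (k * s) + k * (e₁ + (2 * AA k - j₀ - j₁) * s) - b * (k * s) =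
        m + k * e₁ + (AA k - j₀ - b) * (k * s) := by ring
    rw [h3]
    by_cases h : j₀ + b ≤ AA k
    · have h1 := hrunR (AA k - j₀ - b) (by omega)
      have h2 : m + ((AA k - j₀ - b : ℕ) : ℤ) * (k * s) + k * e₁ =
          m + k * e₁ + (AA k - j₀ - b) * (k * s) := by
        have : ((AA k - j₀ - b : ℕ) : ℤ) = AA k - j₀ - b := by omega
        rw [this]
        ring
      rwa [h2] at h1
    · have h1 := hmin₀ (j₀ + b - AA k) (by omega)
      have h2 : m + k * e₁ - ((j₀ + b - AA k : ℕ) : ℤ) * (k * s) =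
          m + k * e₁ + (AA k - j₀ - b) * (k * s) := by
        have : ((j₀ + b - AA k : ℕ) : ℤ) = j₀ + b - AA k := by omega
        rw [this]
        ring
      rwa [h2] at h1
  have q4 : g (m + (j₁ - AA k) * (k * s) + k * (e₁ + (2 * AA k - j₀ - j₁) * s) - (AA k : ℕ) * (k * s)) = -ε := by
    have h1 := hne _ hj₀
    have h2 : m + (j₁ - AA k) * (k * s) + k * (e₁ + (2 * AA k - j₀ - j₁) * s) -
        (AA k : ℕ) * (k * s) = m + k * e₁ - j₀ * (k * s) := by ring
    rw [h2]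
    exact h1
  obtain ⟨ω, hω, hbad⟩ := cube hg hk hσ hε (m + (j₁ - AA k) * (k * s))
    (e₁ + (2 * AA k - j₀ - j₁) * s) (k * s) q1 q2 q3 q4
  · have hcard : ω.card ≤ k := by
      have := card_le_card hω
      rw [Nat.card_Ico] at this
      omega
    have hsum : ∑ j ∈ ω, j ≤ AA k := by
      unfold AA
      exact sum_le_sum_of_subset hω
    refine ⟨2 * AA k - j₀ - j₁ - k * ω.card, ?_, j₁ - AA k + ∑ j ∈ ω, j, ?_, ?_⟩
    · rw [mem_Icc]
      have h1 : (k : ℤ) * ω.card ≤ k * k :=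
        mul_le_mul_of_nonneg_left (by exact_mod_cast hcard) (Nat.cast_nonneg _)
      have h2 : (0 : ℤ) ≤ (k : ℤ) * ω.card := by positivity
      push_cast
      have h3 : (k : ℤ) ^ 2 = k * k := sq _
      have h4 : ((j₁ : ℕ) : ℤ) ≤ J := by exact_mod_cast hj₁J
      have h5 : ((j₀ : ℕ) : ℤ) ≤ J := by exact_mod_cast hj₀J
      have h6 : (0 : ℤ) ≤ (j₁ : ℤ) := Nat.cast_nonneg _
      have h7 : (0 : ℤ) ≤ (j₀ : ℤ) := Nat.cast_nonneg _
      have h8 : (0 : ℤ) ≤ (AA k : ℤ) := Nat.cast_nonneg _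
      constructor <;> linarith
    · rw [mem_range]
      omega
    · have e1 : e₁ + (2 * AA k - j₀ - j₁ - k * ω.card) * s =
          e₁ + (2 * AA k - j₀ - j₁) * s - ω.card * (k * s) := by ring
      have e2 : m + ((j₁ - AA k + ∑ j ∈ ω, j : ℕ) : ℤ) * (k * s) =
          m + (j₁ - AA k) * (k * s) + ((∑ j ∈ ω, j : ℕ) : ℤ) * (k * s) := by
        push_cast [Nat.cast_sub hAj₁.le]
        ring
      rw [e1, e2]
      exact hbad

lemma card_shift (p : ℤ → Prop) [DecidablePred p] (x b : ℕ) :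
    ((Icc (1 : ℤ) x).filter (fun m => p (m + b))).card ≤ ((Icc (1 : ℤ) x).filter p).card + b := by
  classical
  have h1 : ((Icc (1 : ℤ) x).filter (fun m => p (m + b))).card ≤
      ((Icc (1 : ℤ) x).filter p ∪ Ioc (x : ℤ) (x + b)).card := by
    refine card_le_card_of_injOn (fun m => m + b) ?_ ?_
    · intro m hm
      rw [mem_coe, mem_filter, mem_Icc] at hm
      rw [mem_coe, mem_union, mem_filter, mem_Icc, mem_Ioc]
      show (1 ≤ m + b ∧ m + b ≤ x) ∧ p (m + b) ∨ (x : ℤ) < m + b ∧ m + b ≤ x + b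
      by_cases h : m + b ≤ x
      · left
        exact ⟨⟨by omega, h⟩, hm.2⟩
      · right
        omega
    · intro a _ b' _ h
      have : a + (b : ℤ) = b' + b := h
      linarith
  refine h1.trans ((card_union_le _ _).trans ?_)
  rw [Int.card_Ioc]
  have : ((x : ℤ) + b - x).toNat = b := by
    rw [add_sub_cancel_left]
    exact Int.toNat_natCast b
  rw [this]

/-- half of the points have equal values at `n` and `n + h`, with a fixed sign -/
lemma same_sign {g : ℤ → ℝ} (hg : Sg g) (x : ℕ) (h : ℤ) (hT : |TT g x h| ≤ x / 10) :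
    ∃ ε : ℝ, (ε = 1 ∨ ε = -1) ∧
      1 / 5 * (x : ℝ) ≤ ((Icc (1 : ℤ) x).filter (fun n => g n = ε ∧ g (n + h) = ε)).card := by
  classical
  have h1 : TT g x h = 2 * ((Icc (1 : ℤ) x).filter (fun n => g n = 1 ∧ g (n + h) = 1)).card +
      2 * ((Icc (1 : ℤ) x).filter (fun n => g n = -1 ∧ g (n + h) = -1)).card - x := by
    have h2 : (x : ℝ) = ∑ n ∈ Icc (1 : ℤ) x, (1 : ℝ) := by
      rw [sum_const, Int.card_Icc]
      simp
    rw [h2, ← sum_boole, ← sum_boole, mul_sum, mul_sum, ← sum_add_distrib, ← sum_sub_distrib]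
    unfold TT
    refine sum_congr rfl fun n _ => ?_
    rcases hg n with a | a <;> rcases hg (n + h) with b | b <;> rw [a, b] <;> norm_num
  have h3 := (abs_le.1 hT).1
  by_contra hcon
  push Not at hcon
  have h4 := hcon 1 (Or.inl rfl)
  have h5 := hcon (-1) (Or.inr rfl)
  have hx : (0 : ℝ) ≤ x := Nat.cast_nonneg _
  linarith

open Classical in
/-- **Counting lemma.** -/
theorem count {k : ℕ} (hk : 2 ≤ k) : ∃ (J M W : ℕ) (θ : ℝ), 1 ≤ J ∧ 1 ≤ M ∧ 0 < θ ∧ θ ≤ 1 ∧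
    ∀ g : ℤ → ℝ, Sg g → ∀ σ : ℝ, (σ = 1 ∨ σ = -1) → ∀ q H e₁ x : ℕ, 1 ≤ q → W ≤ H →
    W * (q * H + e₁) ≤ x → |TT g x (k * e₁)| ≤ x / 10 →
    ∑ τ ∈ Icc (1 : ℤ) H, ∑ i ∈ Icc 1 J, |TT g x (i * (k * (q * τ)))| ≤ x * H →
    θ * x * H ≤ ∑ c ∈ Icc (-(M : ℤ)) M, ∑ τ ∈ Icc (1 : ℤ) H,
      (((Icc (1 : ℤ) x).filter (Bad g k σ (e₁ + c * (q * τ)))).card : ℝ) := by
  obtain ⟨C, κ, hC, hκ, hκ1, hsz⟩ := sz2 (AA k) (ε := 1 / 5) (by norm_num) (by norm_num)
  obtain ⟨J, hJ⟩ : ∃ J : ℕ, J = ⌈24 / κ⌉₊ := ⟨_, rfl⟩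
  have hJκ : 24 / κ ≤ J := by rw [hJ]; exact Nat.le_ceil _
  have hJ1 : 1 ≤ J := by
    have h1 : (1 : ℝ) ≤ 24 / κ := by rw [le_div_iff₀ hκ]; linarith
    exact_mod_cast h1.trans hJκ
  have hJr : (1 : ℝ) ≤ J := by exact_mod_cast hJ1
  obtain ⟨M, hM⟩ : ∃ M : ℕ, M = 2 * AA k + 2 * J + k ^ 2 := ⟨_, rfl⟩
  obtain ⟨V, hV⟩ : ∃ V : ℕ, V = 64 * J * k + 8 * (2 * M + 1) * (J + 1) * J * k := ⟨_, rfl⟩
  obtain ⟨W, hW⟩ : ∃ W : ℕ, W = C + k + ⌈V / κ⌉₊ := ⟨_, rfl⟩
  have hWV : V / κ ≤ W := by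
    have h1 := Nat.le_ceil ((V : ℝ) / κ)
    have h2 : ((⌈(V : ℝ) / κ⌉₊ : ℕ) : ℝ) ≤ W := by exact_mod_cast (by omega : ⌈(V : ℝ) / κ⌉₊ ≤ W)
    linarith
  refine ⟨J, M, W, κ / (4 * (J + 1)), hJ1, by omega, by positivity, ?_, ?_⟩
  · rw [div_le_one (by positivity)]
    linarith
  intro g hg σ hσ q H e₁ x hq hWH hx hT hTT
  have hCH : C ≤ H := by omega
  have hH1 : 1 ≤ H := hC.trans hCH
  have hHr : (1 : ℝ) ≤ H := by exact_mod_cast hH1
  have hkr : (2 : ℝ) ≤ k := by exact_mod_cast hk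
  have hqr : (1 : ℝ) ≤ q := by exact_mod_cast hq
  have hx0 : (0 : ℝ) ≤ x := Nat.cast_nonneg _
  -- the basic size condition
  have hVx : V * ((q : ℝ) * H + e₁) ≤ κ * x := by
    have h1 : (W : ℝ) * (q * H + e₁) ≤ x := by exact_mod_cast hx
    have h2 : (V : ℝ) ≤ κ * W := by
      rw [div_le_iff₀ hκ] at hWV
      linarith
    calc V * ((q : ℝ) * H + e₁) ≤ κ * W * (q * H + e₁) :=
          mul_le_mul_of_nonneg_right h2 (by positivity)
      _ = κ * (W * (q * H + e₁)) := by ring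
      _ ≤ κ * x := mul_le_mul_of_nonneg_left h1 hκ.le
  have hkqH : k * q * H ≤ x := by
    have h1 : k * (q * H) ≤ W * (q * H + e₁) := by
      apply Nat.mul_le_mul <;> omega
    calc k * q * H = k * (q * H) := by ring
      _ ≤ x := h1.trans hx
  obtain ⟨ε, hε, hE⟩ := same_sign hg x (k * e₁) hT
  obtain ⟨E, hEdef⟩ : ∃ E, E = (Icc (1 : ℤ) x).filter (fun n => g n = ε ∧ g (n + k * e₁) = ε) :=
    ⟨_, rfl⟩
  rw [← hEdef] at hE
  have hmain := hsz H (k * q) x hCH (by nlinarith) hkqH E (by rw [hEdef]; exact filter_subset _ _) hE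
  -- the events
  obtain ⟨P1, hP1⟩ : ∃ P1 : ℤ → ℤ → Prop, P1 = fun τ m => ∀ j : ℕ, j ≤ AA k →
      m + (j : ℤ) * (((k * q : ℕ) : ℤ) * τ) ∈ E := ⟨_, rfl⟩
  obtain ⟨L1, hL1⟩ : ∃ L1 : ℤ → ℤ → Prop, L1 = fun τ m => ∀ j : ℕ, j ≤ J →
      g (m + 0 + j * (k * (q * τ))) = ε := ⟨_, rfl⟩
  obtain ⟨L2, hL2⟩ : ∃ L2 : ℤ → ℤ → Prop, L2 = fun τ m => ∀ j : ℕ, j ≤ J →
      g (m + (k * e₁ - J * (k * (q * τ))) + j * (k * (q * τ))) = ε := ⟨_, rfl⟩
  obtain ⟨R, hR⟩ : ∃ R : ℤ → ℤ → ℤ → ℕ → Prop, R = fun τ m c e =>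
      Bad g k σ (e₁ + c * (q * τ)) (m + ((k * (q * τ)).toNat * e : ℕ)) := ⟨_, rfl⟩
  have hlow : κ * x * H ≤ ∑ τ ∈ Icc (1 : ℤ) H, (((Icc (1 : ℤ) x).filter (P1 τ)).card : ℝ) := by
    refine hmain.trans (le_of_eq ?_)
    rw [← sum_boole, sum_product, sum_comm]
    refine sum_congr rfl fun τ _ => ?_
    rw [← sum_boole, hP1]
    refine sum_congr rfl fun m _ => ?_
    by_cases h : ∀ j : ℕ, j ≤ AA k → m + (j : ℤ) * (((k * q : ℕ) : ℤ) * τ) ∈ E
    · exact (if_pos h).trans (if_pos h).symm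
    · exact (if_neg h).trans (if_neg h).symm
  have hpoint : ∀ τ ∈ Icc (1 : ℤ) H, ∀ m : ℤ, (if P1 τ m then (1 : ℝ) else 0) ≤
      (if L1 τ m then (1 : ℝ) else 0) + (if L2 τ m then (1 : ℝ) else 0) +
      ∑ c ∈ Icc (-(M : ℤ)) M, ∑ e ∈ range (J + 1), (if R τ m c e then (1 : ℝ) else 0) := by
    intro τ hτ m
    have hτ1 := (mem_Icc.1 hτ).1
    have s0 : ∀ c ∈ Icc (-(M : ℤ)) M,
        (0 : ℝ) ≤ ∑ e ∈ range (J + 1), (if R τ m c e then (1 : ℝ) else 0) := fun c _ =>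
      sum_nonneg fun e _ => by split_ifs <;> norm_num
    have s1 := sum_nonneg s0
    by_cases h : P1 τ m
    · rw [if_pos h]
      by_cases h1 : L1 τ m
      · rw [if_pos h1]
        have : (0 : ℝ) ≤ (if L2 τ m then (1 : ℝ) else 0) := by split_ifs <;> norm_num
        linarith
      · by_cases h2 : L2 τ m
        · rw [if_pos h2]
          have : (0 : ℝ) ≤ (if L1 τ m then (1 : ℝ) else 0) := by split_ifs <;> norm_num
          linarith
        · rw [if_neg h1, if_neg h2]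
          have hrun : ∀ j : ℕ, j ≤ AA k → g (m + j * (k * (q * τ))) = ε ∧
              g (m + j * (k * (q * τ)) + k * e₁) = ε := by
            intro j hj
            have h3 : m + j * ((k * q : ℕ) * τ) ∈ E := by
              rw [hP1] at h
              exact h j hj
            rw [hEdef, mem_filter] at h3
            have h4 : m + j * (((k * q : ℕ) : ℤ) * τ) = m + j * (k * (q * τ)) := by
              push_cast
              ring
            rw [h4] at h3
            exact h3.2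
          rw [hL1] at h1
          rw [hL2] at h2
          obtain ⟨c, hc, e, he, hb⟩ := point hg hk J hσ hε m e₁ (q * τ) (fun j hj => (hrun j hj).1)
            (fun j hj => (hrun j hj).2) h1 h2
          rw [← hM] at hc
          have h5 : R τ m c e := by
            rw [hR]
            have h6 : m + (((k * (q * τ)).toNat * e : ℕ) : ℤ) = m + (e : ℕ) * (k * (q * τ)) := by
              push_cast
              rw [Int.toNat_of_nonneg (by positivity)]
              ring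
            show Bad g k σ (e₁ + c * (q * τ)) (m + (((k * (q * τ)).toNat * e : ℕ) : ℤ))
            rw [h6]
            exact hb
          have h7 : (1 : ℝ) ≤ ∑ e ∈ range (J + 1), (if R τ m c e then (1 : ℝ) else 0) := by
            have := single_le_sum (s := range (J + 1)) (f := fun e : ℕ => if R τ m c e then (1 : ℝ) else 0)
              (fun e _ => by split_ifs <;> norm_num) he
            simpa [if_pos h5] using this
          have h8 := single_le_sum s0 hc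
          linarith
    · rw [if_neg h]
      have t1 : (0 : ℝ) ≤ (if L1 τ m then (1 : ℝ) else 0) := by split_ifs <;> norm_num
      have t2 : (0 : ℝ) ≤ (if L2 τ m then (1 : ℝ) else 0) := by split_ifs <;> norm_num
      linarith
  -- long runs
  have hlr : ∀ (b : ℤ → ℤ) (L : ℤ → ℤ → Prop),
      (∀ τ m, L τ m ↔ ∀ j : ℕ, j ≤ J → g (m + b τ + j * (k * (q * τ))) = ε) →
      (∀ τ ∈ Icc (1 : ℤ) H, |(b τ : ℝ)| ≤ k * e₁ + J * (k * (q * H))) →
      ∑ τ ∈ Icc (1 : ℤ) H, (((Icc (1 : ℤ) x).filter (L τ)).card : ℝ) ≤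
      3 / 16 * (κ * x * H) := by
    intro b L hL hb
    have h0 : ∀ τ, ((Icc (1 : ℤ) x).filter (L τ)).card = ((Icc (1 : ℤ) x).filter
        (fun m => ∀ j : ℕ, j ≤ J → g (m + b τ + j * (k * (q * τ))) = ε)).card := by
      intro τ
      congr 1
      ext m
      simp only [mem_filter, hL]
    simp_rw [h0]
    have h1 : ∀ τ ∈ Icc (1 : ℤ) H, (((Icc (1 : ℤ) x).filter
        (fun m => ∀ j : ℕ, j ≤ J → g (m + b τ + j * (k * (q * τ))) = ε)).card : ℝ) ≤
        1 / ((J : ℝ) + 1) * x + 2 / ((J : ℝ) + 1) * ∑ i ∈ Icc 1 J, |TT g x (i * (k * (q * τ)))| +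
        4 * J * k * (q * H + e₁) := by
      intro τ hτ
      have hτ' := mem_Icc.1 hτ
      have h2 := longrun hg x J (b τ) (k * (q * τ)) hε
      have h3 := hb τ hτ
      have h4 : |(((k : ℤ) * (q * τ) : ℤ) : ℝ)| ≤ k * (q * H) := by
        push_cast
        rw [abs_of_nonneg (by
          have : (0 : ℝ) ≤ τ := by exact_mod_cast (by omega : (0 : ℤ) ≤ τ)
          positivity)]
        have : (τ : ℝ) ≤ H := by exact_mod_cast hτ'.2
        gcongr
      have h5 : (J : ℝ) * |(((k : ℤ) * (q * τ) : ℤ) : ℝ)| ≤ J * (k * (q * H)) :=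
        mul_le_mul_of_nonneg_left h4 (Nat.cast_nonneg _)
      have h6 : 2 * (|(b τ : ℝ)| + J * |(((k : ℤ) * (q * τ) : ℤ) : ℝ)|) ≤
          4 * J * k * (q * H + e₁) := by
        have h7 : (k : ℝ) * e₁ ≤ J * (k * e₁) := by
          have : (0 : ℝ) ≤ (k : ℝ) * e₁ := by positivity
          nlinarith
        have h8 : 4 * J * k * ((q : ℝ) * H + e₁) = 4 * (J * (k * (q * H))) + 4 * (J * (k * e₁)) := by
          ring
        have h9 : (0 : ℝ) ≤ J * (k * e₁) := by positivity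
        rw [h8]
        linarith
      have hJp : (0 : ℝ) < ((J : ℝ) + 1) ^ 2 := by positivity
      have h10 : ((J : ℝ) + 1) ^ 2 * (((Icc (1 : ℤ) x).filter
          (fun m => ∀ j : ℕ, j ≤ J → g (m + b τ + j * (k * (q * τ))) = ε)).card : ℝ) ≤
          ((J : ℝ) + 1) ^ 2 * (1 / ((J : ℝ) + 1) * x +
            2 / ((J : ℝ) + 1) * ∑ i ∈ Icc 1 J, |TT g x (i * (k * (q * τ)))| +
            4 * J * k * (q * H + e₁)) := by
        refine h2.trans ?_
        have h11 : ((J : ℝ) + 1) ^ 2 * (2 * (|(b τ : ℝ)| + J * |(((k : ℤ) * (q * τ) : ℤ) : ℝ)|)) ≤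
            ((J : ℝ) + 1) ^ 2 * (4 * J * k * (q * H + e₁)) :=
          mul_le_mul_of_nonneg_left h6 hJp.le
        have h12 : ((J : ℝ) + 1) ^ 2 * (1 / ((J : ℝ) + 1) * x +
            2 / ((J : ℝ) + 1) * ∑ i ∈ Icc 1 J, |TT g x (i * (k * (q * τ)))| +
            4 * J * k * (q * H + e₁)) = (J + 1) * x +
            2 * (J + 1) * ∑ i ∈ Icc 1 J, |TT g x (i * (k * (q * τ)))| +
            ((J : ℝ) + 1) ^ 2 * (4 * J * k * (q * H + e₁)) := by
          field_simp
        rw [h12]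
        linarith
      exact le_of_mul_le_mul_left h10 hJp
    refine (sum_le_sum h1).trans ?_
    rw [sum_add_distrib, sum_add_distrib, sum_const, sum_const, Int.card_Icc, ← mul_sum]
    have h2 : ((H : ℤ) + 1 - 1).toNat = H := by simp
    rw [h2, nsmul_eq_mul, nsmul_eq_mul]
    have h3 : 2 / ((J : ℝ) + 1) * ∑ τ ∈ Icc (1 : ℤ) H, ∑ i ∈ Icc 1 J, |TT g x (i * (k * (q * τ)))| ≤
        2 / ((J : ℝ) + 1) * (x * H) := mul_le_mul_of_nonneg_left hTT (by positivity)
    have h4 : 3 / ((J : ℝ) + 1) ≤ κ / 8 := by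
      rw [div_le_div_iff₀ (by positivity) (by norm_num)]
      rw [div_le_iff₀ hκ] at hJκ
      nlinarith
    have h5 : 64 * (J * k * ((q : ℝ) * H + e₁)) ≤ κ * x := by
      refine le_trans ?_ hVx
      have h6 : (64 * J * k : ℝ) ≤ V := by
        rw [hV]
        push_cast
        have : (0 : ℝ) ≤ 8 * (2 * M + 1) * (J + 1) * J * k := by positivity
        linarith
      have h7 : (0 : ℝ) ≤ (q : ℝ) * H + e₁ := by positivity
      nlinarith
    have h8 : (H : ℝ) * (1 / ((J : ℝ) + 1) * x) + 2 / ((J : ℝ) + 1) * (x * H) =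
        3 / ((J : ℝ) + 1) * (x * H) := by ring
    have h9 : 3 / ((J : ℝ) + 1) * (x * H) ≤ κ / 8 * (x * H) :=
      mul_le_mul_of_nonneg_right h4 (by positivity)
    have h10 : (H : ℝ) * (4 * J * k * (q * H + e₁)) ≤ H * (κ * x / 16) := by
      apply mul_le_mul_of_nonneg_left _ (Nat.cast_nonneg _)
      linarith
    linarith
  have hl1 : ∑ τ ∈ Icc (1 : ℤ) H, (((Icc (1 : ℤ) x).filter (L1 τ)).card : ℝ) ≤
      3 / 16 * (κ * x * H) := by
    refine hlr (fun _ => 0) L1 (fun τ m => by rw [hL1]) (fun τ _ => ?_)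
    simp only [Int.cast_zero, abs_zero]
    positivity
  have hl2 : ∑ τ ∈ Icc (1 : ℤ) H, (((Icc (1 : ℤ) x).filter (L2 τ)).card : ℝ) ≤
      3 / 16 * (κ * x * H) := by
    refine hlr (fun τ => k * e₁ - J * (k * (q * τ))) L2 (fun τ m => by rw [hL2]) (fun τ hτ => ?_)
    have hτ' := mem_Icc.1 hτ
    have t0 : (0 : ℝ) ≤ τ := by exact_mod_cast (by omega : (0 : ℤ) ≤ τ)
    have t1 : (τ : ℝ) ≤ H := by exact_mod_cast hτ'.2
    push_cast
    refine (abs_sub _ _).trans ?_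
    rw [abs_of_nonneg (by positivity), abs_of_nonneg (by positivity)]
    gcongr
  -- the main bound
  have hb : ∀ τ ∈ Icc (1 : ℤ) H, ∀ c : ℤ, ∀ e ∈ range (J + 1),
      ((((Icc (1 : ℤ) x).filter (fun m => R τ m c e)).card : ℝ)) ≤
      (((Icc (1 : ℤ) x).filter (Bad g k σ (e₁ + c * (q * τ)))).card : ℝ) + J * (k * (q * H)) := by
    intro τ hτ c e he
    have hτ' := mem_Icc.1 hτ
    have t0 : (0 : ℝ) ≤ τ := by exact_mod_cast (by omega : (0 : ℤ) ≤ τ)
    have t1 : (τ : ℝ) ≤ H := by exact_mod_cast hτ'.2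
    rw [mem_range] at he
    have he' : (e : ℝ) ≤ J := by exact_mod_cast (by omega : e ≤ J)
    have h1 := card_shift (Bad g k σ (e₁ + c * (q * τ))) x ((k * (q * τ)).toNat * e)
    have h2 : (((k * (q * τ)).toNat * e : ℕ) : ℝ) ≤ J * (k * (q * H)) := by
      push_cast
      have h3 : (((k * (q * τ)).toNat : ℕ) : ℝ) = k * (q * τ) := by
        have h4 : (((k * (q * τ)).toNat : ℕ) : ℤ) = k * (q * τ) :=
          Int.toNat_of_nonneg (by
            have : (0 : ℤ) ≤ τ := by omega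
            positivity)
        exact_mod_cast h4
      rw [h3, mul_comm]
      gcongr
    rw [hR]
    refine le_trans ?_ (add_le_add_right h2 _)
    exact_mod_cast h1
  have hup : ∑ τ ∈ Icc (1 : ℤ) H, (((Icc (1 : ℤ) x).filter (P1 τ)).card : ℝ) ≤
      3 / 16 * (κ * x * H) + 3 / 16 * (κ * x * H) +
      ∑ c ∈ Icc (-(M : ℤ)) M, ∑ τ ∈ Icc (1 : ℤ) H, ((J : ℝ) + 1) *
        ((((Icc (1 : ℤ) x).filter (Bad g k σ (e₁ + c * (q * τ)))).card : ℝ) +
          J * (k * (q * H))) := by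
    have h1 : ∀ τ ∈ Icc (1 : ℤ) H, (((Icc (1 : ℤ) x).filter (P1 τ)).card : ℝ) ≤
        (((Icc (1 : ℤ) x).filter (L1 τ)).card : ℝ) + (((Icc (1 : ℤ) x).filter (L2 τ)).card : ℝ) +
        ∑ c ∈ Icc (-(M : ℤ)) M, ((J : ℝ) + 1) *
        ((((Icc (1 : ℤ) x).filter (Bad g k σ (e₁ + c * (q * τ)))).card : ℝ) +
          J * (k * (q * H))) := by
      intro τ hτ
      rw [← sum_boole]
      refine (sum_le_sum fun m _ => hpoint τ hτ m).trans ?_
      rw [sum_add_distrib, sum_add_distrib, sum_boole, sum_boole, sum_comm]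
      refine add_le_add_right ?_ _
      refine sum_le_sum fun c _ => ?_
      rw [sum_comm]
      have h2 : ∀ e ∈ range (J + 1), ∑ m ∈ Icc (1 : ℤ) x, (if R τ m c e then (1 : ℝ) else 0) ≤
          (((Icc (1 : ℤ) x).filter (Bad g k σ (e₁ + c * (q * τ)))).card : ℝ) +
            J * (k * (q * H)) := by
        intro e he
        rw [sum_boole]
        exact hb τ hτ c e he
      refine (sum_le_sum h2).trans ?_
      rw [sum_const, card_range, nsmul_eq_mul]
      push_cast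
      exact le_refl _
    refine (sum_le_sum h1).trans ?_
    rw [sum_add_distrib, sum_add_distrib]
    rw [sum_comm (s := Icc (1 : ℤ) H) (t := Icc (-(M : ℤ)) M)]
    exact add_le_add_left (add_le_add hl1 hl2) _
  have hfin := hlow.trans hup
  simp_rw [mul_add, sum_add_distrib] at hfin
  rw [sum_const, sum_const, Int.card_Icc, Int.card_Icc] at hfin
  have c1 : ((H : ℤ) + 1 - 1).toNat = H := by simp
  have c2 : ((M : ℤ) + 1 - -(M : ℤ)).toNat = 2 * M + 1 := by omega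
  rw [c1, c2, nsmul_eq_mul, nsmul_eq_mul] at hfin
  simp_rw [← mul_sum] at hfin
  obtain ⟨S, hS⟩ : ∃ S : ℝ, S = ∑ c ∈ Icc (-(M : ℤ)) M, ∑ τ ∈ Icc (1 : ℤ) H,
      (((Icc (1 : ℤ) x).filter (Bad g k σ (e₁ + c * (q * τ)))).card : ℝ) := ⟨_, rfl⟩
  rw [← hS] at hfin ⊢
  have herr : ((2 * M + 1 : ℕ) : ℝ) * ((H : ℝ) * (((J : ℝ) + 1) * (J * (k * (q * H))))) ≤
      κ * x * H / 8 := by
    have h6 : (8 * (2 * M + 1) * (J + 1) * J * k : ℝ) ≤ V := by
      rw [hV]
      push_cast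
      have : (0 : ℝ) ≤ 64 * J * k := by positivity
      linarith
    have h7 : (8 * (2 * M + 1) * (J + 1) * J * k : ℝ) * (q * H) ≤ κ * x := by
      refine le_trans ?_ hVx
      have h8 : (0 : ℝ) ≤ (q : ℝ) * H := by positivity
      have h9 : (0 : ℝ) ≤ (e₁ : ℝ) := Nat.cast_nonneg _
      have h10 : (0 : ℝ) ≤ (V : ℝ) * e₁ := by positivity
      nlinarith
    have h11 : (8 * (2 * M + 1) * (J + 1) * J * k : ℝ) * (q * H) * H ≤ κ * x * H :=
      mul_le_mul_of_nonneg_right h7 (Nat.cast_nonneg _)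
    push_cast
    linarith
  have hxH : (0 : ℝ) ≤ κ * x * H := by positivity
  have h20 : κ * x * H / 2 ≤ ((J : ℝ) + 1) * S := by linarith
  rw [div_mul_eq_mul_div, div_mul_eq_mul_div, div_le_iff₀ (by positivity)]
  linarith

end Pool.Agent.Helper33.Half
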