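import Pool.Graph.R_pool_sql_team_seeded_63374d34.N781.S.All
import Pool.Graph.R_pool_sql_team_seeded_63374d34.N781.P.All
import Pool.Graph.R_pool_sql_team_seeded_63374d34.N767.QP.Trw
import Pool.Agent.Helper33.Half.Count

/-!
# Nearby prime dilates have nearly the same correlation (helper33)

By the structure theorem (library) the correlations `C(d) = ∑_{n ≤ x} λ(n) λ(n+rd) ⋯ λ(n+(k-1)rd)` at
`d` and `d + Q h` are close for most `d ≤ D`. The difference of the two is itself a correlation of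
bounded functions, so by the transference theorem (library) this also holds for most primes `d`.
-/

set_option autoImplicit false

namespace Pool.Agent.Helper33.Half

open Finset Pool.Agent.N675 Pool.Agent.N781.A Pool.Agent.N781.P Pool.Agent.N781.FV
open Pool.Agent.N675.Q (om S_TRW)

/-- the correlation of `g` along the difference `d` -/
noncomputable def CC (g : ℤ → ℝ) (k x : ℕ) (d : ℤ) : ℝ := ∑ n ∈ Icc (1 : ℤ) x, PR g k d n

/-- the Liouville function on the integers -/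
noncomputable def lamI (m : ℤ) : ℝ := (-1 : ℝ) ^ ArithmeticFunction.cardFactors m.natAbs

lemma lamI_sg : Sg lamI := by
  intro m
  unfold lamI
  exact neg_one_pow_eq_or ℝ _

/-- the Liouville function as a complex function -/
noncomputable def lamC (n : ℕ) : ℂ := (-1 : ℂ) ^ ArithmeticFunction.cardFactors n

lemma lamC_mult : IsMult lamC := by
  refine ⟨fun n => ?_, fun m n hmn => ?_⟩
  · unfold lamC
    rw [norm_pow, norm_neg, norm_one, one_pow]
  · unfold lamC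
    by_cases hm : m = 0
    · subst hm
      rw [Nat.coprime_zero_left] at hmn
      subst hmn
      simp
    · by_cases hn : n = 0
      · subst hn
        rw [Nat.coprime_zero_right] at hmn
        subst hmn
        simp
      · rw [ArithmeticFunction.cardFactors_mul hm hn, pow_add]

lemma lamC_eq (m : ℤ) : lamC m.natAbs = ((lamI m : ℝ) : ℂ) := by
  unfold lamC lamI
  push_cast
  rfl

lemma prod_fin_range {k : ℕ} (f : ℕ → ℂ) : ∏ i : Fin k, f i = ∏ i ∈ range k, f i :=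
  Fin.prod_univ_eq_prod_range f k

lemma cs_CC (k r : ℕ) (x : ℕ) (d : ℤ) :
    cs (fun _ : Fin k => (1 : ℤ)) (fun i : Fin k => ((r * (i : ℕ) : ℕ) : ℤ)) (fun _ => lamC) x d =
      ((CC lamI k x (r * d) : ℝ) : ℂ) := by
  unfold cs CC PR
  push_cast
  refine sum_congr rfl fun n _ => ?_
  rw [← prod_fin_range (fun i => ((lamI (n + i * (r * d)) : ℝ) : ℂ))]
  refine prod_congr rfl fun i _ => ?_
  rw [lamC_eq]
  congr 2
  ring

/-- the functions on two regions -/
noncomputable def FF (k r x G s : ℕ) (i : Fin k) (m : ℤ) : ℂ :=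
  (if (i : ℕ) = 0 then (if m ≤ x then 1 else if m ≤ x + G then 0 else -1) else 1) *
    (if m ≤ x + G then ((lamI m : ℝ) : ℂ) else
      ((lamI (m - (x + G) + ((i : ℕ) : ℤ) * (r * s)) : ℝ) : ℂ))

lemma lamI_norm (m : ℤ) : ‖((lamI m : ℝ) : ℂ)‖ = 1 := by
  rw [Complex.norm_real, Real.norm_eq_abs, lamI_sg.abs]

lemma FF_norm (k r x G s : ℕ) (i : Fin k) (m : ℤ) : ‖FF k r x G s i m‖ ≤ 1 := by
  unfold FF
  rw [norm_mul]
  have h1 : ‖(if (i : ℕ) = 0 then (if m ≤ x then (1 : ℂ) else if m ≤ x + G then 0 else -1) else 1)‖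
      ≤ 1 := by
    split_ifs <;> simp
  have h2 : ‖(if m ≤ x + G then ((lamI m : ℝ) : ℂ) else
      ((lamI (m - (x + G) + ((i : ℕ) : ℤ) * (r * s)) : ℝ) : ℂ))‖ ≤ 1 := by
    split_ifs
    · exact (lamI_norm _).le
    · exact (lamI_norm _).le
  calc _ ≤ (1 : ℝ) * 1 := mul_le_mul h1 h2 (norm_nonneg _) zero_le_one
    _ = 1 := one_mul 1

lemma chi_prod {k : ℕ} (hk : 0 < k) (c : ℂ) :
    ∏ i : Fin k, (if (i : ℕ) = 0 then c else 1) = c := by
  rw [Fintype.prod_eq_single (⟨0, hk⟩ : Fin k)]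
  · simp
  · intro j hj
    rw [if_neg]
    intro h
    apply hj
    ext
    exact h

lemma FF_low {k r x G s : ℕ} (i : Fin k) {m : ℤ} (hm : m ≤ x + G) :
    FF k r x G s i m = (if (i : ℕ) = 0 then (if m ≤ x then 1 else 0) else 1) *
      ((lamI m : ℝ) : ℂ) := by
  unfold FF
  simp only [hm, if_true]

lemma FF_high {k r x G s : ℕ} (i : Fin k) {m : ℤ} (hm : (x : ℤ) + G < m) :
    FF k r x G s i m = (if (i : ℕ) = 0 then -1 else 1) *
      ((lamI (m - (x + G) + ((i : ℕ) : ℤ) * (r * s)) : ℝ) : ℂ) := by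
  unfold FF
  have h1 : ¬ m ≤ x + G := not_le.2 hm
  have h2 : ¬ m ≤ x := by omega
  simp only [h1, h2, if_false]

/-- the difference of two correlations is a correlation -/
lemma cc_FF {k : ℕ} (hk : 0 < k) (r x G s : ℕ) {D : ℕ} (hG : k * (r * D) ≤ G) {d : ℤ} (hd0 : 1 ≤ d)
    (hdD : d ≤ D) :
    cc (fun _ : Fin k => (1 : ℤ)) (fun i : Fin k => ((r * (i : ℕ) : ℕ) : ℤ)) (FF k r x G s)
      (2 * x + G) d = (((CC lamI k x (r * d) - CC lamI k x (r * (d + s))) / ((2 * x + G : ℕ) : ℝ) : ℝ) : ℂ) := by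
  unfold cc av
  push_cast
  congr 1
  have hsplit : Icc (1 : ℤ) (2 * x + G) =
      (Icc (1 : ℤ) x ∪ Ioc (x : ℤ) (x + G)) ∪ Ioc ((x : ℤ) + G) (2 * x + G) := by
    ext n
    simp only [mem_union, mem_Icc, mem_Ioc]
    omega
  have hd1 : Disjoint (Icc (1 : ℤ) x) (Ioc (x : ℤ) (x + G)) := by
    rw [disjoint_left]
    intro n hn hn'
    rw [mem_Icc] at hn
    rw [mem_Ioc] at hn'
    omega
  have hd2 : Disjoint (Icc (1 : ℤ) x ∪ Ioc (x : ℤ) (x + G)) (Ioc ((x : ℤ) + G) (2 * x + G)) := by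
    rw [disjoint_left]
    intro n hn hn'
    rw [mem_union, mem_Icc, mem_Ioc] at hn
    rw [mem_Ioc] at hn'
    omega
  have hrid : ∀ i : Fin k, 0 ≤ ((r * (i : ℕ) : ℕ) : ℤ) * d ∧ ((r * (i : ℕ) : ℕ) : ℤ) * d ≤ G := by
    intro i
    refine ⟨by positivity, ?_⟩
    have h1 : (((r * (i : ℕ)) : ℕ) : ℤ) ≤ ((r * k : ℕ) : ℤ) := by
      exact_mod_cast Nat.mul_le_mul_left r i.2.le
    have h2 : ((r * k : ℕ) : ℤ) * D ≤ G := by
      have : r * k * D ≤ G := by
        calc r * k * D = k * (r * D) := by ring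
          _ ≤ G := hG
      exact_mod_cast this
    calc ((r * (i : ℕ) : ℕ) : ℤ) * d ≤ ((r * k : ℕ) : ℤ) * d :=
          mul_le_mul_of_nonneg_right h1 (by omega)
      _ ≤ ((r * k : ℕ) : ℤ) * D := mul_le_mul_of_nonneg_left hdD (Nat.cast_nonneg _)
      _ ≤ G := h2
  rw [hsplit, sum_union hd2, sum_union hd1]
  -- first region
  have e1 : ∑ n ∈ Icc (1 : ℤ) x, ∏ i : Fin k, FF k r x G s i (1 * n + ((r : ℤ) * ((i : ℕ) : ℤ)) * d) =
      ((CC lamI k x (r * d) : ℝ) : ℂ) := by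
    unfold CC PR
    push_cast
    refine sum_congr rfl fun n hn => ?_
    rw [mem_Icc] at hn
    rw [← prod_fin_range (fun i => ((lamI (n + i * (r * d)) : ℝ) : ℂ))]
    have h1 : ∀ i : Fin k, FF k r x G s i (1 * n + ((r : ℤ) * ((i : ℕ) : ℤ)) * d) =
        (if (i : ℕ) = 0 then 1 else 1) * ((lamI (n + (i : ℕ) * (r * d)) : ℝ) : ℂ) := by
      intro i
      have h2 := hrid i
      push_cast at h2
      rw [FF_low i (by omega : 1 * n + ((r : ℤ) * ((i : ℕ) : ℤ)) * d ≤ x + G)]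
      have h3 : 1 * n + ((r : ℤ) * ((i : ℕ) : ℤ)) * d = n + (i : ℕ) * (r * d) := by ring
      rw [h3]
      congr 1
      by_cases hi : (i : ℕ) = 0
      · rw [if_pos hi, if_pos hi, hi, if_pos (by push_cast; omega)]
      · rw [if_neg hi, if_neg hi]
    rw [prod_congr rfl fun i _ => h1 i]
    simp
  -- the gap
  have e2 : ∑ n ∈ Ioc (x : ℤ) (x + G),
      ∏ i : Fin k, FF k r x G s i (1 * n + ((r : ℤ) * ((i : ℕ) : ℤ)) * d) = 0 := by
    refine sum_eq_zero fun n hn => ?_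
    rw [mem_Ioc] at hn
    refine prod_eq_zero (mem_univ (⟨0, hk⟩ : Fin k)) ?_
    unfold FF
    simp only
    rw [if_pos trivial, if_neg (by push_cast; omega), if_pos (by push_cast; omega), zero_mul]
  -- second region
  have e3 : ∑ n ∈ Ioc ((x : ℤ) + G) (2 * x + G),
      ∏ i : Fin k, FF k r x G s i (1 * n + ((r : ℤ) * ((i : ℕ) : ℤ)) * d) =
      - ((CC lamI k x (r * (d + s)) : ℝ) : ℂ) := by
    have h0 : ∑ n ∈ Ioc ((x : ℤ) + G) (2 * x + G),
        ∏ i : Fin k, FF k r x G s i (1 * n + ((r : ℤ) * ((i : ℕ) : ℤ)) * d) =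
        ∑ n ∈ Icc (1 : ℤ) x,
        ∏ i : Fin k, FF k r x G s i (1 * (n + (x + G)) + ((r : ℤ) * ((i : ℕ) : ℤ)) * d) := by
      refine sum_bij' (fun n _ => n - (x + G)) (fun n _ => n + (x + G)) ?_ ?_ ?_ ?_ ?_
      · intro n hn
        rw [mem_Ioc] at hn
        rw [mem_Icc]
        omega
      · intro n hn
        rw [mem_Icc] at hn
        rw [mem_Ioc]
        omega
      · intro n _
        ring
      · intro n _
        ring
      · intro n _
        rw [sub_add_cancel]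
    rw [h0]
    unfold CC PR
    push_cast
    rw [← sum_neg_distrib]
    refine sum_congr rfl fun n hn => ?_
    rw [mem_Icc] at hn
    rw [← prod_fin_range (fun i => ((lamI (n + i * (r * (d + s))) : ℝ) : ℂ))]
    have h1 : ∀ i : Fin k, FF k r x G s i (1 * (n + (x + G)) + ((r : ℤ) * ((i : ℕ) : ℤ)) * d) =
        (if (i : ℕ) = 0 then -1 else 1) * ((lamI (n + (i : ℕ) * (r * (d + s))) : ℝ) : ℂ) := by
      intro i
      have h2 := hrid i
      push_cast at h2
      rw [FF_high i (by omega : x + G < 1 * (n + (x + G)) + ((r : ℤ) * ((i : ℕ) : ℤ)) * d)]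
      have h3 : 1 * (n + (x + G)) + ((r : ℤ) * ((i : ℕ) : ℤ)) * d - (x + G) + ((i : ℕ) : ℤ) * (r * s) =
        n + (i : ℕ) * (r * (d + s)) := by ring
      rw [h3]
    rw [prod_congr rfl fun i _ => h1 i, prod_mul_distrib, chi_prod hk]
    ring
  rw [e1, e2, e3]
  ring

lemma sum_cast (g : ℤ → ℝ) (D : ℕ) : ∑ d ∈ Icc (1 : ℤ) D, g d = ∑ n ∈ Icc 1 D, g (n : ℤ) := by
  induction D with
  | zero => simp
  | succ D ih =>
    rw [sum_Icc_succ, sum_Icc_succ_top (by omega), ih]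
    push_cast
    rfl

/-- **Closeness at primes.** -/
theorem near {k : ℕ} (hk : 0 < k) (r : ℕ) {ε : ℝ} (hε : 0 < ε) :
    ∃ (Q : ℕ) (δ : ℝ) (K : ℕ), 0 < Q ∧ 0 < δ ∧ ∀ D x : ℕ, K ≤ D → D ≤ x → ∀ h : ℕ,
      ((Q * h : ℕ) : ℝ) ≤ δ * D →
      ∑ p ∈ (Icc 1 D).filter Nat.Prime, Real.log p *
        |CC lamI k x (r * (p + (Q * h : ℕ))) - CC lamI k x (r * p)| ≤ ε * (D * x) := by
  classical
  have hkr0 : (0 : ℝ) < 2 + k * r := by positivity
  obtain ⟨w₀, hw₀, hT1⟩ := Pool.Agent.N767.QP.trw Pool.Agent.N781.P.tr1' Pool.Agent.N441.PM.mert k 1 1 0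
    (fun _ : Fin k => (1 : ℤ)) (fun i : Fin k => ((r * (i : ℕ) : ℕ) : ℤ)) (fun _ : Fin 1 => (1 : ℤ)) hk
    (fun _ => one_ne_zero) (fun _ => one_ne_zero) (1 / 2) (ε / (2 + k * r)) (by norm_num)
    (by positivity)
  obtain ⟨ε', K1, hε', hT⟩ := hT1 w₀ le_rfl
  obtain ⟨Q, δ, K2, hQ, hδ, hS⟩ := Pool.Agent.N781.S.structure_theorem 1 k
    (fun _ : Fin k => (1 : ℤ)) (fun i : Fin k => ((r * (i : ℕ) : ℕ) : ℤ)) hk
    (fun _ => one_ne_zero) ε' hε'
  refine ⟨Q, δ, K1 + K2 + 1, hQ, hδ, ?_⟩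
  intro D x hD hDx h hh
  have h1 := (hS D x (by omega) (by omega) (fun _ => lamC) (fun _ => lamC_mult)).2 h hh
  have hD0 : 0 < D := by omega
  have hx0 : 0 < x := by omega
  have hDr : (0 : ℝ) < D := by exact_mod_cast hD0
  have hxr : (0 : ℝ) < x := by exact_mod_cast hx0
  have hDxr : (D : ℝ) ≤ x := by exact_mod_cast hDx
  obtain ⟨G, hG⟩ : ∃ G, G = k * (r * D) := ⟨_, rfl⟩
  obtain ⟨X, hX⟩ : ∃ X, X = 2 * x + G := ⟨_, rfl⟩
  have hXr : (0 : ℝ) < X := by exact_mod_cast (by omega : 0 < X)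
  have hX2 : 2 * (x : ℝ) ≤ X := by
    rw [hX]
    push_cast
    have : (0 : ℝ) ≤ G := Nat.cast_nonneg _
    linarith
  obtain ⟨Δ, hΔ⟩ : ∃ Δ : ℤ → ℝ, ∀ d, Δ d =
      |CC lamI k x (r * (d + (Q * h : ℕ))) - CC lamI k x (r * d)| := ⟨_, fun _ => rfl⟩
  have hΔ0 : ∀ d, 0 ≤ Δ d := fun d => by rw [hΔ]; exact abs_nonneg _
  have hCC : ∀ d, |CC lamI k x d| ≤ x := by
    intro d
    unfold CC
    refine (abs_sum_le_sum_abs _ _).trans ?_
    have : ∀ n ∈ Icc (1 : ℤ) x, |PR lamI k d n| ≤ 1 := by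
      intro n _
      rcases PR_val lamI_sg k d n with h | h <;> rw [h] <;> norm_num
    refine (sum_le_sum this).trans ?_
    rw [sum_const, Int.card_Icc]
    simp
  have hΔX : ∀ d, Δ d ≤ X := by
    intro d
    rw [hΔ]
    refine (abs_sub _ _).trans ?_
    have := hCC (r * (d + (Q * h : ℕ)))
    have := hCC (r * d)
    linarith
  have hcc : ∀ d ∈ Icc (1 : ℤ) D, ‖cc (fun _ : Fin k => (1 : ℤ))
      (fun i : Fin k => ((r * (i : ℕ) : ℕ) : ℤ)) (FF k r x G (Q * h)) X d‖ = Δ d / X := by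
    intro d hd
    rw [mem_Icc] at hd
    rw [hX, cc_FF hk r x G (Q * h) hG.ge hd.1 hd.2, Complex.norm_real, Real.norm_eq_abs, abs_div,
      ← hX, abs_of_pos hXr, abs_sub_comm, hΔ]
  have hsum : ∑ d ∈ Icc (1 : ℤ) D, Δ d ≤ ε' * (D * x) := by
    refine le_trans (le_of_eq ?_) h1
    refine sum_congr rfl fun d _ => ?_
    rw [cs_CC, cs_CC, ← Complex.ofReal_sub, Complex.norm_real, Real.norm_eq_abs, hΔ]
  have havr : avr D (fun d => ‖cc (fun _ : Fin k => (1 : ℤ))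
      (fun i : Fin k => ((r * (i : ℕ) : ℕ) : ℤ)) (FF k r x G (Q * h)) X d‖ ^ 2) ≤ ε' := by
    unfold avr
    rw [div_le_iff₀ hDr]
    have h2 : ∀ d ∈ Icc (1 : ℤ) D, ‖cc (fun _ : Fin k => (1 : ℤ))
      (fun i : Fin k => ((r * (i : ℕ) : ℕ) : ℤ)) (FF k r x G (Q * h)) X d‖ ^ 2 ≤ Δ d / x := by
      intro d hd
      rw [hcc d hd]
      have h3 : Δ d / X ≤ 1 := (div_le_one hXr).2 (hΔX d)
      have h4 : 0 ≤ Δ d / X := div_nonneg (hΔ0 d) hXr.le
      have h5 : Δ d / X ≤ Δ d / x := div_le_div_of_nonneg_left (hΔ0 d) hxr (by linarith)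
      nlinarith
    refine (sum_le_sum h2).trans ?_
    rw [← sum_div, div_le_iff₀ hxr]
    linarith
  have hmain := hT D X (by omega) (by omega) (fun _ => 0) (fun _ => by simp)
    (fun j j' hjj' => absurd (Subsingleton.elim j j') hjj') (by
      have : ∀ p : ℕ, ¬ ∃ j j' : Fin 1, j ≠ j' ∧ (p : ℤ) ∣ (1 : ℤ) * 0 - 1 * 0 := by
        rintro p ⟨j, j', hjj', -⟩
        exact hjj' (Subsingleton.elim j j')
      rw [filter_false_of_mem (fun p _ => this p), sum_empty]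
      positivity) (FF k r x G (Q * h)) (FF_norm k r x G (Q * h)) havr
  -- lower bound
  have hlow : ∑ p ∈ (Icc 1 D).filter Nat.Prime, Real.log p * (Δ p / X) ≤
      ∑ d ∈ Icc (1 : ℤ) D, (∏ _j : Fin 1, om (1 / 2) D (1 * d + 0)) * ‖cc (fun _ : Fin k => (1 : ℤ))
      (fun i : Fin k => ((r * (i : ℕ) : ℕ) : ℤ)) (FF k r x G (Q * h)) X d‖ := by
    rw [sum_cast, sum_filter]
    refine sum_le_sum fun n hn => ?_
    rw [hcc n (by rw [mem_Icc] at hn ⊢; omega)]
    rw [Fin.prod_univ_one, one_mul, add_zero]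
    have h3 : 0 ≤ Δ n / X := div_nonneg (hΔ0 _) hXr.le
    have hom : ArithmeticFunction.vonMangoldt n ≤ om (1 / 2) D n := by
      unfold om
      rw [Int.natAbs_natCast]
      have : (0 : ℝ) ≤ Real.log D := Real.log_natCast_nonneg D
      split_ifs <;> linarith
    have hΛ : 0 ≤ ArithmeticFunction.vonMangoldt n := ArithmeticFunction.vonMangoldt_nonneg
    split_ifs with hp
    · rw [ArithmeticFunction.vonMangoldt_apply_prime hp] at hom
      exact mul_le_mul_of_nonneg_right hom h3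
    · exact mul_nonneg (hΛ.trans hom) h3
  have h9 := hlow.trans hmain
  have h10 : ∑ p ∈ (Icc 1 D).filter Nat.Prime, Real.log p * (Δ p / X) =
      (∑ p ∈ (Icc 1 D).filter Nat.Prime, Real.log p * Δ p) / X := by
    rw [sum_div]
    exact sum_congr rfl fun p _ => by rw [mul_div_assoc]
  rw [h10, div_le_iff₀ hXr] at h9
  have h11 : (X : ℝ) ≤ (2 + k * r) * x := by
    rw [hX, hG]
    push_cast
    have h12 : (k : ℝ) * (r * D) ≤ k * (r * x) := by gcongr
    linarith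
  calc ∑ p ∈ (Icc 1 D).filter Nat.Prime, Real.log p *
        |CC lamI k x (r * (p + (Q * h : ℕ))) - CC lamI k x (r * p)|
      = ∑ p ∈ (Icc 1 D).filter Nat.Prime, Real.log p * Δ p :=
        sum_congr rfl fun p _ => by rw [hΔ]
    _ ≤ ε / (2 + k * r) * D * X := h9
    _ ≤ ε / (2 + k * r) * D * ((2 + k * r) * x) := by gcongr
    _ = ε * (D * x) := by field_simp

end Pool.Agent.Helper33.Half
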