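import Pool.Graph.R_pool_sql_team_seeded_63374d34.N675.FS.Top
import Pool.Agent.Helper33.Half.Near

/-!
# Entropy decrement for the correlations along progressions (helper33)
-/

set_option autoImplicit false

namespace Pool.Agent.Helper33.Half

open Finset Pool.Agent.N675 Pool.Agent.N781.A
open Pool.Agent.N675.FS (Fp)

lemma lamI_mul {p : ℕ} (hp : p.Prime) {m : ℤ} (hm : m ≠ 0) : lamI ((p : ℤ) * m) = - lamI m := by
  unfold lamI
  rw [Int.natAbs_mul, Int.natAbs_natCast, ArithmeticFunction.cardFactors_mul hp.ne_zero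
    (Int.natAbs_ne_zero.2 hm), ArithmeticFunction.cardFactors_apply_prime hp, pow_add, pow_one]
  ring

lemma box_one (x : ℕ) (f : ℤ → ℝ) :
    ∑ y ∈ Box (fun _ : Fin 1 => x), f (y 0) = ∑ n ∈ Icc (1 : ℤ) x, f n := by
  refine sum_bij' (fun y _ => y 0) (fun n _ => fun _ => n) ?_ ?_ ?_ ?_ ?_
  · intro y hy
    rw [mem_Box] at hy
    exact mem_Icc.2 (hy 0)
  · intro n hn
    rw [mem_Box]
    intro s
    exact mem_Icc.1 hn
  · intro y _
    funext s
    rw [Subsingleton.elim s 0]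
  · intro n _
    rfl
  · intro y _
    rfl

lemma LL_one {k : ℕ} (i : Fin k) (y : Fin 1 → ℤ) : LL (fun (_ : Fin k) (_ : Fin 1) => (1 : ℤ)) i y = y 0 := by
  unfold LL
  rw [Fin.sum_univ_one, one_mul]

/-- **Decoupling.** -/
theorem decouple (k : ℕ) (r : ℕ) {ε : ℝ} (hε : 0 < ε) :
    ∃ C : ℝ, ∀ P : Finset ℕ, (∀ p ∈ P, p.Prime) → ∃ K : ℕ, ∀ x : ℕ, K ≤ x →
      ∑ p ∈ P, (1 / (p : ℝ)) * |CC lamI k x (r * p) / x -
        (-1) ^ k * (CC lamI k (x / p) r / ((x / p : ℕ) : ℝ))| ≤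
        C + ε * ∑ p ∈ P, 1 / (p : ℝ) := by
  classical
  obtain ⟨C, hC⟩ := Pool.Agent.N675.FS.en_all (Fin k) 1 (fun _ _ => (1 : ℤ))
    (fun i : Fin k => ((r * (i : ℕ) : ℕ) : ℤ)) (fun i h => one_ne_zero (congrFun h 0)) ε hε
  refine ⟨C, fun P hP => ?_⟩
  obtain ⟨K, hK⟩ := hC P hP
  refine ⟨K, fun x hx => ?_⟩
  have h1 := hK (fun _ => x) (fun _ => hx) lamI lamI_sg
  refine le_trans (le_of_eq ?_) h1
  refine sum_congr rfl fun p hp => ?_
  congr 2
  have hpp := hP p hp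
  congr 1
  · unfold ER Fp
    rw [Fin.prod_univ_one]
    congr 1
    unfold CC
    rw [← box_one]
    refine sum_congr rfl fun y _ => ?_
    unfold PR
    rw [← Fin.prod_univ_eq_prod_range (fun i => lamI (y 0 + i * (r * p))) k]
    refine prod_congr rfl fun i _ => ?_
    rw [LL_one]
    congr 1
    push_cast
    ring
  · unfold ER
    rw [Fin.prod_univ_one, mul_div_assoc']
    congr 1
    unfold CC
    rw [← box_one, mul_sum]
    refine sum_congr rfl fun y hy => ?_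
    unfold PR
    rw [← Fin.prod_univ_eq_prod_range (fun i => lamI (y 0 + i * r)) k]
    have hy0 := (mem_Box.1 hy) 0
    have h2 : ∀ i : Fin k, lamI ((p : ℤ) * (LL (fun (_ : Fin k) (_ : Fin 1) => (1 : ℤ)) i y +
        ((r * (i : ℕ) : ℕ) : ℤ))) = (-1) * lamI (y 0 + (i : ℕ) * r) := by
      intro i
      rw [LL_one, lamI_mul hpp (by
        have : (0 : ℤ) ≤ ((r * (i : ℕ) : ℕ) : ℤ) := Nat.cast_nonneg _
        omega)]
      rw [neg_one_mul]
      congr 2
      push_cast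
      ring
    have h3 : ∏ i : Fin k, lamI ((p : ℤ) * (LL (fun (_ : Fin k) (_ : Fin 1) => (1 : ℤ)) i y +
        ((r * (i : ℕ) : ℕ) : ℤ))) = (-1) ^ k * ∏ i : Fin k, lamI (y 0 + (i : ℕ) * r) := by
      rw [prod_congr rfl fun i _ => h2 i, prod_mul_distrib, prod_const, card_univ, Fintype.card_fin]
    exact h3.symm

end Pool.Agent.Helper33.Half
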