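import Pool.Graph.R_seed8.Y958.TC.Two
import Pool.Agent.Helper33.Half.Near

/-!
# Two-point correlations on average over the shift, at every scale (helper33)
-/

set_option autoImplicit false

namespace Pool.Agent.Helper33.Half

open Finset
open Pool.Agent.TH823.MRS (ExpoSmall gen Sm nu_eq)
open Pool.Agent.H373R2.T7 (energy exI)
open Pool.Agent.H376R2.MR (lam)

lemma energy_one (x : ℕ) : energy 1 x (fun m => (m : ℤ)) ≤ x := by
  classical
  unfold energy
  refine (card_le_card_of_injOn (t := Icc 1 x) (fun q => q.1 0) ?_ ?_).trans (by simp)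
  · intro q hq
    rw [mem_coe, mem_filter, mem_product, Fintype.mem_piFinset] at hq
    exact hq.1.1 0
  · intro q hq q' hq' h
    rw [mem_coe, mem_filter, Fin.sum_univ_one, Fin.sum_univ_one] at hq hq'
    have h1 : q.1 0 = q'.1 0 := h
    have h2 : q.1 0 = q.2 0 := by
      have : ((q.1 0 : ℕ) : ℤ) = ((q.2 0 : ℕ) : ℤ) := hq.2
      exact_mod_cast this
    have h3 : q'.1 0 = q'.2 0 := by
      have : ((q'.1 0 : ℕ) : ℤ) = ((q'.2 0 : ℕ) : ℤ) := hq'.2
      exact_mod_cast this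
    refine Prod.ext ?_ ?_
    · funext i
      rw [Subsingleton.elim i 0]
      exact h1
    · funext i
      rw [Subsingleton.elim i 0, ← h2, ← h3]
      exact h1

lemma TT_le {g : ℤ → ℝ} (hg : Sg g) (x : ℕ) (h : ℤ) : |TT g x h| ≤ x := by
  unfold TT
  refine (abs_sum_le_sum_abs _ _).trans ?_
  rw [sum_congr rfl fun n _ => hg.abs_mul _ _, sum_const, Int.card_Icc]
  simp

/-- **Averaged two-point correlations at every scale.** -/
theorem TT_avg {ε : ℝ} (hε : 0 < ε) : ∃ H₀ : ℕ, ∀ H x : ℕ, H₀ ≤ H → H ≤ x →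
    ∑ h ∈ Icc 1 H, |TT lamI x h| ≤ ε * (H * x) := by
  classical
  have hE : ExpoSmall (fun n => ((lam n : ℤ) : ℂ)) := Pool.Agent.TH823.MRS.expo_lam
  have hb : ∀ n, ‖((lam n : ℤ) : ℂ)‖ ≤ 1 := by
    intro n
    rw [Complex.norm_intCast]
    exact_mod_cast Pool.Agent.TH823.MRS.lam_bdd n
  obtain ⟨H₀, N₀, h1⟩ := gen (fun n => ((lam n : ℤ) : ℂ)) hb hE 1 1 (ε / 2) (by positivity) 1 1
  refine ⟨H₀ + N₀, fun H x hH hHx => ?_⟩
  have h2 := h1 x H (by omega) (by omega) hHx H (fun m => (m : ℤ)) (by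
    intro m hm
    rw [mem_Icc] at hm
    rw [abs_of_nonneg (by positivity)]
    exact_mod_cast hm.2) (by
    have h3 : (energy 1 H (fun m => (m : ℤ)) : ℝ) ≤ H := by exact_mod_cast energy_one H
    have h4 : (0 : ℝ) ≤ H := Nat.cast_nonneg _
    rw [mul_one, one_mul, sq]
    exact mul_le_mul_of_nonneg_right h3 h4) (fun _ => 1) (fun _ => 0)
    (fun _ n => ((lam n : ℤ) : ℂ)) (fun _ => le_rfl) (fun _ => by positivity) (fun _ n => hb n)
  rw [nu_eq] at h2
  -- good shifts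
  have hgood : ∀ h ∈ Icc 1 H, Sm (fun n => ((lam n : ℤ) : ℂ)) 1 1 x (ε / 2) (fun _ => 1) (fun _ => 0)
      (fun _ n => ((lam n : ℤ) : ℂ)) ((h : ℕ) : ℤ) → |TT lamI x h| ≤ ε / 2 * x := by
    intro h hh hS
    have h3 := hS 0 x (by simp)
    have e1 : ∑ n ∈ Icc 1 x, ((lam n : ℤ) : ℂ) * exI (fun n => ((lam n : ℤ) : ℂ))
        (((1 : ℕ) : ℤ) * n + 0 + ((h : ℕ) : ℤ)) = ((TT lamI x h : ℝ) : ℂ) := by
      unfold TT
      rw [sum_cast, Complex.ofReal_sum]
      refine sum_congr rfl fun n hn => ?_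
      rw [mem_Icc] at hn
      unfold exI
      have h5 : ((1 : ℕ) : ℤ) * n + 0 + ((h : ℕ) : ℤ) = ((n + h : ℕ) : ℤ) := by
        push_cast
        ring
      rw [h5, if_pos (by exact_mod_cast (by omega : 1 ≤ n + h)), Int.toNat_natCast]
      have b1 : ∀ m : ℕ, ((lam m : ℤ) : ℂ) = ((lamI (m : ℤ) : ℝ) : ℂ) := fun m => by
        unfold lam lamI
        rw [Int.natAbs_natCast]
        push_cast
        rfl
      have h6 : ((lam n : ℤ) : ℂ) * ((lam (n + h) : ℤ) : ℂ) =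
          ((lamI (n : ℤ) * lamI ((n : ℤ) + (h : ℤ)) : ℝ) : ℂ) := by
        rw [b1, b1]
        push_cast
        rfl
      exact h6
    have h3' : ‖∑ n ∈ Icc 1 x, ((lam n : ℤ) : ℂ) * exI (fun n => ((lam n : ℤ) : ℂ))
        (((1 : ℕ) : ℤ) * n + 0 + ((h : ℕ) : ℤ))‖ ≤ ε / 2 * x := h3
    rw [e1, Complex.norm_real, Real.norm_eq_abs] at h3'
    exact h3'
  obtain ⟨G, hG⟩ : ∃ G : ℕ → Prop, ∀ h, G h ↔ Sm (fun n => ((lam n : ℤ) : ℂ)) 1 1 x (ε / 2)
      (fun _ => 1) (fun _ => 0) (fun _ n => ((lam n : ℤ) : ℂ)) ((h : ℕ) : ℤ) := ⟨_, fun _ => Iff.rfl⟩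
  have h2' : (((Icc 1 H).filter (fun h => ¬ G h)).card : ℝ) ≤ ε / 2 * H := by
    refine le_trans (le_of_eq ?_) h2
    congr 2
    refine filter_congr fun h _ => ?_
    rw [hG]
  have hx0 : (0 : ℝ) ≤ x := Nat.cast_nonneg _
  have hpt : ∀ h ∈ Icc 1 H, |TT lamI x h| ≤ ε / 2 * x + x * (if ¬ G h then (1 : ℝ) else 0) := by
    intro h hh
    by_cases hS : G h
    · rw [if_neg (not_not.2 hS), mul_zero, add_zero]
      exact hgood h hh ((hG h).1 hS)
    · rw [if_pos hS, mul_one]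
      have := TT_le lamI_sg x h
      have : 0 ≤ ε / 2 * x := by positivity
      linarith
  refine (sum_le_sum hpt).trans ?_
  rw [sum_add_distrib, sum_const, ← mul_sum, sum_boole, Nat.card_Icc, nsmul_eq_mul, Nat.add_sub_cancel]
  have h9 := mul_le_mul_of_nonneg_left h2' hx0
  linarith

end Pool.Agent.Helper33.Half
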