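import Pool.Agent.Helper33.Half.Contra2
import Pool.Agent.Helper33.Half.TTavg

/-!
# Every scale, almost all differences and almost all prime differences (helper33)
-/

set_option autoImplicit false

namespace Pool.Agent.Helper33.Half

open Finset Pool.Agent.N675 Pool.Agent.N781.A Pool.Agent.N781.P Pool.Agent.N781.FV
open Pool.Agent.N675.Q (om S_TRW)

open Classical in
/-- the weights: all the integers, or the primes with weight `log p` -/
noncomputable def ww (b : Bool) (d : ℕ) : ℝ := if b then (if d.Prime then Real.log d else 0) else 1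

lemma ww_nonneg (b : Bool) (d : ℕ) : 0 ≤ ww b d := by
  unfold ww
  have := Real.log_natCast_nonneg d
  split_ifs <;> first | exact this | norm_num

lemma sum_ww_true (D : ℕ) (f : ℕ → ℝ) :
    ∑ d ∈ Icc 1 D, ww true d * f d = ∑ p ∈ (Icc 1 D).filter Nat.Prime, Real.log p * f p := by
  classical
  rw [sum_filter]
  refine sum_congr rfl fun d _ => ?_
  unfold ww
  rw [if_pos rfl]
  by_cases h : d.Prime
  · rw [if_pos h, if_pos h]
  · rw [if_neg h, if_neg h, zero_mul]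

lemma sum_ww_false (D : ℕ) (f : ℕ → ℝ) :
    ∑ d ∈ Icc 1 D, ww false d * f d = ∑ d ∈ Icc 1 D, f d := by
  refine sum_congr rfl fun d _ => ?_
  unfold ww
  rw [if_neg (by simp), one_mul]

/-- closeness for the two weights -/
lemma near_ww {k : ℕ} (hk : 0 < k) (b : Bool) {ε : ℝ} (hε : 0 < ε) :
    ∃ (Q : ℕ) (δ : ℝ) (K : ℕ), 0 < Q ∧ 0 < δ ∧ ∀ D x : ℕ, K ≤ D → D ≤ x → ∀ h : ℕ,
      ((Q * h : ℕ) : ℝ) ≤ δ * D →
      ∑ d ∈ Icc 1 D, ww b d * |CC lamI k x (d + (Q * h : ℕ)) - CC lamI k x d| ≤ ε * (D * x) := by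
  cases b
  · obtain ⟨Q, δ, K2, hQ, hδ, hS⟩ := Pool.Agent.N781.S.structure_theorem 1 k
      (fun _ : Fin k => (1 : ℤ)) (fun i : Fin k => ((1 * (i : ℕ) : ℕ) : ℤ)) hk
      (fun _ => one_ne_zero) ε hε
    refine ⟨Q, δ, K2, hQ, hδ, fun D x hD hDx h hh => ?_⟩
    have h1 := (hS D x hD (by omega) (fun _ => lamC) (fun _ => lamC_mult)).2 h hh
    rw [sum_ww_false]
    refine le_trans (le_of_eq ?_) h1
    rw [sum_cast (fun d => ‖cs (fun _ : Fin k => (1 : ℤ)) (fun i : Fin k => ((1 * (i : ℕ) : ℕ) : ℤ))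
      (fun _ => lamC) x (d + (Q * h : ℕ)) - cs (fun _ : Fin k => (1 : ℤ))
      (fun i : Fin k => ((1 * (i : ℕ) : ℕ) : ℤ)) (fun _ => lamC) x d‖)]
    refine sum_congr rfl fun d _ => ?_
    rw [cs_CC, cs_CC, ← Complex.ofReal_sub, Complex.norm_real, Real.norm_eq_abs, Nat.cast_one,
      one_mul, one_mul]
  · obtain ⟨Q, δ, K, hQ, hδ, hS⟩ := near hk 1 hε
    refine ⟨Q, δ, K, hQ, hδ, fun D x hD hDx h hh => ?_⟩
    rw [sum_ww_true D (fun d => |CC lamI k x (d + (Q * h : ℕ)) - CC lamI k x d|)]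
    have h1 := hS D x hD hDx h hh
    refine le_trans (le_of_eq ?_) h1
    refine sum_congr rfl fun d _ => ?_
    rw [Nat.cast_one, one_mul, one_mul]

/-- two-point correlations at the shifts `k (d + c)` -/
lemma TT_shift {k : ℕ} (hk : 0 < k) {ε : ℝ} (hε : 0 < ε) : ∃ K : ℕ, ∀ D x : ℕ, K ≤ D → K * D ≤ x →
    ∀ c : ℕ, c ≤ D → ∑ d ∈ Icc 1 D, |TT lamI x (k * (d + c))| ≤ ε * (D * x) := by
  obtain ⟨H₀, hH⟩ := TT_avg (ε := ε / (2 * k)) (by positivity)
  refine ⟨H₀ + 2 * k, fun D x hD hDx c hc => ?_⟩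
  have hk1 : (0 : ℝ) < k := by exact_mod_cast hk
  have h1 := hH (2 * k * D) x (by
    have : D ≤ 2 * k * D := Nat.le_mul_of_pos_left _ (by omega)
    omega) (by
    have : 2 * k * D ≤ (H₀ + 2 * k) * D := Nat.mul_le_mul_right _ (by omega)
    omega)
  have h2 : ∑ d ∈ Icc 1 D, |TT lamI x (k * (d + c))| ≤ ∑ h ∈ Icc 1 (2 * k * D), |TT lamI x h| := by
    have h3 : ∑ d ∈ Icc 1 D, |TT lamI x (k * (d + c))| =
        ∑ h ∈ (Icc 1 D).image (fun d => k * (d + c)), |TT lamI x h| := by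
      rw [sum_image]
      · refine sum_congr rfl fun d _ => ?_
        push_cast
        rfl
      · intro a _ b _ hab
        have : a + c = b + c := Nat.eq_of_mul_eq_mul_left hk hab
        omega
    rw [h3]
    refine sum_le_sum_of_subset_of_nonneg ?_ fun _ _ _ => abs_nonneg _
    intro h hh
    rw [mem_image] at hh
    obtain ⟨d, hd, rfl⟩ := hh
    rw [mem_Icc] at hd ⊢
    refine ⟨Nat.mul_pos hk (by omega), ?_⟩
    calc k * (d + c) ≤ k * (D + D) := Nat.mul_le_mul_left _ (by omega)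
      _ = 2 * k * D := by ring
  refine h2.trans (h1.trans (le_of_eq ?_))
  push_cast
  field_simp

/-- the two functions of a shifted two-point correlation -/
noncomputable def F2 (s : ℤ) (i : Fin 2) (m : ℤ) : ℂ :=
  if i = 0 then ((lamI m : ℝ) : ℂ) else ((lamI (m + s) : ℝ) : ℂ)

lemma F2_norm (s : ℤ) (i : Fin 2) (m : ℤ) : ‖F2 s i m‖ ≤ 1 := by
  unfold F2
  split_ifs
  · exact (lamI_norm _).le
  · exact (lamI_norm _).le

lemma cc_F2 (k : ℕ) (s : ℤ) (x : ℕ) (d : ℤ) :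
    cc (fun _ : Fin 2 => (1 : ℤ)) (fun i : Fin 2 => if i = 0 then 0 else (k : ℤ)) (F2 s) x d =
      ((TT lamI x (k * d + s) / x : ℝ) : ℂ) := by
  unfold cc av TT
  push_cast
  congr 1
  refine sum_congr rfl fun n _ => ?_
  rw [Fin.prod_univ_two]
  unfold F2
  have h1 : ¬ (1 : Fin 2) = 0 := by decide
  simp only [if_true, h1, if_false]
  have e1 : 1 * n + 0 * d = n := by ring
  have e2 : 1 * n + (k : ℤ) * d + s = n + (k * d + s) := by ring
  rw [e1, e2]

/-- two-point correlations at the shifts `k (d + c)`, for the two weights -/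
lemma TT_ww {k : ℕ} (hk : 0 < k) (b : Bool) {ε : ℝ} (hε : 0 < ε) :
    ∃ K : ℕ, ∀ D x : ℕ, K ≤ D → K * D ≤ x → ∀ c : ℕ, c ≤ D →
      ∑ d ∈ Icc 1 D, ww b d * |TT lamI x (k * (d + c))| ≤ ε * (D * x) := by
  classical
  cases b
  · obtain ⟨K, hK⟩ := TT_shift hk hε
    refine ⟨K, fun D x hD hDx c hc => ?_⟩
    rw [sum_ww_false D (fun d => |TT lamI x (k * (d + c))|)]
    exact hK D x hD hDx c hc
  · obtain ⟨w₀, hw₀, hT1⟩ := Pool.Agent.N767.QP.trw Pool.Agent.N781.P.tr1' Pool.Agent.N441.PM.mert 2 1 1 0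
      (fun _ : Fin 2 => (1 : ℤ)) (fun i : Fin 2 => if i = 0 then 0 else (k : ℤ))
      (fun _ : Fin 1 => (1 : ℤ)) (by norm_num) (fun _ => one_ne_zero) (fun _ => one_ne_zero)
      (1 / 2) ε (by norm_num) hε
    obtain ⟨ε', K1, hε', hT⟩ := hT1 w₀ le_rfl
    obtain ⟨K2, hK2⟩ := TT_shift hk hε'
    refine ⟨K1 + K2 + 1, fun D x hD hDx c hc => ?_⟩
    have hD0 : 0 < D := by omega
    have hDr : (0 : ℝ) < D := by exact_mod_cast hD0
    have hDx' : D ≤ x := le_trans (Nat.le_mul_of_pos_left _ (by omega)) hDx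
    have hx0 : 0 < x := by omega
    have hxr : (0 : ℝ) < x := by exact_mod_cast hx0
    have h1 := hK2 D x (by omega) (le_trans (Nat.mul_le_mul_right _ (by omega)) hDx) c hc
    have hcc : ∀ d : ℤ, ‖cc (fun _ : Fin 2 => (1 : ℤ)) (fun i : Fin 2 => if i = 0 then 0 else (k : ℤ))
        (F2 (k * c)) x d‖ = |TT lamI x (k * (d + c))| / x := by
      intro d
      rw [cc_F2, Complex.norm_real, Real.norm_eq_abs, abs_div, abs_of_pos hxr]
      congr 3
      ring
    have havr : avr D (fun d => ‖cc (fun _ : Fin 2 => (1 : ℤ))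
        (fun i : Fin 2 => if i = 0 then 0 else (k : ℤ)) (F2 (k * c)) x d‖ ^ 2) ≤ ε' := by
      unfold avr
      rw [div_le_iff₀ hDr]
      have h2 : ∀ d ∈ Icc (1 : ℤ) D, ‖cc (fun _ : Fin 2 => (1 : ℤ))
          (fun i : Fin 2 => if i = 0 then 0 else (k : ℤ)) (F2 (k * c)) x d‖ ^ 2 ≤
          |TT lamI x (k * (d + c))| / x := by
        intro d _
        rw [hcc d]
        have h3 : |TT lamI x (k * (d + c))| / x ≤ 1 := (div_le_one hxr).2 (TT_le lamI_sg x _)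
        have h4 : 0 ≤ |TT lamI x (k * (d + c))| / x := by positivity
        nlinarith
      refine (sum_le_sum h2).trans ?_
      rw [← sum_div, div_le_iff₀ hxr, sum_cast (fun d => |TT lamI x (k * (d + c))|)]
      refine h1.trans (le_of_eq ?_)
      ring
    have hmain := hT D x (by omega) (by omega) (fun _ => 0) (fun _ => by simp)
      (fun j j' hjj' => absurd (Subsingleton.elim j j') hjj') (by
        have : ∀ p : ℕ, ¬ ∃ j j' : Fin 1, j ≠ j' ∧ (p : ℤ) ∣ (1 : ℤ) * 0 - 1 * 0 := by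
          rintro p ⟨j, j', hjj', -⟩
          exact hjj' (Subsingleton.elim j j')
        rw [filter_false_of_mem (fun p _ => this p), sum_empty]
        positivity) (F2 (k * c)) (F2_norm (k * c)) havr
    rw [sum_ww_true D (fun d => |TT lamI x (k * (d + c))|)]
    have hlow : ∑ p ∈ (Icc 1 D).filter Nat.Prime, Real.log p * (|TT lamI x (k * (p + c))| / x) ≤
        ∑ d ∈ Icc (1 : ℤ) D, (∏ _j : Fin 1, om (1 / 2) D (1 * d + 0)) * ‖cc (fun _ : Fin 2 => (1 : ℤ))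
        (fun i : Fin 2 => if i = 0 then 0 else (k : ℤ)) (F2 (k * c)) x d‖ := by
      rw [sum_cast (fun d => (∏ _j : Fin 1, om (1 / 2) D (1 * d + 0)) * ‖cc (fun _ : Fin 2 => (1 : ℤ))
        (fun i : Fin 2 => if i = 0 then 0 else (k : ℤ)) (F2 (k * c)) x d‖), sum_filter]
      refine sum_le_sum fun n hn => ?_
      rw [hcc n]
      rw [Fin.prod_univ_one, one_mul, add_zero]
      have h3 : 0 ≤ |TT lamI x (k * ((n : ℤ) + c))| / x := by positivity
      have hom : ArithmeticFunction.vonMangoldt n ≤ om (1 / 2) D n := by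
        unfold om
        rw [Int.natAbs_natCast]
        have : (0 : ℝ) ≤ Real.log D := Real.log_natCast_nonneg D
        split_ifs <;> linarith
      have hΛ : 0 ≤ ArithmeticFunction.vonMangoldt n := ArithmeticFunction.vonMangoldt_nonneg
      split_ifs with hp
      · rw [ArithmeticFunction.vonMangoldt_apply_prime hp] at hom
        exact mul_le_mul_of_nonneg_right hom h3
      · exact mul_nonneg (hΛ.trans hom) h3
    have h9 := hlow.trans hmain
    have h10 : ∑ p ∈ (Icc 1 D).filter Nat.Prime, Real.log p * (|TT lamI x (k * (p + c))| / x) =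
        (∑ p ∈ (Icc 1 D).filter Nat.Prime, Real.log p * |TT lamI x (k * (p + c))|) / x := by
      rw [sum_div]
      exact sum_congr rfl fun p _ => by rw [mul_div_assoc]
    rw [h10, div_le_iff₀ hxr] at h9
    refine h9.trans (le_of_eq ?_)
    ring

/-- the sum over the cluster of the two-point correlations at the shifts `i k Q τ` -/
lemma TT_steps {k J Q : ℕ} (hk : 0 < k) (hJ : 1 ≤ J) (hQ : 1 ≤ Q) : ∃ H₀ : ℕ, ∀ H x : ℕ, H₀ ≤ H →
    J * (k * (Q * H)) ≤ x →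
    ∑ τ ∈ Icc (1 : ℤ) H, ∑ i ∈ Icc 1 J, |TT lamI x (i * (k * (Q * τ)))| ≤ x * H := by
  have hJr : (1 : ℝ) ≤ J := by exact_mod_cast hJ
  have hQr : (1 : ℝ) ≤ Q := by exact_mod_cast hQ
  have hkr : (0 : ℝ) < k := by exact_mod_cast hk
  obtain ⟨H₀, hH₀⟩ := TT_avg (ε := 1 / (J * (J * (k * Q)))) (by positivity)
  refine ⟨H₀, fun H x hH hx => ?_⟩
  have hge : H ≤ J * (k * (Q * H)) := by
    calc H = 1 * (1 * (1 * H)) := by ring
      _ ≤ J * (k * (Q * H)) := by gcongr; exact hk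
  have h1 := hH₀ (J * (k * (Q * H))) x (hH.trans hge) hx
  rw [sum_comm]
  have h2 : ∀ i ∈ Icc 1 J, ∑ τ ∈ Icc (1 : ℤ) H, |TT lamI x (i * (k * (Q * τ)))| ≤
      1 / (J * (J * (k * Q))) * ((J * (k * (Q * H)) : ℕ) * x) := by
    intro i hi
    rw [mem_Icc] at hi
    refine le_trans ?_ h1
    rw [sum_cast (fun τ => |TT lamI x (i * (k * (Q * τ)))|)]
    have hpos : 0 < i * (k * Q) := Nat.mul_pos hi.1 (Nat.mul_pos hk hQ)
    have h3 : ∑ t ∈ Icc 1 H, |TT lamI x (i * (k * (Q * (t : ℤ))))| =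
        ∑ h ∈ (Icc 1 H).image (fun t => i * (k * Q) * t), |TT lamI x h| := by
      rw [sum_image]
      · refine sum_congr rfl fun t _ => ?_
        congr 2
        push_cast
        ring
      · intro a _ b _ hab
        exact Nat.eq_of_mul_eq_mul_left hpos hab
    rw [h3]
    refine sum_le_sum_of_subset_of_nonneg ?_ fun _ _ _ => abs_nonneg _
    intro h hh
    rw [mem_image] at hh
    obtain ⟨t, ht, rfl⟩ := hh
    rw [mem_Icc] at ht ⊢
    refine ⟨Nat.mul_pos hpos ht.1, ?_⟩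
    calc i * (k * Q) * t ≤ J * (k * Q) * H := by
          gcongr
          · exact hi.2
          · exact ht.2
      _ = J * (k * (Q * H)) := by ring
  refine (sum_le_sum h2).trans ?_
  rw [sum_const, Nat.card_Icc, nsmul_eq_mul, Nat.add_sub_cancel]
  push_cast
  refine le_of_eq ?_
  field_simp

open Classical in
/-- **Every scale.** -/
theorem every {k : ℕ} (hk : 2 ≤ k) : ∃ κ : ℝ, 0 < κ ∧ κ < 1 / 2 ∧ ∀ (b : Bool) (ε : ℝ), 0 < ε →
    ∃ K : ℕ, ∀ D x : ℕ, K ≤ D → K * D ≤ x → ∀ σ : ℝ, (σ = 1 ∨ σ = -1) →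
      ∑ d ∈ Icc 1 D, ww b d * (if (1 / 2 - κ) * x < σ * CC lamI k x d then 1 else 0) ≤ ε * D := by
  have hk0 : 0 < k := by omega
  obtain ⟨J, M, W, κ, hJ, hM, hκ0, hκ2, hcon⟩ := contra2 hk
  refine ⟨κ, hκ0, hκ2, ?_⟩
  intro b ε hε
  have hMr : (1 : ℝ) ≤ M := by exact_mod_cast hM
  obtain ⟨ε₁, hε₁⟩ : ∃ ε₁ : ℝ, ε₁ = ε * κ / 12 := ⟨_, rfl⟩
  have hε₁0 : 0 < ε₁ := by rw [hε₁]; positivity
  obtain ⟨Q, δ, K₁, hQ, hδ, hnear⟩ := near_ww hk0 b hε₁0
  obtain ⟨K₂, hTw⟩ := TT_ww hk0 b hε₁0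
  obtain ⟨H₀, hsteps⟩ := TT_steps (k := k) (J := J) (Q := Q) hk0 hJ hQ
  have hQr : (1 : ℝ) ≤ Q := by exact_mod_cast hQ
  obtain ⟨δ', hδ'⟩ : ∃ δ' : ℝ, δ' = min δ 1 / 2 := ⟨_, rfl⟩
  have hδ'0 : 0 < δ' := by
    rw [hδ']
    have : 0 < min δ 1 := lt_min hδ one_pos
    positivity
  have hδ'1 : 2 * δ' ≤ δ := by
    rw [hδ']
    have := min_le_left δ 1
    linarith
  have hδ'2 : 2 * δ' ≤ 1 := by
    rw [hδ']
    have := min_le_right δ 1
    linarith
  obtain ⟨K₃, hK₃⟩ := exists_nat_ge ((W + H₀ + 1) * (Q * M) / δ')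
  refine ⟨K₁ + K₂ + K₃ + 2 * W + J * k + 1, ?_⟩
  intro D x hD hDx σ hσ
  have hD0 : 0 < D := by omega
  have hDr : (0 : ℝ) < D := by exact_mod_cast hD0
  have hDx' : D ≤ x := le_trans (Nat.le_mul_of_pos_left _ (by omega)) hDx
  have hx0 : 0 < x := by omega
  have hxr : (0 : ℝ) < x := by exact_mod_cast hx0
  obtain ⟨H, hH⟩ : ∃ H : ℕ, H = ⌊δ' * D / (Q * M)⌋₊ := ⟨_, rfl⟩
  have hHW : W + H₀ + 1 ≤ H := by
    rw [hH]
    apply Nat.le_floor
    rw [le_div_iff₀ (by positivity)]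
    rw [div_le_iff₀ hδ'0] at hK₃
    have h1 : (K₃ : ℝ) ≤ D := by exact_mod_cast (by omega : K₃ ≤ D)
    have h2 : (K₃ : ℝ) * δ' ≤ D * δ' := mul_le_mul_of_nonneg_right h1 hδ'0.le
    push_cast
    linarith
  have hHδ : (Q : ℝ) * (M * H) ≤ δ' * D := by
    have h1 : (H : ℝ) ≤ δ' * D / (Q * M) := by
      rw [hH]
      exact Nat.floor_le (by positivity)
    rw [le_div_iff₀ (by positivity)] at h1
    linarith
  have hHr : (0 : ℝ) < H := by exact_mod_cast (by omega : 0 < H)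
  have hQMH : 2 * (Q * (M * H)) ≤ D := by
    have h1 : 2 * ((Q : ℝ) * (M * H)) ≤ D := by nlinarith
    exact_mod_cast h1
  have hQH : Q * H ≤ D := by
    have : Q * H ≤ Q * (M * H) := Nat.mul_le_mul_left _ (Nat.le_mul_of_pos_left _ (by omega))
    omega
  have hst := hsteps H x (by omega) (by
    calc J * (k * (Q * H)) = J * k * (Q * H) := by ring
      _ ≤ J * k * D := Nat.mul_le_mul_left _ hQH
      _ ≤ (K₁ + K₂ + K₃ + 2 * W + J * k + 1) * D := Nat.mul_le_mul_right _ (by omega)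
      _ ≤ x := hDx)
  -- the three error terms
  obtain ⟨T1, hT1⟩ : ∃ T1 : ℕ → ℝ, ∀ d, T1 d = |TT lamI x (k * (d + Q * (M * H)))| :=
    ⟨_, fun _ => rfl⟩
  obtain ⟨N, hN⟩ : ∃ N : ℕ → ℝ, ∀ d, N d = ∑ c ∈ Icc (-(M : ℤ)) M, ∑ τ ∈ Icc (1 : ℤ) H,
      |CC lamI k x (d + Q * (M * H + c * τ)) - CC lamI k x d| := ⟨_, fun _ => rfl⟩
  obtain ⟨T3, hT3⟩ : ∃ T3 : ℕ → ℝ, ∀ d, T3 d = ∑ c ∈ Icc (-(M : ℤ)) M, ∑ τ ∈ Icc (1 : ℤ) H,
      |TT lamI x (k * (d + Q * (M * H + c * τ)))| := ⟨_, fun _ => rfl⟩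
  have hT10 : ∀ d, 0 ≤ T1 d := fun d => by rw [hT1]; exact abs_nonneg _
  have hN0 : ∀ d, 0 ≤ N d := fun d => by
    rw [hN]; exact sum_nonneg fun _ _ => sum_nonneg fun _ _ => abs_nonneg _
  have hT30 : ∀ d, 0 ≤ T3 d := fun d => by
    rw [hT3]; exact sum_nonneg fun _ _ => sum_nonneg fun _ _ => abs_nonneg _
  obtain ⟨B, hB⟩ : ∃ B : ℝ, B = κ * ((2 * M + 1) * H * x) := ⟨_, rfl⟩
  have hB0 : 0 < B := by rw [hB]; positivity
  have hpt : ∀ d ∈ Icc 1 D, ww b d * (if (1 / 2 - κ) * x < σ * CC lamI k x d then 1 else 0) ≤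
      10 / x * (ww b d * T1 d) + 1 / B * (ww b d * N d) + 1 / B * (ww b d * T3 d) := by
    intro d hd
    rw [mem_Icc] at hd
    have hw := ww_nonneg b d
    have a1 : 0 ≤ 10 / x * (ww b d * T1 d) :=
      mul_nonneg (by positivity) (mul_nonneg hw (hT10 d))
    have a2 : 0 ≤ 1 / B * (ww b d * N d) := mul_nonneg (by positivity) (mul_nonneg hw (hN0 d))
    have a3 : 0 ≤ 1 / B * (ww b d * T3 d) := mul_nonneg (by positivity) (mul_nonneg hw (hT30 d))
    by_cases hlow : (1 / 2 - κ) * x < σ * CC lamI k x d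
    · rw [if_pos hlow, mul_one]
      by_cases h1 : T1 d ≤ x / 10
      · by_cases h2 : N d ≤ B
        · by_cases h3 : T3 d ≤ B
          · exfalso
            rw [hT1] at h1
            rw [hN, hB] at h2
            rw [hT3, hB] at h3
            refine hcon lamI lamI_sg σ hσ Q H d x hQ hd.1 (by omega) ?_ h1 hst hlow.le h2 h3
            calc W * (d + Q * H) ≤ W * (D + D) := Nat.mul_le_mul_left _ (by omega)
              _ = 2 * W * D := by ring
              _ ≤ (K₁ + K₂ + K₃ + 2 * W + J * k + 1) * D := Nat.mul_le_mul_right _ (by omega)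
              _ ≤ x := hDx
          · have h4 : ww b d ≤ 1 / B * (ww b d * T3 d) := by
              rw [one_div_mul_eq_div, le_div_iff₀ hB0]
              exact mul_le_mul_of_nonneg_left (not_le.1 h3).le hw
            linarith
        · have h4 : ww b d ≤ 1 / B * (ww b d * N d) := by
            rw [one_div_mul_eq_div, le_div_iff₀ hB0]
            exact mul_le_mul_of_nonneg_left (not_le.1 h2).le hw
          linarith
      · have h4 : ww b d ≤ 10 / x * (ww b d * T1 d) := by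
          rw [div_mul_eq_mul_div, le_div_iff₀ hxr]
          have h5 : (x : ℝ) ≤ 10 * T1 d := by
            have := not_le.1 h1
            linarith
          calc ww b d * x ≤ ww b d * (10 * T1 d) := mul_le_mul_of_nonneg_left h5 hw
            _ = 10 * (ww b d * T1 d) := by ring
        linarith
    · rw [if_neg hlow, mul_zero]
      linarith
  refine (sum_le_sum hpt).trans ?_
  rw [sum_add_distrib, sum_add_distrib, ← mul_sum, ← mul_sum, ← mul_sum]
  have b1 : ∑ d ∈ Icc 1 D, ww b d * T1 d ≤ ε₁ * (D * x) := by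
    have h1 := hTw D x (by omega) (le_trans (Nat.mul_le_mul_right _ (by omega)) hDx)
      (Q * (M * H)) (by omega)
    refine le_trans (le_of_eq ?_) h1
    refine sum_congr rfl fun d _ => ?_
    rw [hT1]
    push_cast
    rfl
  have hm : ∀ c ∈ Icc (-(M : ℤ)) M, ∀ τ ∈ Icc (1 : ℤ) H, ∃ m : ℕ, (M : ℤ) * H + c * τ = m ∧
      m ≤ 2 * (M * H) := by
    intro c hc τ hτ
    rw [mem_Icc] at hc hτ
    have hcτ1 : -((M : ℤ) * H) ≤ c * τ := by nlinarith
    have hcτ2 : c * τ ≤ (M : ℤ) * H := by nlinarith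
    refine ⟨((M : ℤ) * H + c * τ).toNat, by omega, ?_⟩
    have h3 : (((M : ℤ) * H + c * τ).toNat : ℤ) ≤ 2 * (M * H) := by omega
    exact_mod_cast h3
  have n1 : ((H : ℤ) + 1 - 1).toNat = H := by simp
  have n2 : ((M : ℤ) + 1 - -(M : ℤ)).toNat = 2 * M + 1 := by omega
  have b2 : ∑ d ∈ Icc 1 D, ww b d * N d ≤ (2 * M + 1) * H * (ε₁ * (D * x)) := by
    have h10 : ∑ d ∈ Icc 1 D, ww b d * N d = ∑ c ∈ Icc (-(M : ℤ)) M, ∑ τ ∈ Icc (1 : ℤ) H,
        ∑ d ∈ Icc 1 D, ww b d * |CC lamI k x (d + Q * (M * H + c * τ)) - CC lamI k x d| := by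
      simp_rw [hN, mul_sum]
      rw [sum_comm]
      refine sum_congr rfl fun c _ => ?_
      rw [sum_comm]
    rw [h10]
    have h11 : ∀ c ∈ Icc (-(M : ℤ)) M, ∀ τ ∈ Icc (1 : ℤ) H, ∑ d ∈ Icc 1 D, ww b d *
        |CC lamI k x (d + Q * (M * H + c * τ)) - CC lamI k x d| ≤ ε₁ * (D * x) := by
      intro c hc τ hτ
      obtain ⟨m, hm1, hm2⟩ := hm c hc τ hτ
      rw [hm1]
      have h1 := hnear D x (by omega) hDx' m (by
        push_cast
        have h2 : (m : ℝ) ≤ 2 * (M * H) := by exact_mod_cast hm2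
        calc (Q : ℝ) * m ≤ Q * (2 * (M * H)) := by gcongr
          _ = 2 * (Q * (M * H)) := by ring
          _ ≤ 2 * (δ' * D) := by linarith
          _ = (2 * δ') * D := by ring
          _ ≤ δ * D := mul_le_mul_of_nonneg_right hδ'1 hDr.le)
      push_cast at h1
      exact h1
    refine (sum_le_sum fun c hc => sum_le_sum fun τ hτ => h11 c hc τ hτ).trans ?_
    rw [sum_const, sum_const, Int.card_Icc, Int.card_Icc, n1, n2, nsmul_eq_mul, nsmul_eq_mul]
    push_cast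
    linarith
  have b3 : ∑ d ∈ Icc 1 D, ww b d * T3 d ≤ (2 * M + 1) * H * (ε₁ * (D * x)) := by
    have h10 : ∑ d ∈ Icc 1 D, ww b d * T3 d = ∑ c ∈ Icc (-(M : ℤ)) M, ∑ τ ∈ Icc (1 : ℤ) H,
        ∑ d ∈ Icc 1 D, ww b d * |TT lamI x (k * (d + Q * (M * H + c * τ)))| := by
      simp_rw [hT3, mul_sum]
      rw [sum_comm]
      refine sum_congr rfl fun c _ => ?_
      rw [sum_comm]
    rw [h10]
    have h11 : ∀ c ∈ Icc (-(M : ℤ)) M, ∀ τ ∈ Icc (1 : ℤ) H, ∑ d ∈ Icc 1 D, ww b d *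
        |TT lamI x (k * (d + Q * (M * H + c * τ)))| ≤ ε₁ * (D * x) := by
      intro c hc τ hτ
      obtain ⟨m, hm1, hm2⟩ := hm c hc τ hτ
      rw [hm1]
      have h1 := hTw D x (by omega) (le_trans (Nat.mul_le_mul_right _ (by omega)) hDx) (Q * m) (by
        calc Q * m ≤ Q * (2 * (M * H)) := Nat.mul_le_mul_left _ hm2
          _ = 2 * (Q * (M * H)) := by ring
          _ ≤ D := hQMH)
      push_cast at h1
      exact h1
    refine (sum_le_sum fun c hc => sum_le_sum fun τ hτ => h11 c hc τ hτ).trans ?_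
    rw [sum_const, sum_const, Int.card_Icc, Int.card_Icc, n1, n2, nsmul_eq_mul, nsmul_eq_mul]
    push_cast
    linarith
  have c1 : 10 / (x : ℝ) * ∑ d ∈ Icc 1 D, ww b d * T1 d ≤ 10 * ε₁ * D := by
    calc 10 / (x : ℝ) * ∑ d ∈ Icc 1 D, ww b d * T1 d ≤ 10 / (x : ℝ) * (ε₁ * (D * x)) :=
          mul_le_mul_of_nonneg_left b1 (by positivity)
      _ = 10 * ε₁ * D := by field_simp
  have c2 : 1 / B * ∑ d ∈ Icc 1 D, ww b d * N d ≤ ε₁ / κ * D := by
    calc 1 / B * ∑ d ∈ Icc 1 D, ww b d * N d ≤ 1 / B * ((2 * M + 1) * H * (ε₁ * (D * x))) :=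
          mul_le_mul_of_nonneg_left b2 (by positivity)
      _ = ε₁ / κ * D := by rw [hB]; field_simp
  have c3 : 1 / B * ∑ d ∈ Icc 1 D, ww b d * T3 d ≤ ε₁ / κ * D := by
    calc 1 / B * ∑ d ∈ Icc 1 D, ww b d * T3 d ≤ 1 / B * ((2 * M + 1) * H * (ε₁ * (D * x))) :=
          mul_le_mul_of_nonneg_left b3 (by positivity)
      _ = ε₁ / κ * D := by rw [hB]; field_simp
  have e1 : ε₁ / κ = ε / 12 := by
    rw [hε₁]
    field_simp
  have e2 : 10 * ε₁ ≤ ε * (10 / 12) := by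
    rw [hε₁]
    nlinarith
  rw [e1] at c2 c3
  nlinarith

end Pool.Agent.Helper33.Half
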