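import Pool.Graph.R_seed8.Y958.TC.Two
import Pool.Graph.R_seed8.Y958.U.Diag
import Pool.Graph.R_seed8.Y304.U.Avc
import Pool.Graph.R_seed8.Y304.U.Pw
import Pool.Agent.Helper33.Half.Contra
import Pool.Agent.Helper33.Half.Ent

/-!
# Correlations along progressions are rarely close to one half (helper33)
-/

set_option autoImplicit false

namespace Pool.Agent.Helper33.Half

open Finset Filter Topology
open Pool.Agent.Y958.U (LZ LZ_union LZ_bdd LZ_iff LZ_sub diag' QQ)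
open Pool.Agent.TH823.MRS (ExpoSmall FlipAll lam_bdd lam_flip expo_lam)
open Pool.Agent.H376R2.MR (lam)

/-- two-point correlations are small at almost all scales -/
lemma TT_LZ (h : ℕ) (hh : 1 ≤ h) (δ : ℝ) (hδ : 0 < δ) : LZ {N : ℕ | δ * N < |TT lamI N h|} := by
  have h1 := Pool.Agent.Y958.TC.two (Pool.Agent.Y304.U.avc Pool.Agent.Y304.U.pw) lam lam_bdd lam_flip
    expo_lam h hh 1 le_rfl (fun _ => 1) (fun _ => by norm_num) (fun _ => rfl) (δ / 2) (by positivity)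
  have h2 := LZ_union h1 (LZ_bdd {N | N < ⌈4 / δ⌉₊ + 1} _ fun n hn => hn)
  refine LZ_sub ?_ h2
  intro N hN
  by_cases hNK : N < ⌈4 / δ⌉₊ + 1
  · exact Or.inr hNK
  left
  rw [Set.mem_ofPred_eq] at hN ⊢
  have hN1 : 1 ≤ N := by omega
  have hN0 : (0 : ℝ) < N := by exact_mod_cast hN1
  have hNr : 4 / δ ≤ N := (Nat.le_ceil _).trans (Nat.cast_le.2 (by omega))
  rw [div_le_iff₀ hδ] at hNr
  obtain ⟨φ, hφ⟩ : ∃ φ : ℕ → ℝ, φ = fun n => 1 * ((lam n : ℤ) : ℝ) * ((lam (n + h) : ℤ) : ℝ) :=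
    ⟨_, rfl⟩
  have hφ1 : ∀ n, |φ n| ≤ 1 := by
    intro n
    have a1 : |((lam n : ℤ) : ℝ)| ≤ 1 := by exact_mod_cast lam_bdd n
    have a2 : |((lam (n + h) : ℤ) : ℝ)| ≤ 1 := by exact_mod_cast lam_bdd (n + h)
    rw [hφ]
    simp only
    rw [abs_mul, abs_mul, abs_one, one_mul]
    calc |((lam n : ℤ) : ℝ)| * |((lam (n + h) : ℤ) : ℝ)| ≤ 1 * 1 := by
          gcongr
      _ = 1 := by norm_num
  have hT : TT lamI N h = ∑ n ∈ Icc 1 N, φ n := by
    unfold TT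
    rw [sum_cast]
    refine sum_congr rfl fun n _ => ?_
    rw [hφ]
    simp only
    have b1 : ∀ m : ℕ, ((lam m : ℤ) : ℝ) = lamI (m : ℤ) := fun m => by
      unfold lam lamI
      rw [Int.natAbs_natCast]
      push_cast
      rfl
    rw [b1, b1, one_mul]
    push_cast
    rfl
  have hR : ∑ n ∈ range N, φ n = φ 0 + ∑ n ∈ Icc 1 N, φ n - φ N := by
    have e1 : ∑ n ∈ range (N + 1), φ n = φ 0 + ∑ n ∈ Icc 1 N, φ n := by
      rw [range_eq_Ico, sum_eq_sum_Ico_succ_bot (by omega)]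
      congr 1
    rw [sum_range_succ] at e1
    linarith
  unfold Pool.Agent.Y958.TC.Av
  rw [hφ] at hR
  rw [abs_div, abs_of_pos hN0, lt_div_iff₀ hN0, hR, ← hφ, ← hT]
  have c1 := abs_le.1 (hφ1 0)
  have c2 := abs_le.1 (hφ1 N)
  have c3 : |TT lamI N h| ≤ |φ 0 + TT lamI N h - φ N| + 2 := by
    have c4 := abs_le.1 (le_refl |φ 0 + TT lamI N h - φ N|)
    rw [abs_le]
    constructor <;> linarith [c1.1, c1.2, c2.1, c2.2, c4.1, c4.2]
  nlinarith

lemma QQ_inv (i : ℕ) (hi : 1 ≤ i) : ∑ p ∈ QQ i, 1 / (p : ℝ) ≤ 5 * (1 / i) := by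
  have h1 := Pool.Agent.N675.FS.inv_QD i hi
  have h2 : Pool.Agent.TH575.CW.QD i (i + 1) = QQ i := rfl
  rw [h2] at h1
  refine h1.trans ?_
  have h3 := Real.log_two_gt_d9
  have hi0 : (0 : ℝ) < i := by exact_mod_cast hi
  have h4 : 0 < Real.log 2 := by linarith
  rw [mul_one_div, div_le_div_iff₀ (by positivity) hi0]
  nlinarith

lemma QQ_log {i p : ℕ} (hi : 1 ≤ i) (hp : p ∈ QQ i) :
    1 / (i : ℝ) * (Real.log p / 2 ^ i) ≤ 3 * (1 / (p : ℝ)) := by
  unfold QQ at hp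
  rw [mem_filter, mem_Ioc] at hp
  obtain ⟨⟨h1, h2⟩, h3⟩ := hp
  have hi0 : (0 : ℝ) < i := by exact_mod_cast hi
  have hp0 : (0 : ℝ) < p := by exact_mod_cast h3.pos
  have h4 : (p : ℝ) ≤ 2 ^ (i + 1) := by exact_mod_cast h2
  have h5 : Real.log p ≤ (i + 1) * Real.log 2 := by
    calc Real.log p ≤ Real.log (2 ^ (i + 1)) := Real.log_le_log hp0 h4
      _ = (i + 1) * Real.log 2 := by
        rw [Real.log_pow]
        push_cast
        ring
  have h6 : Real.log 2 < 0.6931471808 := Real.log_two_lt_d9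
  have h7 : (1 : ℝ) ≤ i := by exact_mod_cast hi
  have h8 : Real.log p ≤ 1.4 * i := by
    have h9 : 0 < Real.log 2 := Real.log_pos (by norm_num)
    nlinarith
  have h10 : (0 : ℝ) < 2 ^ i := by positivity
  have h14 : 1 / (i : ℝ) * (Real.log p / 2 ^ i) = Real.log p / (i * 2 ^ i) := by
    field_simp
  rw [h14, mul_one_div, div_le_div_iff₀ (by positivity) hp0]
  have h11 : (2 : ℝ) ^ (i + 1) = 2 * 2 ^ i := by ring
  have h12 : Real.log p * p ≤ 1.4 * i * (2 * 2 ^ i) := by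
    rw [h11] at h4
    have h13 : 0 ≤ Real.log p := Real.log_natCast_nonneg p
    gcongr
  nlinarith [mul_pos hi0 h10]

/-- the disjoint union of the prime windows -/
lemma sum_PP (i₀ i₁ : ℕ) (f : ℕ → ℝ) :
    ∑ p ∈ (Ico i₀ i₁).biUnion QQ, f p = ∑ i ∈ Ico i₀ i₁, ∑ p ∈ QQ i, f p := by
  refine sum_biUnion ?_
  intro i _ j _ hij
  rw [Function.onFun, disjoint_left]
  intro p hp hp'
  unfold QQ at hp hp'
  rw [mem_filter, mem_Ioc] at hp hp'
  obtain ⟨⟨a1, a2⟩, -⟩ := hp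
  obtain ⟨⟨b1, b2⟩, -⟩ := hp'
  rcases lt_or_gt_of_ne hij with h | h
  · have : 2 ^ (i + 1) ≤ 2 ^ j := Nat.pow_le_pow_right (by norm_num) (by omega)
    omega
  · have : 2 ^ (j + 1) ≤ 2 ^ i := Nat.pow_le_pow_right (by norm_num) (by omega)
    omega

lemma harm_large (i₀ : ℕ) (T : ℝ) : ∃ i₁ : ℕ, i₀ < i₁ ∧ T < ∑ i ∈ Ico i₀ i₁, (1 : ℝ) / i := by
  have h1 : Tendsto (fun n : ℕ => ∑ i ∈ range n, (1 : ℝ) / i) atTop atTop := by
    have := Real.tendsto_sum_range_one_div_nat_succ_atTop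
    refine tendsto_atTop_mono' atTop ?_ (this.comp (tendsto_sub_atTop_nat 1))
    filter_upwards [eventually_ge_atTop 1] with n hn
    simp only [Function.comp_apply]
    obtain ⟨m, rfl⟩ : ∃ m, n = m + 1 := ⟨n - 1, by omega⟩
    rw [Nat.add_sub_cancel, sum_range_succ' (fun i : ℕ => (1 : ℝ) / i) m]
    simp
  obtain ⟨n, hn⟩ := eventually_atTop.1 (h1.eventually_gt_atTop (T + ∑ i ∈ range i₀, (1 : ℝ) / i))
  refine ⟨max n (i₀ + 1), lt_of_lt_of_le (Nat.lt_succ_self _) (le_max_right _ _), ?_⟩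
  have h2 := hn (max n (i₀ + 1)) (le_max_left _ _)
  have h3 := sum_range_add_sum_Ico (fun i : ℕ => (1 : ℝ) / i) (show i₀ ≤ max n (i₀ + 1) by omega)
  linarith

/-- **Deviations.** -/
theorem dev {k : ℕ} (hk : 2 ≤ k) : ∃ κ₀ : ℝ, 0 < κ₀ ∧ κ₀ < 1 / 2 ∧ ∀ r : ℕ, 1 ≤ r →
    ∀ σ : ℝ, (σ = 1 ∨ σ = -1) → LZ {N : ℕ | (1 / 2 - κ₀) * N < σ * CC lamI k N r} := by
  classical
  obtain ⟨M, W, κ, hM, hκ0, hκ2, hcon⟩ := contra hk
  refine ⟨κ / 2, by positivity, by linarith, ?_⟩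
  intro r hr σ hσ
  by_contra hE
  obtain ⟨E, hEdef⟩ : ∃ E, E = {N : ℕ | (1 / 2 - κ / 2) * N < σ * CC lamI k N r} := ⟨_, rfl⟩
  rw [← hEdef] at hE
  have hMr : (1 : ℝ) ≤ M := by exact_mod_cast hM
  -- the exceptional set for two-point correlations
  obtain ⟨E', hE', hdiag⟩ := diag' (fun h : ℕ => {N : ℕ | 1 ≤ h ∧ κ * N < |TT lamI N h|}) (by
    intro h
    by_cases hh : 1 ≤ h
    · refine LZ_sub ?_ (TT_LZ h hh κ hκ0)
      rintro N ⟨-, hN⟩
      exact hN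
    · refine LZ_sub ?_ Pool.Agent.Y958.U.LZ_empty
      rintro N ⟨h', -⟩
      exact absurd h' hh)
  choose N₀ hN₀ using hdiag
  obtain ⟨ε, hε, I₀, havc⟩ := Pool.Agent.Y304.U.avc Pool.Agent.Y304.U.pw E E' hE hE'
  obtain ⟨Q, δ, K, hQ, hδ, hnear⟩ := near (by omega : 0 < k) r (ε := ε * κ / 8) (by positivity)
  obtain ⟨C, hC⟩ := decouple k r (ε := ε * κ / 240) (by positivity)
  have hQr : (1 : ℝ) ≤ Q := by exact_mod_cast hQ
  obtain ⟨H, hH⟩ : ∃ H : ℕ → ℕ, ∀ i, H i = ⌊δ * 2 ^ i / (Q * M)⌋₊ := ⟨_, fun _ => rfl⟩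
  have hHmono : ∀ i j, i ≤ j → H i ≤ H j := by
    intro i j hij
    rw [hH, hH]
    apply Nat.floor_le_floor
    gcongr
    norm_num
  -- choice of `i₀`
  obtain ⟨m, hm⟩ := pow_unbounded_of_one_lt (max (K : ℝ) ((W + 1) * (Q * M) / δ)) (by norm_num : (1 : ℝ) < 2)
  obtain ⟨i₀, hi₀⟩ : ∃ i₀, i₀ = I₀ + m + 1 := ⟨_, rfl⟩
  have hpow : ∀ i, i₀ ≤ i → (K : ℝ) < 2 ^ i ∧ (W + 1) * (Q * M) / δ < (2 : ℝ) ^ i := by
    intro i hi
    have h1 : (2 : ℝ) ^ m ≤ 2 ^ i := pow_le_pow_right₀ (by norm_num) (by omega)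
    exact ⟨lt_of_le_of_lt (le_max_left _ _) (hm.trans_le h1),
      lt_of_le_of_lt (le_max_right _ _) (hm.trans_le h1)⟩
  have hHW : ∀ i, i₀ ≤ i → W + 1 ≤ H i := by
    intro i hi
    rw [hH]
    apply Nat.le_floor
    have h1 := (hpow i hi).2
    rw [div_lt_iff₀ hδ] at h1
    rw [le_div_iff₀ (by positivity)]
    push_cast
    linarith
  have hHδ : ∀ i, (Q : ℝ) * (M * H i) ≤ δ * 2 ^ i := by
    intro i
    have h1 : (H i : ℝ) ≤ δ * 2 ^ i / (Q * M) := by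
      rw [hH]
      exact Nat.floor_le (by positivity)
    rw [le_div_iff₀ (by positivity)] at h1
    linarith
  obtain ⟨i₁, hi₁, hL⟩ := harm_large i₀ (24 * |C| / (κ * ε))
  obtain ⟨P, hP⟩ : ∃ P, P = (Ico i₀ i₁).biUnion QQ := ⟨_, rfl⟩
  have hPp : ∀ p ∈ P, p.Prime := by
    intro p hp
    rw [hP, mem_biUnion] at hp
    obtain ⟨i, -, hp⟩ := hp
    unfold QQ at hp
    exact (mem_filter.1 hp).2
  obtain ⟨K₂, hK₂⟩ := hC P hPp
  obtain ⟨T, hT⟩ : ∃ T, T = W * (r * (2 ^ i₁ + Q * H i₁)) := ⟨_, rfl⟩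
  obtain ⟨x, hx, hxE', hsum⟩ := havc i₀ i₁ (by omega) hi₁
    (T + K₂ + 2 ^ i₁ + ∑ h ∈ range (T + 1), N₀ h)
  obtain ⟨Z₀, hZ₀⟩ : ∃ Z₀ : ℕ, Z₀ = 2 ^ i₁ := ⟨_, rfl⟩
  rw [← hZ₀] at hx
  have hxT : T ≤ x := by omega
  have hxZ : Z₀ ≤ x := by omega
  have hxpow : 2 ^ i₁ ≤ x := by rw [← hZ₀]; exact hxZ
  have hxK : K₂ ≤ x := by omega
  have hxpos : 0 < x := lt_of_lt_of_le (by positivity) hxpow
  have hxr : (0 : ℝ) < x := by exact_mod_cast hxpos
  have hTT : ∀ h : ℕ, 1 ≤ h → h ≤ T → |TT lamI x h| ≤ κ * x := by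
    intro h hh hhT
    by_contra hcc
    apply hxE'
    refine hN₀ h x ⟨hh, not_le.1 hcc⟩ ?_
    have h1 : N₀ h ≤ ∑ h ∈ range (T + 1), N₀ h :=
      single_le_sum (f := N₀) (fun _ _ => Nat.zero_le _) (mem_range.2 (by omega))
    omega
  have hdec := hK₂ x hxK
  -- the two kinds of bad primes
  obtain ⟨bad1, hbad1⟩ : ∃ bad1 : ℕ → Prop, ∀ p, bad1 p ↔
    κ / 4 < |CC lamI k x (r * p) / x - (-1) ^ k * (CC lamI k (x / p) r / ((x / p : ℕ) : ℝ))| := ⟨_, fun _ => Iff.rfl⟩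
  obtain ⟨Sm, hSm⟩ : ∃ Sm : ℕ → ℕ → ℝ, ∀ i p, Sm i p = ∑ c ∈ Icc (-(M : ℤ)) M, ∑ τ ∈ Icc (1 : ℤ) (H i),
      |CC lamI k x (r * (p + Q * (M * H i + c * τ))) - CC lamI k x (r * p)| := ⟨_, fun _ _ => rfl⟩
  have hSm0 : ∀ i p, 0 ≤ Sm i p := by
    intro i p
    rw [hSm]
    exact sum_nonneg fun _ _ => sum_nonneg fun _ _ => abs_nonneg _
  obtain ⟨bad2, hbad2⟩ : ∃ bad2 : ℕ → ℕ → Prop, ∀ i p, bad2 i p ↔
    κ * ((2 * M + 1) * H i * x) < Sm i p := ⟨_, fun _ _ => Iff.rfl⟩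
  have hkey : ∀ i ∈ Ico i₀ i₁, ∀ p ∈ QQ i, x / p ∈ E → bad1 p ∨ bad2 i p := by
    intro i hi p hp hpE
    rw [mem_Ico] at hi
    by_contra hcc
    push Not at hcc
    obtain ⟨hb1, hb2⟩ := hcc
    rw [hbad1, not_lt] at hb1
    rw [hbad2, not_lt, hSm] at hb2
    unfold QQ at hp
    rw [mem_filter, mem_Ioc] at hp
    have hp1 : 1 ≤ p := hp.2.pos
    have hp2 : p ≤ 2 ^ i₁ := hp.1.2.trans (Nat.pow_le_pow_right (by norm_num) (by omega))
    have hTi : W * (r * (p + Q * H i)) ≤ T := by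
      rw [hT]
      have h1 := hHmono i i₁ (by omega)
      gcongr
    have hWi := hHW i hi.1
    have hsk : (-1 : ℝ) ^ k = 1 ∨ (-1 : ℝ) ^ k = -1 := neg_one_pow_eq_or ℝ k
    refine hcon lamI lamI_sg ((-1) ^ k * σ) (by
      rcases hsk with h | h <;> rcases hσ with h' | h' <;> rw [h, h'] <;> norm_num) r Q (H i) p x hr
      hQ hp1 (by omega) (hTi.trans hxT) (fun h hh hhT => hTT h hh (hhT.trans hTi)) ?_ hb2
    rw [hEdef] at hpE
    have hpE' : (1 / 2 - κ / 2) * ((x / p : ℕ) : ℝ) < σ * CC lamI k (x / p) r := hpE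
    have hxp : 0 < x / p := Nat.div_pos (hp2.trans hxpow) hp1
    have hxpr : (0 : ℝ) < ((x / p : ℕ) : ℝ) := by exact_mod_cast hxp
    have h1 : 1 / 2 - κ / 2 < σ * (CC lamI k (x / p) r / ((x / p : ℕ) : ℝ)) := by
      rw [mul_div_assoc', lt_div_iff₀ hxpr]
      exact hpE'
    have h2 : σ * (CC lamI k (x / p) r / ((x / p : ℕ) : ℝ)) - κ / 4 ≤
        ((-1) ^ k * σ) * (CC lamI k x (r * p) / x) := by
      have h3 := abs_le.1 hb1
      rcases hsk with h' | h' <;> rw [h'] at h3 ⊢ <;> rcases hσ with h | h <;> rw [h] <;>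
        linarith [h3.1, h3.2]
    have h4 : 1 / 2 - κ ≤ ((-1) ^ k * σ) * (CC lamI k x (r * p) / x) := by linarith
    rw [mul_div_assoc', le_div_iff₀ hxr] at h4
    exact h4
  -- the sum over the primes
  have hi1 : ∀ i ∈ Ico i₀ i₁, 1 ≤ i := fun i hi => by
    rw [mem_Ico] at hi
    omega
  obtain ⟨L, hLdef⟩ : ∃ L : ℝ, L = ∑ i ∈ Ico i₀ i₁, (1 : ℝ) / i := ⟨_, rfl⟩
  rw [← hLdef] at hL hsum
  have hsplit : ∑ i ∈ Ico i₀ i₁, (1 : ℝ) / i * ∑ p ∈ QQ i, Real.log p / 2 ^ i *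
      (if x / p ∈ E then 1 else 0) ≤
      ∑ i ∈ Ico i₀ i₁, (1 : ℝ) / i * ∑ p ∈ QQ i, Real.log p / 2 ^ i * (if bad1 p then 1 else 0) +
      ∑ i ∈ Ico i₀ i₁, (1 : ℝ) / i * ∑ p ∈ QQ i, Real.log p / 2 ^ i * (if bad2 i p then 1 else 0) := by
    rw [← sum_add_distrib]
    refine sum_le_sum fun i hi => ?_
    rw [← mul_add, ← sum_add_distrib]
    refine mul_le_mul_of_nonneg_left (sum_le_sum fun p hp => ?_) (by positivity)
    rw [← mul_add]
    refine mul_le_mul_of_nonneg_left ?_ (div_nonneg (Real.log_natCast_nonneg p) (by positivity))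
    by_cases hpE : x / p ∈ E
    · rw [if_pos hpE]
      rcases hkey i hi p hp hpE with h | h
      · rw [if_pos h]
        split_ifs <;> norm_num
      · rw [if_pos h]
        split_ifs <;> norm_num
    · rw [if_neg hpE]
      split_ifs <;> norm_num
  have hpart1 : ∑ i ∈ Ico i₀ i₁, (1 : ℝ) / i * ∑ p ∈ QQ i, Real.log p / 2 ^ i *
      (if bad1 p then 1 else 0) ≤ ε / 4 * L + 12 / κ * C := by
    have h1 : ∀ i ∈ Ico i₀ i₁, (1 : ℝ) / i * ∑ p ∈ QQ i, Real.log p / 2 ^ i *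
        (if bad1 p then 1 else 0) ≤ ∑ p ∈ QQ i, 12 / κ * ((1 / (p : ℝ)) *
        |CC lamI k x (r * p) / x - (-1) ^ k * (CC lamI k (x / p) r / ((x / p : ℕ) : ℝ))|) := by
      intro i hi
      rw [mul_sum]
      refine sum_le_sum fun p hp => ?_
      have h2 := QQ_log (hi1 i hi) hp
      have h3 : (0 : ℝ) ≤ 1 / (p : ℝ) := by positivity
      split_ifs with hb
      · rw [hbad1] at hb
        rw [mul_one]
        refine h2.trans ?_
        have h4 : 3 ≤ 12 / κ * |CC lamI k x (r * p) / x - (-1) ^ k * (CC lamI k (x / p) r / ((x / p : ℕ) : ℝ))| := by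
          rw [div_mul_eq_mul_div, le_div_iff₀ hκ0]
          linarith
        nlinarith
      · rw [mul_zero, mul_zero]
        positivity
    refine (sum_le_sum h1).trans ?_
    rw [← sum_PP, ← mul_sum, ← hP]
    have h5 : ∑ p ∈ P, 1 / (p : ℝ) ≤ 5 * L := by
      rw [hP, sum_PP, hLdef, mul_sum]
      exact sum_le_sum fun i hi => QQ_inv i (hi1 i hi)
    have h6 : 12 / κ * ∑ p ∈ P, (1 / (p : ℝ)) *
        |CC lamI k x (r * p) / x - (-1) ^ k * (CC lamI k (x / p) r / ((x / p : ℕ) : ℝ))| ≤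
        12 / κ * (C + ε * κ / 240 * (5 * L)) := by
      refine mul_le_mul_of_nonneg_left (hdec.trans ?_) (by positivity)
      have : ε * κ / 240 * ∑ p ∈ P, 1 / (p : ℝ) ≤ ε * κ / 240 * (5 * L) :=
        mul_le_mul_of_nonneg_left h5 (by positivity)
      linarith
    refine h6.trans (le_of_eq ?_)
    field_simp
    ring
  have hpart2 : ∑ i ∈ Ico i₀ i₁, (1 : ℝ) / i * ∑ p ∈ QQ i, Real.log p / 2 ^ i *
      (if bad2 i p then 1 else 0) ≤ ε / 4 * L := by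
    rw [hLdef, mul_sum]
    refine sum_le_sum fun i hi => ?_
    have hi' := mem_Ico.1 hi
    have hHi : (0 : ℝ) < H i := by
      have := hHW i hi'.1
      exact_mod_cast (by omega : 0 < H i)
    obtain ⟨B, hB⟩ : ∃ B : ℝ, B = κ * ((2 * M + 1) * H i * x) := ⟨_, rfl⟩
    have hB0 : 0 < B := by rw [hB]; positivity
    have h2i : (0 : ℝ) < 2 ^ i := by positivity
    have h1 : ∀ p ∈ QQ i, Real.log p / 2 ^ i * (if bad2 i p then 1 else 0) ≤
        1 / (2 ^ i * B) * (Real.log p * Sm i p) := by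
      intro p _
      have h0 : 0 ≤ Real.log p := Real.log_natCast_nonneg p
      split_ifs with hb
      · rw [hbad2, ← hB] at hb
        rw [mul_one, one_div_mul_eq_div, div_le_div_iff₀ h2i (by positivity)]
        have : Real.log p * B ≤ Real.log p * Sm i p := mul_le_mul_of_nonneg_left hb.le h0
        nlinarith
      · rw [mul_zero]
        have := hSm0 i p
        positivity
    have h2 : ∑ p ∈ QQ i, Real.log p * Sm i p ≤ (2 * M + 1) * H i * (ε * κ / 8 * (2 ^ (i + 1) * x)) := by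
      have h3 : ∀ c ∈ Icc (-(M : ℤ)) M, ∀ τ ∈ Icc (1 : ℤ) (H i), ∑ p ∈ QQ i, Real.log p *
          |CC lamI k x (r * (p + Q * (M * H i + c * τ))) - CC lamI k x (r * p)| ≤
          ε * κ / 8 * (2 ^ (i + 1) * x) := by
        intro c hc τ hτ
        rw [mem_Icc] at hc hτ
        have hcτ1 : -((M : ℤ) * H i) ≤ c * τ := by nlinarith
        have hcτ2 : c * τ ≤ (M : ℤ) * H i := by nlinarith
        obtain ⟨m, hm⟩ : ∃ m : ℕ, (M : ℤ) * H i + c * τ = m :=
          ⟨((M : ℤ) * H i + c * τ).toNat, by omega⟩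
        have hm2 : (m : ℝ) ≤ 2 * (M * H i) := by
          have : (m : ℤ) ≤ 2 * (M * H i) := by omega
          exact_mod_cast this
        have h4 := hnear (2 ^ (i + 1)) x (by
          have h5 := (hpow (i + 1) (by omega)).1
          exact_mod_cast h5.le) ((Nat.pow_le_pow_right (by norm_num) (by omega)).trans hxpow) m (by
          push_cast
          have h6 := hHδ i
          have h7 : (2 : ℝ) ^ (i + 1) = 2 * 2 ^ i := by ring
          rw [h7]
          calc (Q : ℝ) * m ≤ Q * (2 * (M * H i)) := by gcongr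
            _ = 2 * (Q * (M * H i)) := by ring
            _ ≤ 2 * (δ * 2 ^ i) := by linarith
            _ = δ * (2 * 2 ^ i) := by ring)
        push_cast at h4
        refine le_trans ?_ h4
        have h8 : QQ i ⊆ (Icc 1 (2 ^ (i + 1))).filter Nat.Prime := by
          intro p hp
          unfold QQ at hp
          rw [mem_filter, mem_Ioc] at hp
          rw [mem_filter, mem_Icc]
          exact ⟨⟨hp.2.pos, hp.1.2⟩, hp.2⟩
        have h9 : ∀ p : ℕ, Real.log p *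
            |CC lamI k x (r * (p + Q * (M * H i + c * τ))) - CC lamI k x (r * p)| =
            Real.log p * |CC lamI k x (r * (p + (Q * m : ℤ))) - CC lamI k x (r * p)| := by
          intro p
          rw [hm]
        rw [sum_congr rfl fun p _ => h9 p]
        exact sum_le_sum_of_subset_of_nonneg h8 fun p _ _ =>
          mul_nonneg (Real.log_natCast_nonneg p) (abs_nonneg _)
      have h10 : ∑ p ∈ QQ i, Real.log p * Sm i p = ∑ c ∈ Icc (-(M : ℤ)) M, ∑ τ ∈ Icc (1 : ℤ) (H i),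
          ∑ p ∈ QQ i, Real.log p *
          |CC lamI k x (r * (p + Q * (M * H i + c * τ))) - CC lamI k x (r * p)| := by
        simp_rw [hSm, mul_sum]
        rw [sum_comm]
        refine sum_congr rfl fun c _ => ?_
        rw [sum_comm]
      rw [h10]
      refine (sum_le_sum fun c hc => sum_le_sum fun τ hτ => h3 c hc τ hτ).trans ?_
      rw [sum_const, sum_const, Int.card_Icc, Int.card_Icc]
      have n1 : ((H i : ℤ) + 1 - 1).toNat = H i := by simp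
      have n2 : ((M : ℤ) + 1 - -(M : ℤ)).toNat = 2 * M + 1 := by omega
      rw [n1, n2, nsmul_eq_mul, nsmul_eq_mul]
      push_cast
      linarith
    have h11 : ∑ p ∈ QQ i, Real.log p / 2 ^ i * (if bad2 i p then 1 else 0) ≤ ε / 4 := by
      refine (sum_le_sum h1).trans ?_
      rw [← mul_sum]
      calc 1 / (2 ^ i * B) * ∑ p ∈ QQ i, Real.log p * Sm i p
          ≤ 1 / (2 ^ i * B) * ((2 * M + 1) * H i * (ε * κ / 8 * (2 ^ (i + 1) * x))) :=
            mul_le_mul_of_nonneg_left h2 (by positivity)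
        _ = ε / 4 := by
            rw [hB, pow_succ]
            field_simp
            ring
    calc (1 : ℝ) / i * ∑ p ∈ QQ i, Real.log p / 2 ^ i * (if bad2 i p then 1 else 0)
        ≤ 1 / i * (ε / 4) := mul_le_mul_of_nonneg_left h11 (by positivity)
      _ = ε / 4 * (1 / i) := by ring
  have hfin := hsum.trans (hsplit.trans (add_le_add hpart1 hpart2))
  have h20 : ε / 2 * L ≤ 12 / κ * C := by linarith
  have h21 : 12 / κ * C ≤ 12 / κ * |C| := mul_le_mul_of_nonneg_left (le_abs_self C) (by positivity)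
  rw [div_lt_iff₀ (by positivity)] at hL
  have h22 : 12 / κ * |C| = 12 * |C| / κ := by ring
  rw [h22] at h21
  have h23 := h20.trans h21
  rw [le_div_iff₀ hκ0] at h23
  nlinarith

end Pool.Agent.Helper33.Half
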